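import Pool.Agent.X190.FreeProd2
import Pool.Agent.H291R2.FZ.LEBF

/-! The Cuntz algebra `O_∞` with its vacuum state, and the Lebesgue state. -/

set_option autoImplicit false

noncomputable section

namespace Pool.Agent.X190.FreeProd

open scoped ComplexOrder InnerProductSpace
open Filter Topology MeasureTheory Pool.Agent.X190.States Pool.Agent.X190.Fock
  Pool.Agent.X190.Cuntz

/-- `O` with `s` is a copy of the Cuntz algebra `O_∞`: it is a nonzero unital C*-algebra generated by
a sequence of isometries with pairwise orthogonal ranges. -/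
structure IsCuntzInfinity (O : Type) [CStarAlgebra O] (s : ℕ → O) : Prop where
  nontrivial : Nontrivial O
  isometry : ∀ i, star (s i) * s i = 1
  orthogonal : ∀ i j, i ≠ j → star (s i) * s j = 0
  generate : (StarAlgebra.adjoin ℂ (Set.range s)).topologicalClosure = ⊤

/-- The unital C*-algebra `C` is simple and purely infinite: it is nonzero, its only closed two-sided
ideals are `0` and `C`, it is not isomorphic to `ℂ`, and for every nonzero `a` there are `x`, `y`
with `x a y = 1`. -/
structure IsPurelyInfiniteSimple (C : Type) [CStarAlgebra C] : Prop where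
  nontrivial : Nontrivial C
  simple : ∀ I : TwoSidedIdeal C, IsClosed (I : Set C) → I = ⊥ ∨ I = ⊤
  not_scalar : ∃ x : C, ∀ r : ℂ, x ≠ r • 1
  infinite : ∀ a : C, a ≠ 0 → ∃ x y, x * a * y = 1

/-- the copy -/
abbrev OO : Type := AA ℕ

theorem isCuntzInfinity : IsCuntzInfinity OO (sys ℕ).s :=
  ⟨inferInstance, (sys ℕ).iso, (sys ℕ).orth, (sys ℕ).dense⟩

theorem isPurelyInfiniteSimple : IsPurelyInfiniteSimple OO := by
  refine ⟨inferInstance, fun I _ => AA_simple I, ⟨pr 0, fun r hr => ?_⟩, pureInf⟩
  have h1 : ((pr 0 : AA ℕ) : FS ℕ →L[ℂ] FS ℕ) (bas ℕ []) = r • bas ℕ [] := by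
    rw [hr]; rfl
  have h2 : ((pr 0 : AA ℕ) : FS ℕ →L[ℂ] FS ℕ) (bas ℕ [0]) = r • bas ℕ [0] := by
    rw [hr]; rfl
  rw [pr_nil] at h1
  rw [pr_one] at h2
  have hn : ∀ w, bas ℕ w ≠ 0 := fun w hw => by
    have := (bas ℕ).orthonormal.1 w
    rw [hw, norm_zero] at this
    exact zero_ne_one this
  have hr0 : r = 0 := (smul_eq_zero.1 h1.symm).resolve_right (hn _)
  rw [hr0, zero_smul] at h2
  exact hn _ h2

theorem separable : TopologicalSpace.SeparableSpace OO := (sys ℕ).separable

/-- For the mixed state the criterion applies. -/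
theorem mix_crit : mix (κ := ℕ) 0 (star (pr 0) * pr 0) ≠ mix 0 (pr 0) * mix 0 (star (pr 0)) := by
  rw [pr_star, pr_mul, mix_pr]
  norm_num

/-- The Lebesgue state `f ↦ ∫₀¹ f(t) dt` on `C([0,1])`. -/
def leb : C(unitInterval, ℂ) →L[ℂ] ℂ :=
  LinearMap.mkContinuous
    { toFun := fun f => ∫ x : unitInterval, f x
      map_add' := fun f g => by
        simp only [ContinuousMap.add_apply]
        exact integral_add (Pool.Agent.H923R2.FZ.T_LEBF.integrable' f)
          (Pool.Agent.H923R2.FZ.T_LEBF.integrable' g)
      map_smul' := fun c f => by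
        simp only [ContinuousMap.smul_apply, RingHom.id_apply]
        exact integral_smul c _ } 1 (fun f => by
      rw [one_mul]
      have := norm_integral_le_of_norm_le_const (μ := (volume : Measure unitInterval))
        (f := fun x => f x) (C := ‖f‖) (Filter.Eventually.of_forall fun x => f.norm_coe_le_norm x)
      simpa using this)

theorem leb_apply (f : C(unitInterval, ℂ)) : leb f = ∫ x : unitInterval, f x := rfl

theorem leb_star_mul (x : C(unitInterval, ℂ)) :
    leb (star x * x) = ((∫ t : unitInterval, ‖x t‖ ^ 2 : ℝ) : ℂ) := by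
  rw [leb_apply, ← integral_complex_ofReal]
  congr 1
  funext t
  simp only [ContinuousMap.mul_apply, ContinuousMap.star_apply]
  have := Complex.conj_mul' (x t)
  simpa using this

theorem leb_state : IsState leb := by
  apply isState_of
  · intro x
    rw [leb_star_mul]
    exact Complex.zero_le_real.2 (by positivity)
  · exact LinearMap.mkContinuous_norm_le _ zero_le_one _
  · rw [leb_apply]
    simp

theorem leb_faithful {x : C(unitInterval, ℂ)} (hx : leb (star x * x) = 0) : x = 0 := by
  have := Pool.Agent.H923R2.FZ.T_LEBF.openPos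
  rw [leb_star_mul] at hx
  have hx' : ∫ t : unitInterval, ‖x t‖ ^ 2 = 0 := by exact_mod_cast hx
  have hc : Continuous fun t : unitInterval => ‖x t‖ ^ 2 := by fun_prop
  have hi : Integrable (fun t : unitInterval => ‖x t‖ ^ 2) (volume : Measure unitInterval) :=
    hc.integrable_of_hasCompactSupport (HasCompactSupport.of_compactSpace _)
  have h0 := (integral_eq_zero_iff_of_nonneg (fun t => by positivity) hi).1 hx'
  have h1 := (hc.ae_eq_iff_eq (μ := (volume : Measure unitInterval)) continuous_const).1 h0
  ext t
  have h2 : ‖x t‖ ^ 2 = 0 := congrFun h1 t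
  simpa using h2

/-- the coordinate function -/
def coord : C(unitInterval, ℂ) := ⟨fun t => ((t : ℝ) : ℂ), by fun_prop⟩

theorem leb_crit : leb (star coord * coord) ≠ leb coord * leb (star coord) := by
  intro h
  have hstar : leb (star coord) = (starRingEnd ℂ) (leb coord) := by
    have hp : Pos leb := leb_state.nonneg
    have := hp.conj_symm coord 1
    simpa using this.symm
  set r := leb coord with hr
  have h1 : leb (star (coord - r • 1) * (coord - r • 1)) = 0 := by
    have e : star (coord - r • (1 : C(unitInterval, ℂ))) * (coord - r • 1) =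
        star coord * coord - (starRingEnd ℂ r) • coord - r • star coord +
          (starRingEnd ℂ r * r) • 1 := by
      rw [star_sub, star_smul, star_one]
      simp only [sub_mul, mul_sub, smul_mul_assoc, mul_smul_comm, one_mul, mul_one,
        Complex.star_def]
      rw [smul_sub, smul_smul, mul_comm r]
      abel
    rw [e, map_add, map_sub, map_sub, map_smul, map_smul, map_smul, h, hstar, ← hr,
      leb_state.map_one]
    simp only [smul_eq_mul]
    ring
  have h2 := leb_faithful h1
  have h3 : ∀ t : unitInterval, ((t : ℝ) : ℂ) = r := by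
    intro t
    have := DFunLike.congr_fun h2 t
    simp only [ContinuousMap.sub_apply, ContinuousMap.smul_apply, ContinuousMap.one_apply,
      ContinuousMap.zero_apply, smul_eq_mul, mul_one] at this
    exact sub_eq_zero.1 this
  have h4 := h3 0
  have h5 := h3 1
  rw [← h4] at h5
  simp at h5

end Pool.Agent.X190.FreeProd
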