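import Pool.Agent.X190.States

/-! In a C*-algebra with a tracial state, a sequence of projections of total trace less than one is
annihilated by some state. -/

set_option autoImplicit false

namespace Pool.Agent.X190.KillProj

open scoped ComplexOrder
open Filter Topology Pool.Agent.X190.States

variable {A : Type*} [CStarAlgebra A]

theorem isState_of_pos {ω : A →L[ℂ] ℂ} [Nontrivial A] (hp : Pos ω) (h1 : ω 1 = 1) :
    IsState ω := by
  refine isState_of hp ?_ h1
  have hb : ∀ a, ‖ω a‖ ≤ Real.sqrt ‖ω‖ * ‖a‖ := by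
    intro a
    have h2 := hp.cs 1 a
    simp only [star_one, one_mul, h1, Complex.one_re] at h2
    have h3 : (ω (star a * a)).re ≤ ‖ω‖ * ‖a‖ ^ 2 := by
      calc (ω (star a * a)).re ≤ ‖ω (star a * a)‖ := Complex.re_le_norm _
        _ ≤ ‖ω‖ * ‖star a * a‖ := ω.le_opNorm _
        _ = ‖ω‖ * ‖a‖ ^ 2 := by rw [CStarRing.norm_star_mul_self, sq]
    have h4 : ‖ω a‖ ^ 2 ≤ (Real.sqrt ‖ω‖ * ‖a‖) ^ 2 := by
      rw [mul_pow, Real.sq_sqrt (norm_nonneg _)]
      exact h2.trans h3
    exact le_of_sq_le_sq h4 (by positivity)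
  have h5 : ‖ω‖ ≤ Real.sqrt ‖ω‖ := ω.opNorm_le_bound (Real.sqrt_nonneg _) hb
  by_contra hlt
  push Not at hlt
  have h6 : Real.sqrt ‖ω‖ < ‖ω‖ := by
    rw [Real.sqrt_lt' (by linarith)]
    nlinarith
  linarith

/-- one step -/
theorem step {τ : A →L[ℂ] ℂ} (hτ : IsState τ) (htr : ∀ x y, τ (x * y) = τ (y * x))
    (p : ℕ → A) (hp : ∀ k, IsStarProjection (p k)) (s : ℝ) (hs : s < 1) (n : ℕ)
    (hsum : ∑ k ∈ Finset.range n, (τ (p k)).re ≤ s) (m : ℝ) (hm : 0 < m) :
    ∃ ω : A →L[ℂ] ℂ, IsState ω ∧ ∀ k < n, ‖ω (p k)‖ ≤ 1 / (m * (1 - s)) := by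
  classical
  let _ : PartialOrder A := CStarAlgebra.spectralOrder A
  have _ : StarOrderedRing A := CStarAlgebra.spectralOrderedRing A
  have hpos : Pos τ := hτ.nonneg
  have hnt : Nontrivial A := by
    by_contra hn
    rw [not_nontrivial_iff_subsingleton] at hn
    have h1 := hτ.map_one
    rw [Subsingleton.elim (1 : A) 0, map_zero] at h1
    exact zero_ne_one h1
  set h : A := ∑ k ∈ Finset.range n, p k with hh
  have hpp : ∀ k, star (p k) * p k = p k := fun k => by
    rw [(hp k).isSelfAdjoint.star_eq, (hp k).isIdempotentElem.eq]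
  have hh0 : 0 ≤ h := Finset.sum_nonneg fun k _ => (hp k).nonneg
  have hsp : IsStrictlyPositive (1 : A) := isStrictlyPositive_one
  have hg : IsUnit (1 + (m : ℂ) • h) := by
    refine CStarAlgebra.isUnit_of_le 1 ?_ hsp
    have : 0 ≤ (m : ℂ) • h := smul_nonneg (Complex.zero_le_real.2 hm.le) hh0
    exact le_add_of_nonneg_right this
  obtain ⟨g, hg⟩ := hg
  set x : A := (↑g⁻¹ : A) with hx
  have hgx : (1 + (m : ℂ) • h) * x = 1 := by rw [← hg]; exact g.mul_inv
  have hxg : x * (1 + (m : ℂ) • h) = 1 := by rw [← hg]; exact g.inv_mul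
  have hhs : star h = h := (IsSelfAdjoint.of_nonneg hh0).star_eq
  have hxs : star x = x := by
    have h1 : star x * (1 + (m : ℂ) • h) = 1 := by
      have := congrArg star hgx
      rw [star_mul, star_add, star_smul, star_one, hhs] at this
      simpa using this
    calc star x = star x * ((1 + (m : ℂ) • h) * x) := by rw [hgx, mul_one]
      _ = x := by rw [← mul_assoc, h1, one_mul]
  -- expansion
  have hexp : ∀ y : A, star y * x * y = star (x * y) * (x * y) +
      (m : ℂ) • ∑ k ∈ Finset.range n, star (p k * (x * y)) * (p k * (x * y)) := by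
    intro y
    have h1 : star y * x * y = star (x * y) * ((1 + (m : ℂ) • h) * (x * y)) := by
      rw [star_mul, hxs, ← mul_assoc (1 + (m : ℂ) • h), hgx, one_mul]
    have h2 : ∀ k, star (p k * (x * y)) * (p k * (x * y)) = star (x * y) * (p k * (x * y)) := by
      intro k
      rw [star_mul (p k), mul_assoc, ← mul_assoc (star (p k)), hpp]
    rw [h1, add_mul, one_mul, mul_add, smul_mul_assoc, mul_smul_comm]
    congr 2
    rw [Finset.sum_congr rfl fun k _ => h2 k, hh, Finset.sum_mul, Finset.mul_sum]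
  have hre : ∀ y : A, (0 : ℝ) ≤ (τ (star y * y)).re := fun y =>
    (Complex.nonneg_iff.1 (hpos y)).1
  have him : ∀ y : A, (τ (star y * y)).im = 0 := fun y =>
    (Complex.nonneg_iff.1 (hpos y)).2.symm
  have hterm : ∀ y : A, ∀ k ∈ Finset.range n, (τ (star y * x * y)).re ≥
      (τ (star (x * y) * (x * y))).re +
        m * (τ (star (p k * (x * y)) * (p k * (x * y)))).re := by
    intro y k hk
    rw [hexp, map_add, map_smul, map_sum, Complex.add_re, smul_eq_mul, Complex.re_ofReal_mul,
      Complex.re_sum]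
    have := Finset.single_le_sum (f := fun k => (τ (star (p k * (x * y)) * (p k * (x * y)))).re)
      (fun k _ => hre _) hk
    have := mul_le_mul_of_nonneg_left this hm.le
    linarith
  have hterm0 : ∀ y : A, (τ (star y * x * y)).re ≥ (τ (star (x * y) * (x * y))).re := by
    intro y
    rw [hexp, map_add, map_smul, map_sum, Complex.add_re, smul_eq_mul, Complex.re_ofReal_mul,
      Complex.re_sum]
    have := Finset.sum_nonneg (s := Finset.range n)
      (f := fun k => (τ (star (p k * (x * y)) * (p k * (x * y)))).re) (fun k _ => hre _)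
    have := mul_nonneg hm.le this
    linarith
  set r : ℝ := (τ x).re with hr
  set q : ℝ := (τ (star x * x)).re with hq
  have hxim : (τ x).im = 0 := by
    have h1 := hpos.conj_symm x 1
    rw [star_one, one_mul, mul_one, hxs] at h1
    exact Complex.conj_eq_iff_im.1 h1
  have hqr : q ≤ r := by
    have := hterm0 1
    simp only [star_one, one_mul, mul_one] at this
    exact this
  have hrq : r ^ 2 ≤ q := by
    have h1 := hpos.cs 1 x
    simp only [star_one, one_mul, hτ.map_one, Complex.one_re] at h1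
    have h2 : ‖τ x‖ ^ 2 = r ^ 2 := by
      rw [← Complex.normSq_eq_norm_sq, Complex.normSq_apply, hxim, hr]
      ring
    rw [h2] at h1
    exact h1
  -- bound for the individual projections
  have hu : ∀ k ∈ Finset.range n, m * (τ (p k * x)).re ≤ (τ (p k)).re := by
    intro k hk
    have e1 : τ (p k * x) = τ (star (p k) * x * p k) := by
      have h2 : τ (star (p k) * x * p k) = τ (p k * (star (p k) * x)) := htr _ _
      rw [h2, ← mul_assoc]
      congr 2
      rw [(hp k).isSelfAdjoint.star_eq, (hp k).isIdempotentElem.eq]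
    set u : ℝ := (τ (p k * x)).re with hu
    have e2 := hterm (p k) k hk
    rw [← e1] at e2
    have e3 := hre (x * p k)
    set v : ℝ := (τ (star (p k * (x * p k)) * (p k * (x * p k)))).re with hv
    have e4 : m * v ≤ u := by linarith
    have e5 := hpos.cs (p k) (p k * (x * p k))
    have e6 : star (p k) * (p k * (x * p k)) = star (p k) * x * p k := by
      rw [← mul_assoc, hpp, (hp k).isSelfAdjoint.star_eq, mul_assoc]
    rw [e6, ← e1, hpp] at e5
    have e7 : u ^ 2 ≤ ‖τ (p k * x)‖ ^ 2 := by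
      have : |u| ≤ ‖τ (p k * x)‖ := Complex.abs_re_le_norm _
      calc u ^ 2 = |u| ^ 2 := (sq_abs u).symm
        _ ≤ _ := by gcongr
    have ht0 : 0 ≤ (τ (p k)).re := by
      have := hre (p k)
      rwa [hpp] at this
    have e8 : u ^ 2 ≤ (τ (p k)).re * v := e7.trans e5
    have hv0 : 0 ≤ v := hre _
    by_contra hcon
    push Not at hcon
    have hupos : 0 < u := by
      by_contra hle
      push Not at hle
      have : m * u ≤ 0 := mul_nonpos_of_nonneg_of_nonpos hm.le hle
      linarith
    have e9 : m * u ^ 2 ≤ (τ (p k)).re * u := by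
      calc m * u ^ 2 ≤ m * ((τ (p k)).re * v) := mul_le_mul_of_nonneg_left e8 hm.le
        _ = (τ (p k)).re * (m * v) := by ring
        _ ≤ (τ (p k)).re * u := mul_le_mul_of_nonneg_left e4 ht0
    have e10 : m * u ≤ (τ (p k)).re := by
      by_contra hh2
      push Not at hh2
      have := mul_lt_mul_of_pos_right hh2 hupos
      nlinarith
    linarith
  have hr1 : 1 - s ≤ r := by
    have h1 : (1 : A) - x = (m : ℂ) • (h * x) := by
      have := hgx
      rw [add_mul, one_mul, smul_mul_assoc] at this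
      rw [← this]
      abel
    have h2 : 1 - r = ∑ k ∈ Finset.range n, m * (τ (p k * x)).re := by
      have h3 := congrArg (fun z => (τ z).re) h1
      simp only [map_sub, hτ.map_one, Complex.sub_re, Complex.one_re, map_smul, smul_eq_mul,
        Complex.re_ofReal_mul] at h3
      rw [hr, h3, hh, Finset.sum_mul, map_sum, Complex.re_sum, Finset.mul_sum]
    have h4 := Finset.sum_le_sum hu
    linarith
  have hs0 : 0 < 1 - s := by linarith
  have hrpos : 0 < r := hs0.trans_le hr1
  have hqpos : 0 < q := (pow_pos hrpos 2).trans_le hrq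
  -- the state
  let ω : A →L[ℂ] ℂ := ((q : ℂ)⁻¹) • τ.comp
    ((ContinuousLinearMap.mul ℂ A (star x)).comp ((ContinuousLinearMap.mul ℂ A).flip x))
  have hω : ∀ a, ω a = (q : ℂ)⁻¹ * τ (star x * (a * x)) := fun a => by
    simp [ω]
  have hqc : τ (star x * x) = (q : ℂ) := Complex.ext rfl (by rw [him]; simp)
  have hωpos : Pos ω := by
    intro a
    rw [hω]
    have e1 : star x * (star a * a * x) = star (a * x) * (a * x) := by
      rw [star_mul]; noncomm_ring
    rw [e1]
    have e2 : (0 : ℂ) ≤ (q : ℂ)⁻¹ := by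
      rw [← Complex.ofReal_inv]
      exact Complex.zero_le_real.2 (by positivity)
    exact mul_nonneg e2 (hpos _)
  have hω1 : ω 1 = 1 := by
    rw [hω, one_mul, hqc]
    exact inv_mul_cancel₀ (by exact_mod_cast hqpos.ne')
  refine ⟨ω, isState_of_pos hωpos hω1, fun k hk => ?_⟩
  have hk' := Finset.mem_range.2 hk
  have e1 : star x * (p k * x) = star (p k * x) * (p k * x) := by
    rw [star_mul (p k), mul_assoc, ← mul_assoc (star (p k)), hpp]
  have e2 := hterm 1 k hk'
  simp only [star_one, one_mul, mul_one] at e2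
  have e3 : m * (τ (star (p k * x) * (p k * x))).re ≤ r := by
    have : 0 ≤ (τ (star x * x)).re := hre x
    linarith
  rw [hω, e1, norm_mul]
  have e4 : ‖τ (star (p k * x) * (p k * x))‖ = (τ (star (p k * x) * (p k * x))).re := by
    have h1 : τ (star (p k * x) * (p k * x)) = (((τ (star (p k * x) * (p k * x))).re : ℝ) : ℂ) :=
      Complex.ext rfl (by rw [him]; simp)
    rw [h1, Complex.norm_real, Real.norm_of_nonneg (hre _)]
    simp
  have e5 : ‖((q : ℂ)⁻¹)‖ = q⁻¹ := by
    rw [norm_inv, Complex.norm_real, Real.norm_of_nonneg hqpos.le]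
  rw [e4, e5]
  set w := (τ (star (p k * x) * (p k * x))).re with hw
  have hw0 : 0 ≤ w := hre _
  rw [inv_mul_eq_div, div_le_div_iff₀ hqpos (by positivity), one_mul]
  calc w * (m * (1 - s)) = (m * w) * (1 - s) := by ring
    _ ≤ r * r := mul_le_mul e3 hr1 hs0.le hrpos.le
    _ = r ^ 2 := by ring
    _ ≤ q := hrq

theorem exists_state {τ : A →L[ℂ] ℂ} (hτ : IsState τ) (htr : ∀ x y, τ (x * y) = τ (y * x))
    (p : ℕ → A) (hp : ∀ k, IsStarProjection (p k)) (s : ℝ) (hs : s < 1)
    (hsum : ∀ n, ∑ k ∈ Finset.range n, (τ (p k)).re ≤ s) :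
    ∃ ω : A →L[ℂ] ℂ, IsState ω ∧ ∀ k, ω (p k) = 0 := by
  have h1 : ∀ n : ℕ, ∃ ω : A →L[ℂ] ℂ, IsState ω ∧
      ∀ k < n, ‖ω (p k)‖ ≤ 1 / ((n + 1 : ℝ) * (1 - s)) := fun n =>
    step hτ htr p hp s hs n (hsum n) (n + 1) (by positivity)
  choose f hf hfk using h1
  obtain ⟨ω, hωn, hω⟩ := exists_limit (Filter.hyperfilter ℕ) f (fun n => (hf n).norm_eq.le)
  have hle : (Filter.hyperfilter ℕ : Filter ℕ) ≤ atTop := Nat.hyperfilter_le_atTop
  have hpos : Pos ω := pos_of_tendsto (fun n => (hf n).nonneg) hω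
  have hone : ω 1 = 1 := by
    have h2 := hω 1
    have h3 : (fun n => f n 1) = fun _ => (1 : ℂ) := by
      funext n; exact (hf n).map_one
    rw [h3] at h2
    exact tendsto_nhds_unique h2 tendsto_const_nhds
  have hnt : Nontrivial A := by
    by_contra hn
    rw [not_nontrivial_iff_subsingleton] at hn
    have h1 := hτ.map_one
    rw [Subsingleton.elim (1 : A) 0, map_zero] at h1
    exact zero_ne_one h1
  refine ⟨ω, isState_of_pos hpos hone, fun k => ?_⟩
  have h4 : Tendsto (fun n : ℕ => 1 / ((n + 1 : ℝ) * (1 - s))) atTop (𝓝 0) := by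
    have h5 : Tendsto (fun n : ℕ => 1 / ((n : ℝ) + 1)) atTop (𝓝 0) :=
      tendsto_one_div_add_atTop_nhds_zero_nat
    have h6 := h5.mul_const (1 / (1 - s))
    rw [zero_mul] at h6
    refine h6.congr fun n => ?_
    rw [div_mul_div_comm, one_mul]
  have h7 : Tendsto (fun n => f n (p k)) (Filter.hyperfilter ℕ) (𝓝 0) := by
    refine squeeze_zero_norm' ?_ (h4.mono_left hle)
    have : ∀ᶠ n : ℕ in atTop, k < n := eventually_gt_atTop k
    filter_upwards [hle this] with n hn
    exact hfk n k hn
  exact tendsto_nhds_unique (hω (p k)) h7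

end Pool.Agent.X190.KillProj
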