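import Pool.Agent.X190.NoChar
import Pool.Agent.X190.KillProj
import Pool.Agent.X190.FreeProd3
import Pool.Agent.H61R2.FZ_TRC

/-! A reduced free product of copies of `ℂ ⊕ ℂ` with a character. -/

set_option autoImplicit false

noncomputable section

namespace Pool.Agent.X190.Absorb

open scoped ComplexOrder InnerProductSpace
open Filter Topology MeasureTheory Pool.Agent.X190.States Pool.Agent.X190.FreeProd
  Pool.Agent.X190.KillProj Pool.Agent.X190.NoChar

section tracial

variable {J : Type} {D : J → Type} [∀ j, CStarAlgebra (D j)] {t : ∀ j, D j →L[ℂ] ℂ}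
    {A : Type} [CStarAlgebra A] {φ : A →L[ℂ] ℂ} {e : ∀ j, D j →⋆ₐ[ℂ] A}

/-- A reduced free product of tracial states is tracial. -/
theorem tracial (h : IsRedFreeProd D t φ e) (htr : ∀ j x y, t j (x * y) = t j (y * x))
    (x y : A) : φ (x * y) = φ (y * x) := by
  have key := Pool.Agent.H923R2.FZ.T_TRC.t_TRC A (φ : A →ₗ[ℂ] ℂ) h.state.map_one J
    (fun j => (e j).range) (by
      intro w hne hw hc
      have hex : ∀ z : {z // z ∈ w}, ∃ y : D z.1.1, e z.1.1 y = z.1.2 := fun z =>
        (hw z.1 z.2).1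
      choose g hg using hex
      have h1 := h.free (w.attach.map fun z => ⟨z.1.1, g z⟩) (by simpa using hne) (by
        rw [List.isChain_map]
        have h2 : (w.attach.map Subtype.val).IsChain (fun x y => x.1 ≠ y.1) := by
          rw [List.attach_map_subtype_val]; exact hc
        rw [List.isChain_map] at h2
        exact h2) (by
        intro z hz
        obtain ⟨y, -, rfl⟩ := List.mem_map.1 hz
        simp only
        rw [← h.restrict, hg]
        exact (hw y.1 y.2).2)
      rw [List.map_map] at h1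
      have h3 : (fun z : Σ j, D j => e z.1 z.2) ∘
          (fun z : {z // z ∈ w} => (⟨z.1.1, g z⟩ : Σ j, D j)) = Prod.snd ∘ Subtype.val := by
        funext z
        simp only [Function.comp]
        rw [hg]
      rw [h3, ← List.map_map, List.attach_map_subtype_val] at h1
      exact h1) (by
      rintro j _ ⟨a, rfl⟩ _ ⟨b, rfl⟩
      simp only [ContinuousLinearMap.coe_coe]
      change φ (e j a * e j b) = φ (e j b * e j a)
      rw [← map_mul, ← map_mul, h.restrict, h.restrict, htr])
  have hle : StarAlgebra.adjoin ℂ (⋃ j, Set.range (e j)) ≤ ⨆ j, (e j).range := by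
    refine StarAlgebra.adjoin_le ?_
    intro z hz
    obtain ⟨j, hj⟩ := Set.mem_iUnion.1 hz
    exact (le_iSup (fun j => (e j).range) j) hj
  have hcl : ∀ z : A, z ∈ closure ((⨆ j, (e j).range : StarSubalgebra ℂ A) : Set A) := by
    intro z
    have h1 : z ∈ (StarAlgebra.adjoin ℂ (⋃ j, Set.range (e j))).topologicalClosure := by
      rw [h.gen]; trivial
    exact closure_mono hle h1
  have h1 : ∀ x ∈ (⨆ j, (e j).range : StarSubalgebra ℂ A), ∀ y : A, φ (x * y) = φ (y * x) := by
    intro x hx y
    have hclosed : IsClosed {y : A | φ (x * y) = φ (y * x)} :=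
      isClosed_eq (φ.continuous.comp (continuous_const.mul continuous_id))
        (φ.continuous.comp (continuous_id.mul continuous_const))
    exact closure_minimal (fun y hy => key x hx y hy) hclosed (hcl y)
  have hclosed : IsClosed {x : A | φ (x * y) = φ (y * x)} :=
    isClosed_eq (φ.continuous.comp (continuous_id.mul continuous_const))
      (φ.continuous.comp (continuous_const.mul continuous_id))
  exact closure_minimal (fun x hx => h1 x hx y) hclosed (hcl x)

end tracial

section two

/-- the state `(a, b) ↦ t a + (1 - t) b` on `ℂ × ℂ` -/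
def two (t : ℝ) : (ℂ × ℂ) →L[ℂ] ℂ :=
  (t : ℂ) • ContinuousLinearMap.fst ℂ ℂ ℂ + ((1 - t : ℝ) : ℂ) • ContinuousLinearMap.snd ℂ ℂ ℂ

theorem two_apply (t : ℝ) (x : ℂ × ℂ) : two t x = t * x.1 + ((1 - t : ℝ) : ℂ) * x.2 := by
  simp [two]

theorem two_star_mul (t : ℝ) (x : ℂ × ℂ) :
    two t (star x * x) = ((t * ‖x.1‖ ^ 2 + (1 - t) * ‖x.2‖ ^ 2 : ℝ) : ℂ) := by
  rw [two_apply]
  simp only [Prod.fst_mul, Prod.snd_mul, Prod.fst_star, Prod.snd_star]
  have h1 := Complex.conj_mul' x.1
  have h2 := Complex.conj_mul' x.2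
  simp only [Complex.star_def]
  rw [h1, h2]
  push_cast
  ring

theorem two_isState {t : ℝ} (h0 : 0 ≤ t) (h1 : t ≤ 1) : IsState (two t) := by
  refine isState_of_pos (fun x => ?_) ?_
  · rw [two_star_mul]
    have : 0 ≤ 1 - t := by linarith
    exact Complex.zero_le_real.2 (by positivity)
  · rw [two_apply]
    simp

theorem two_faithful {t : ℝ} (h0 : 0 < t) (h1 : t < 1) {x : ℂ × ℂ}
    (hx : two t (star x * x) = 0) : x = 0 := by
  rw [two_star_mul] at hx
  have h2 : t * ‖x.1‖ ^ 2 + (1 - t) * ‖x.2‖ ^ 2 = 0 := by exact_mod_cast hx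
  have h3 : 0 < 1 - t := by linarith
  have h4 : 0 ≤ t * ‖x.1‖ ^ 2 := by positivity
  have h5 : 0 ≤ (1 - t) * ‖x.2‖ ^ 2 := by positivity
  have h6 : t * ‖x.1‖ ^ 2 = 0 := by linarith
  have h7 : (1 - t) * ‖x.2‖ ^ 2 = 0 := by linarith
  have h8 : x.1 = 0 := by
    rcases mul_eq_zero.1 h6 with h | h
    · exact absurd h h0.ne'
    · exact norm_eq_zero.1 (by simpa using h)
  have h9 : x.2 = 0 := by
    rcases mul_eq_zero.1 h7 with h | h
    · exact absurd h h3.ne'
    · exact norm_eq_zero.1 (by simpa using h)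
  exact Prod.ext h8 h9

/-- the weights -/
def wt (k : ℕ) : ℝ := (1 / 4) ^ (k + 1)

theorem wt_pos (k : ℕ) : 0 < wt k := by unfold wt; positivity

theorem wt_lt (k : ℕ) : wt k < 1 := by
  unfold wt
  exact pow_lt_one₀ (by norm_num) (by norm_num) (by omega)

theorem sum_wt (n : ℕ) : ∑ k ∈ Finset.range n, wt k ≤ 1 / 3 := by
  have : ∀ n : ℕ, ∑ k ∈ Finset.range n, wt k = 1 / 3 * (1 - (1 / 4) ^ n) := by
    intro n
    induction n with
    | zero => simp
    | succ n ih =>
      rw [Finset.sum_range_succ, ih]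
      unfold wt
      ring
  rw [this]
  have : (0 : ℝ) ≤ (1 / 4) ^ n := by positivity
  linarith

end two

section main

variable {A : Type} [CStarAlgebra A] {φ : A →L[ℂ] ℂ} {e : ∀ _ : ℕ, ℂ × ℂ →⋆ₐ[ℂ] A}

theorem dec (c : ℂ × ℂ) : c = c.2 • (1 : ℂ × ℂ) + (c.1 - c.2) • ((1, 0) : ℂ × ℂ) := by
  ext <;> simp

/-- The reduced free product of the `(ℂ ⊕ ℂ, two (wt k))` has a character. -/
theorem exists_char (h : IsRedFreeProd (fun _ : ℕ => ℂ × ℂ) (fun k => two (wt k)) φ e) :
    ∃ ω : A →L[ℂ] ℂ, IsState ω ∧ ∀ x y, ω (x * y) = ω x * ω y := by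
  have htr := tracial h (fun j x y => by rw [mul_comm])
  have hpr : ∀ k, IsStarProjection (e k (1, 0)) := by
    intro k
    constructor
    · change e k (1, 0) * e k (1, 0) = e k (1, 0)
      rw [← map_mul]
      simp
    · change star (e k (1, 0)) = e k (1, 0)
      rw [← map_star]
      congr 1
      ext <;> simp
  obtain ⟨ω, hω, hk⟩ := exists_state h.state htr (fun k => e k (1, 0)) hpr (1 / 3) (by norm_num)
    (by
      intro n
      have h1 : ∀ k, (φ (e k (1, 0))).re = wt k := by
        intro k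
        rw [h.restrict, two_apply]
        simp
      simp only [h1]
      exact sum_wt n)
  refine ⟨ω, hω, ?_⟩
  -- kill
  have hz : ∀ k x, ω (x * e k (1, 0)) = 0 := by
    intro k x
    refine zero_right hω ?_ x
    rw [(hpr k).isSelfAdjoint.star_eq, (hpr k).isIdempotentElem.eq, hk]
  have hletter : ∀ k (c : ℂ × ℂ) x, ω (x * e k c) = ω x * ω (e k c) := by
    intro k c x
    have h1 : e k c = c.2 • (1 : A) + (c.1 - c.2) • e k (1, 0) := by
      conv_lhs => rw [dec c]
      rw [map_add, map_smul, map_smul, map_one]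
    rw [h1, mul_add, mul_smul_comm, mul_smul_comm, mul_one, map_add, map_smul, map_smul, hz,
      map_add, map_smul, map_smul, hω.map_one, hk]
    simp only [smul_eq_mul]
    ring
  let S : Subalgebra ℂ A :=
    { carrier := {y | ∀ x, ω (x * y) = ω x * ω y}
      mul_mem' := by
        intro a b ha hb x
        rw [← mul_assoc, hb, ha, hb]
        ring
      one_mem' := by
        intro x
        rw [mul_one, hω.map_one, mul_one]
      add_mem' := by
        intro a b ha hb x
        rw [mul_add, map_add, ha, hb, map_add]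
        ring
      zero_mem' := by
        intro x
        rw [mul_zero, map_zero, mul_zero]
      algebraMap_mem' := by
        intro r x
        rw [Algebra.algebraMap_eq_smul_one, mul_smul_comm, mul_one, map_smul, map_smul,
          hω.map_one]
        simp only [smul_eq_mul]
        ring }
  have hS : ∀ y ∈ StarAlgebra.adjoin ℂ (⋃ j, Set.range (e j)), y ∈ S := by
    intro y hy
    have h1 : (StarAlgebra.adjoin ℂ (⋃ j, Set.range (e j))).toSubalgebra ≤ S := by
      rw [StarAlgebra.adjoin_toSubalgebra]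
      refine Algebra.adjoin_le ?_
      rintro z (hz | hz)
      · obtain ⟨j, c, rfl⟩ := Set.mem_iUnion.1 hz
        exact hletter j c
      · obtain ⟨j, c, hc⟩ := Set.mem_iUnion.1 hz
        have : z = e j (star c) := by
          rw [map_star, hc, star_star]
        rw [this]
        exact hletter j _
    exact h1 hy
  intro x y
  have hclosed : IsClosed {y : A | ω (x * y) = ω x * ω y} :=
    isClosed_eq (ω.continuous.comp (continuous_const.mul continuous_id))
      (continuous_const.mul ω.continuous)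
  have hy : y ∈ closure ((StarAlgebra.adjoin ℂ (⋃ j, Set.range (e j)) : StarSubalgebra ℂ A)
      : Set A) := by
    have h1 : y ∈ (StarAlgebra.adjoin ℂ (⋃ j, Set.range (e j))).topologicalClosure := by
      rw [h.gen]; trivial
    exact h1
  exact closure_minimal (fun y hy => hS y hy x) hclosed hy

/-- the unitaries `x ↦ exp (2 π i k x)` -/
def un (k : ℕ) : C(unitInterval, ℂ) :=
  ⟨fun x => Complex.exp (2 * Real.pi * k * (x : ℝ) * Complex.I), by fun_prop⟩

theorem star_un_mul (k : ℕ) : star (un k) * un k = 1 := by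
  ext x
  simp only [ContinuousMap.mul_apply, ContinuousMap.star_apply, un, ContinuousMap.coe_mk,
    ContinuousMap.one_apply]
  rw [Complex.star_def, ← Complex.exp_conj, ← Complex.exp_add]
  simp [Complex.conj_ofNat]

theorem un_orth (k l : ℕ) (hkl : k ≠ l) : leb (star (un k) * un l) = 0 := by
  rw [leb_apply]
  have h1 : ∀ x : unitInterval, (star (un k) * un l) x =
      (fun x : ℝ => Complex.exp ((2 * Real.pi * ((l : ℂ) - k) * Complex.I) * (x : ℝ))) (x : ℝ) := by
    intro x
    simp only [ContinuousMap.mul_apply, ContinuousMap.star_apply, un, ContinuousMap.coe_mk]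
    rw [Complex.star_def, ← Complex.exp_conj, ← Complex.exp_add]
    congr 1
    simp [Complex.conj_ofNat]
    ring
  simp only [h1]
  have h2 : ∫ x : unitInterval, (fun x : ℝ =>
      Complex.exp ((2 * Real.pi * ((l : ℂ) - k) * Complex.I) * (x : ℝ))) (x : ℝ) =
      ∫ x in Set.Icc (0 : ℝ) 1,
        Complex.exp ((2 * Real.pi * ((l : ℂ) - k) * Complex.I) * (x : ℝ)) :=
    integral_subtype measurableSet_Icc
      (fun x : ℝ => Complex.exp ((2 * Real.pi * ((l : ℂ) - k) * Complex.I) * (x : ℝ)))
  rw [h2, integral_Icc_eq_integral_Ioc, ← intervalIntegral.integral_of_le zero_le_one]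
  have hne : (2 * Real.pi * ((l : ℂ) - k) * Complex.I) ≠ 0 := by
    have h3 : (l : ℂ) - k ≠ 0 := by
      intro h
      have : (l : ℂ) = k := sub_eq_zero.1 h
      exact hkl (by exact_mod_cast this.symm)
    have h4 : (Real.pi : ℂ) ≠ 0 := by exact_mod_cast Real.pi_ne_zero
    exact mul_ne_zero (mul_ne_zero (mul_ne_zero two_ne_zero h4) h3) Complex.I_ne_zero
  rw [integral_exp_mul_complex hne]
  have h5 : Complex.exp ((2 * Real.pi * ((l : ℂ) - k) * Complex.I) * ((1 : ℝ) : ℂ)) = 1 := by
    have := Complex.exp_int_mul_two_pi_mul_I ((l : ℤ) - k)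
    rw [← this]
    congr 1
    push_cast
    ring
  rw [h5]
  simp

/-- No character on `C([0,1]) *_r A` when `A` has a projection of trace strictly between zero and
one. -/
theorem no_char {E : Type} [CStarAlgebra E] {φ : A →L[ℂ] ℂ} (hφ : IsState φ)
    {τ : E →L[ℂ] ℂ} {i : C(unitInterval, ℂ) →⋆ₐ[ℂ] E} {k : A →⋆ₐ[ℂ] E}
    (h : IsRedFreeProd₂ leb φ τ i k) {p : A} (hp : p * p = p) (h0 : φ p ≠ 0) (h1 : φ p ≠ 1)
    {ψ : E →L[ℂ] ℂ} (hψ : IsState ψ) (hmul : ∀ x y, ψ (x * y) = ψ x * ψ y) : False := by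
  have hfam := h.toFam
  have hst : ∀ j, IsState (Ft (B := A) leb φ j) := by
    rintro (_ | _)
    · exact hφ
    · exact leb_state
  have key := char_centred hfam hst (j0 := false) (j1 := true) (by decide) (fun k => un k)
    (fun k => star_un_mul k) (fun k l hkl => un_orth k l hkl) hψ hmul
    (a := (p - (φ p) • (1 : A) : A)) (by
      change φ (p - φ p • (1 : A)) = 0
      rw [map_sub, map_smul, hφ.map_one]
      simp)
  have key' : ψ (k (p - φ p • (1 : A))) = 0 := key
  rw [map_sub, map_smul, map_one, map_sub, map_smul, hψ.map_one] at key'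
  simp only [smul_eq_mul, mul_one] at key'
  have h2 : ψ (k p) = φ p := sub_eq_zero.1 key'
  have h3 : ψ (k p) * ψ (k p) = ψ (k p) := by
    rw [← hmul, ← map_mul, hp]
  rw [h2] at h3
  have h4 : φ p * (φ p - 1) = 0 := by rw [mul_sub, h3, mul_one, sub_self]
  rcases mul_eq_zero.1 h4 with h5 | h5
  · exact h0 h5
  · exact h1 (sub_eq_zero.1 h5)

/-- transport of multiplicative states -/
theorem transport {E : Type} [CStarAlgebra E] (θ : A ≃⋆ₐ[ℂ] E) {ω : A →L[ℂ] ℂ}
    (hω : IsState ω) (hmul : ∀ x y, ω (x * y) = ω x * ω y) :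
    ∃ ψ : E →L[ℂ] ℂ, IsState ψ ∧ ∀ x y, ψ (x * y) = ψ x * ψ y := by
  have hnorm : ∀ x, ‖θ.symm x‖ ≤ ‖x‖ := fun x =>
    NonUnitalStarAlgHom.norm_apply_le (θ.symm : E →⋆ₐ[ℂ] A) x
  let ψ : E →L[ℂ] ℂ := LinearMap.mkContinuous
    { toFun := fun x => ω (θ.symm x)
      map_add' := fun x y => by rw [map_add, map_add]
      map_smul' := fun r x => by rw [map_smul, map_smul]; rfl } 1 (fun x => by
        rw [one_mul]
        refine (ω.le_opNorm _).trans ?_
        rw [hω.norm_eq, one_mul]
        exact hnorm x)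
  have hψ : ∀ x, ψ x = ω (θ.symm x) := fun x => rfl
  have h1 : ψ 1 = 1 := by rw [hψ, map_one, hω.map_one]
  have hnt : Nontrivial E := by
    by_contra hn
    rw [not_nontrivial_iff_subsingleton] at hn
    rw [Subsingleton.elim (1 : E) 0, map_zero] at h1
    exact zero_ne_one h1
  refine ⟨ψ, isState_of_pos (fun x => ?_) h1, fun x y => ?_⟩
  · rw [hψ, map_mul, map_star]
    exact hω.nonneg _
  · rw [hψ, hψ, hψ, map_mul, hmul]

end main

end Pool.Agent.X190.Absorb
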