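import Mathlib
import Pool.Agent.W658.Cone

/-!
# The unitised cone over the Cuntz algebra is stably finite
-/

set_option autoImplicit false

open scoped InnerProductSpace CStarAlgebra ComplexOrder Matrix
open Filter Topology

namespace Pool.Agent.X190.ConeSF

open Pool.Agent.W658.Cone Pool.Agent.W658.TypeI

theorem ev_one (t : unitInterval) : ev t (1 : CA) = 1 := rfl

/-- evaluation as a ring homomorphism -/
noncomputable def evr (t : unitInterval) : CA →+* BH where
  toFun := ev t
  map_one' := ev_one t
  map_mul' := map_mul (ev t)
  map_zero' := map_zero (ev t)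
  map_add' := map_add (ev t)

theorem evr_star (t : unitInterval) (f : CA) : evr t (star f) = star (evr t f) := map_star (ev t) f

noncomputable local instance : PartialOrder BH := CStarAlgebra.spectralOrder BH
noncomputable local instance : StarOrderedRing BH := CStarAlgebra.spectralOrderedRing BH

instance : Nontrivial BH := by
  refine ⟨⟨1, 0, fun h => ?_⟩⟩
  have h1 : (1 : BH) xi = (0 : BH) xi := by rw [h]
  have h2 : xi = 0 := by simpa using h1
  have := norm_xi
  rw [h2, norm_zero] at this
  exact zero_ne_one this

/-- the scalar part at zero -/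
theorem scal (f : CA) : ∃ c : ℂ, ev 0 f = c • (1 : BH) := f.2.2

theorem smul_one_inj {c d : ℂ} (h : c • (1 : BH) = d • (1 : BH)) : c = d := by
  have h1 : (c - d) • (1 : BH) = 0 := by rw [sub_smul, h, sub_self]
  rcases smul_eq_zero.1 h1 with h2 | h2
  · exact sub_eq_zero.1 h2
  · exact absurd h2 one_ne_zero

theorem norm_proj {A : Type} [NonUnitalCStarAlgebra A] (q : A) (h1 : star q = q) (h2 : q * q = q) :
    ‖q‖ = 0 ∨ ‖q‖ = 1 := by
  have h : ‖q‖ = ‖q‖ * ‖q‖ := by
    rw [← CStarRing.norm_star_mul_self (x := q), h1, h2]
  by_cases h0 : ‖q‖ = 0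
  · exact Or.inl h0
  · right
    have := mul_left_cancel₀ h0 (show ‖q‖ * 1 = ‖q‖ * ‖q‖ by rw [mul_one]; exact h)
    exact this.symm

theorem stablyFinite : IsStablyFinite CA := by
  intro n v hv
  -- the matrices of values
  let V : unitInterval → Matrix (Fin n) (Fin n) BH := fun t => v.map (evr t)
  have hstar : ∀ t, star (V t) = (star v).map (evr t) := by
    intro t
    ext i j
    simp only [V, Matrix.star_apply, Matrix.map_apply]
    rw [evr_star]
  have hV : ∀ t, star (V t) * V t = 1 := by
    intro t
    rw [hstar, ← Matrix.map_mul, hv]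
    simp
  let Q : unitInterval → CStarMatrix (Fin n) (Fin n) BH := fun t =>
    CStarMatrix.ofMatrix (1 - V t * star (V t))
  have hQs : ∀ t, star (Q t) = Q t := by
    intro t
    have : star (1 - V t * star (V t)) = 1 - V t * star (V t) := by
      rw [star_sub, star_one, star_mul, star_star]
    exact congrArg CStarMatrix.ofMatrix this
  have hQQ : ∀ t, Q t * Q t = Q t := by
    intro t
    have : (1 - V t * star (V t)) * (1 - V t * star (V t)) = 1 - V t * star (V t) := by
      have h : V t * star (V t) * (V t * star (V t)) = V t * star (V t) := by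
        rw [mul_assoc, ← mul_assoc (star (V t)), hV, one_mul]
      rw [sub_mul, mul_sub, mul_sub, one_mul, one_mul, mul_one, h, sub_self, sub_zero]
    exact congrArg CStarMatrix.ofMatrix this
  have hcont : Continuous Q := by
    have hVc : Continuous V := by
      refine continuous_pi fun i => continuous_pi fun j => ?_
      exact (v i j : CB).continuous
    have h1 : Continuous (fun t => 1 - V t * star (V t)) := by
      refine continuous_const.sub (hVc.mul ?_)
      refine continuous_pi fun i => continuous_pi fun j => ?_
      exact continuous_star.comp (v j i : CB).continuous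
    exact h1
  -- at zero
  have hQ0 : Q 0 = 0 := by
    choose c hc using scal
    let M : Matrix (Fin n) (Fin n) ℂ := fun i j => c (v i j)
    have hM : V 0 = M.map (fun z => z • (1 : BH)) := by
      ext1 i j
      exact hc (v i j)
    let sc : ℂ →+* BH := algebraMap ℂ BH
    have hsc : ∀ z, sc z = z • (1 : BH) := fun z => Algebra.algebraMap_eq_smul_one z
    have hM' : V 0 = M.map sc := by
      rw [hM]; ext1 i j; simp only [Matrix.map_apply, hsc]
    have hsM : star (V 0) = (star M).map sc := by
      rw [hM']
      ext1 i j
      simp only [Matrix.star_apply, Matrix.map_apply, hsc, star_smul, star_one]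
    have h1 : star M * M = 1 := by
      have h2 := hV 0
      rw [hsM, hM', ← Matrix.map_mul] at h2
      ext i j
      have h3 := congrFun (congrFun h2 i) j
      simp only [Matrix.map_apply] at h3
      have h4 : sc ((star M * M) i j) = sc ((1 : Matrix (Fin n) (Fin n) ℂ) i j) := by
        rw [h3, Matrix.one_apply, Matrix.one_apply]
        split_ifs <;> simp
      exact sc.injective h4
    have h5 : M * star M = 1 := mul_eq_one_comm.1 h1
    have h6 : V 0 * star (V 0) = 1 := by
      rw [hsM, hM', ← Matrix.map_mul, h5]
      simp
    show CStarMatrix.ofMatrix (1 - V 0 * star (V 0)) = 0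
    rw [h6, sub_self]
    rfl
  have hnorm : ∀ t, ‖Q t‖ = 0 ∨ ‖Q t‖ = 1 := fun t => norm_proj (Q t) (hQs t) (hQQ t)
  have hall : ∀ t, Q t = 0 := by
    intro t
    rcases hnorm t with h | h
    · exact norm_eq_zero.1 h
    · exfalso
      have hpre : IsPreconnected (Set.univ : Set unitInterval) := isPreconnected_univ
      have hc : ContinuousOn (fun t => ‖Q t‖) Set.univ := (continuous_norm.comp hcont).continuousOn
      have hiv := hpre.intermediate_value (Set.mem_univ (0 : unitInterval)) (Set.mem_univ t) hc
      have hmem : (1/2 : ℝ) ∈ Set.Icc ‖Q 0‖ ‖Q t‖ := by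
        rw [h, hQ0, norm_zero]; constructor <;> norm_num
      obtain ⟨s, _, hs⟩ := hiv hmem
      simp only at hs
      rcases hnorm s with h' | h' <;> rw [h'] at hs <;> norm_num at hs
  have hfin : ∀ t, V t * star (V t) = 1 := by
    intro t
    have h := hall t
    have h2 : (1 - V t * star (V t)) = (0 : Matrix (Fin n) (Fin n) BH) := h
    exact (sub_eq_zero.1 h2).symm
  ext1 i j
  apply CA_ext
  intro t
  have h1 := congrFun (congrFun (hfin t) i) j
  rw [hstar, ← Matrix.map_mul] at h1
  simp only [Matrix.map_apply] at h1
  have h2 : evr t ((v * star v) i j) = evr t ((1 : Matrix (Fin n) (Fin n) CA) i j) := by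
    rw [h1, Matrix.one_apply, Matrix.one_apply]
    split_ifs <;> simp
  exact h2

end Pool.Agent.X190.ConeSF
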