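import Mathlib
import Pool.Agent.W658.States

/-!
# An irreducible representation whose kernel is a maximal ideal
(parts adapted from `Pool.Agent.TH496.EI_Irr`)
-/

set_option autoImplicit false

open scoped ComplexOrder InnerProductSpace
open UniformSpace Completion

noncomputable section

namespace Pool.Agent.X190.Irr

open Pool.Agent.W658.Irrep

universe u

variable {C : Type u} [CStarAlgebra C]

/-- the union of a chain of ideals -/
def chainUnion (c : Set (TwoSidedIdeal C)) (hc : IsChain (· ≤ ·) c) (hne : c.Nonempty) :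
    TwoSidedIdeal C :=
  TwoSidedIdeal.mk' {x | ∃ I ∈ c, x ∈ I}
    (by obtain ⟨I, hI⟩ := hne; exact ⟨I, hI, I.zero_mem⟩)
    (by
      rintro x y ⟨I, hI, hx⟩ ⟨J, hJ, hy⟩
      rcases hc.total hI hJ with h | h
      · exact ⟨J, hJ, J.add_mem (h hx) hy⟩
      · exact ⟨I, hI, I.add_mem hx (h hy)⟩)
    (by rintro x ⟨I, hI, hx⟩; exact ⟨I, hI, I.neg_mem hx⟩)
    (by rintro x y ⟨I, hI, hx⟩; exact ⟨I, hI, I.mul_mem_left _ _ hx⟩)
    (by rintro x y ⟨I, hI, hx⟩; exact ⟨I, hI, I.mul_mem_right _ _ hx⟩)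

theorem mem_chainUnion {c : Set (TwoSidedIdeal C)} {hc : IsChain (· ≤ ·) c} {hne : c.Nonempty}
    {x : C} : x ∈ chainUnion c hc hne ↔ ∃ I ∈ c, x ∈ I := TwoSidedIdeal.mem_mk' _ _ _ _ _ _ _

variable (C) in
theorem exists_maximal [Nontrivial C] : ∃ J : TwoSidedIdeal C, (1 : C) ∉ J ∧
    ∀ I : TwoSidedIdeal C, J ≤ I → (1 : C) ∉ I → I = J := by
  obtain ⟨J, hJ⟩ := zorn_le₀ {J : TwoSidedIdeal C | (1 : C) ∉ J} (by
    intro c hc hchain
    by_cases hne : c.Nonempty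
    · refine ⟨chainUnion c hchain hne, ?_, ?_⟩
      · intro h
        obtain ⟨I, hI, h1⟩ := mem_chainUnion.1 h
        exact hc hI h1
      · intro I hI x hx
        exact mem_chainUnion.2 ⟨I, hI, hx⟩
    · refine ⟨⊥, ?_, ?_⟩
      · intro h
        have : (1 : C) = 0 := by simpa using h
        exact one_ne_zero this
      · intro I hI
        exact absurd ⟨I, hI⟩ hne)
  refine ⟨J, hJ.prop, fun I hI h1 => ?_⟩
  exact le_antisymm (hJ.le_of_ge h1 hI) hI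

/-- a two-sided ideal as a subspace -/
def sub (J : TwoSidedIdeal C) : Submodule ℂ C where
  carrier := {x | x ∈ J}
  add_mem' := fun hx hy => J.add_mem hx hy
  zero_mem' := J.zero_mem
  smul_mem' := by
    intro r x hx
    have : r • x = (r • (1 : C)) * x := by rw [smul_mul_assoc, one_mul]
    change r • x ∈ J
    rw [this]; exact J.mul_mem_left _ _ hx

theorem dist_one {J : TwoSidedIdeal C} (h1 : (1 : C) ∉ J) {x : C} (hx : x ∈ J) : 1 ≤ ‖1 - x‖ := by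
  by_contra hlt
  push Not at hlt
  have hu : IsUnit x := by
    have := isUnit_one_sub_of_norm_lt_one hlt
    simpa using this
  obtain ⟨u, rfl⟩ := hu
  apply h1
  have h2 : (1 : C) = (↑u⁻¹ : C) * (u : C) := by simp
  rw [h2]; exact J.mul_mem_left _ _ hx

/-- the states vanishing on `J` -/
def St (J : TwoSidedIdeal C) : Set (C → ℂ) :=
  {f | (∀ a b, f (a + b) = f a + f b) ∧ (∀ (c : ℂ) a, f (c • a) = c * f a) ∧
    (∀ a, 0 ≤ f (star a * a)) ∧ f 1 = 1 ∧ (∀ a, ‖f a‖ ≤ ‖a‖) ∧ ∀ a ∈ J, f a = 0}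

lemma St_nonempty [Nontrivial C] (J : TwoSidedIdeal C) (h1 : (1 : C) ∉ J) : (St J).Nonempty := by
  -- the closure of the ideal
  let p : Submodule ℂ C := (sub J).topologicalClosure
  have hp : IsClosed (p : Set C) := (sub J).isClosed_topologicalClosure
  have hd : ∀ x ∈ p, 1 ≤ ‖1 - x‖ := by
    intro x hx
    have hcl : IsClosed {x : C | 1 ≤ ‖1 - x‖} := isClosed_le continuous_const (by fun_prop)
    have : closure ((sub J : Submodule ℂ C) : Set C) ⊆ {x : C | 1 ≤ ‖1 - x‖} :=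
      closure_minimal (fun y hy => dist_one h1 hy) hcl
    exact this hx
  haveI : IsClosed (p : Set C) := hp
  let q : C →L[ℂ] C ⧸ p := p.mkQL
  have hq : ‖q 1‖ = 1 := by
    apply le_antisymm
    · calc ‖q 1‖ ≤ ‖(1 : C)‖ := Submodule.Quotient.norm_mk_le p 1
        _ = 1 := CStarRing.norm_one
    · refine le_of_forall_pos_lt_add fun ε hε => ?_
      obtain ⟨m, hm, hlt⟩ := Submodule.Quotient.norm_mk_lt (S := p) (q 1) hε
      have h3 : 1 - m ∈ p := by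
        rw [← Submodule.Quotient.mk_eq_zero, Submodule.Quotient.mk_sub, hm]
        exact sub_self _
      have h4 := hd (1 - m) h3
      rw [sub_sub_cancel] at h4
      linarith
  obtain ⟨g, hg, hg1⟩ := exists_dual_vector'' ℂ (q 1)
  let l : C →L[ℂ] ℂ := g.comp q
  have hl1 : l 1 = 1 := by
    change g (q 1) = 1
    rw [hg1, hq]; simp
  have hln : ∀ x, ‖l x‖ ≤ ‖x‖ := by
    intro x
    calc ‖g (q x)‖ ≤ ‖g‖ * ‖q x‖ := g.le_opNorm _
      _ ≤ 1 * ‖x‖ := mul_le_mul hg (Submodule.Quotient.norm_mk_le p x) (norm_nonneg _) zero_le_one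
      _ = ‖x‖ := one_mul _
  have hl : ‖l‖ = 1 := by
    apply le_antisymm
    · exact l.opNorm_le_bound zero_le_one fun x => by simpa using hln x
    · have := l.le_opNorm 1
      rw [hl1, norm_one, CStarRing.norm_one, mul_one] at this
      exact this
  refine ⟨l, fun a b => map_add l a b, fun c a => by rw [map_smul, smul_eq_mul],
    fun a => pos_of_norm l hl hl1 a, hl1, hln, fun a ha => ?_⟩
  have : q a = 0 := (Submodule.Quotient.mk_eq_zero p).2 ((sub J).le_topologicalClosure ha)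
  change g (q a) = 0
  rw [this, map_zero]

lemma St_compact (J : TwoSidedIdeal C) : IsCompact (St J) := by
  have h1 : IsCompact (Set.pi Set.univ (fun a : C => Metric.closedBall (0 : ℂ) ‖a‖)) :=
    isCompact_univ_pi fun a => isCompact_closedBall _ _
  refine h1.of_isClosed_subset ?_ ?_
  · have h : St J = {f : C → ℂ | ∀ a b, f (a + b) = f a + f b} ∩
        {f : C → ℂ | ∀ (c : ℂ) a, f (c • a) = c * f a} ∩
        {f : C → ℂ | ∀ a, 0 ≤ f (star a * a)} ∩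
        {f : C → ℂ | f 1 = 1} ∩ {f : C → ℂ | ∀ a, ‖f a‖ ≤ ‖a‖} ∩
        {f : C → ℂ | ∀ a, a ∈ J → f a = 0} := by
      ext f
      constructor
      · rintro ⟨h1, h2, h3, h4, h5, h6⟩
        exact ⟨⟨⟨⟨⟨h1, h2⟩, h3⟩, h4⟩, h5⟩, h6⟩
      · rintro ⟨⟨⟨⟨⟨h1, h2⟩, h3⟩, h4⟩, h5⟩, h6⟩
        exact ⟨h1, h2, h3, h4, h5, h6⟩
    rw [h]
    have hev : ∀ a : C, Continuous (fun f : C → ℂ => f a) := fun a => continuous_apply a
    refine IsClosed.inter (IsClosed.inter (IsClosed.inter (IsClosed.inter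
      (IsClosed.inter ?_ ?_) ?_) ?_) ?_) ?_
    · simp only [Set.ofPred_forall]
      exact isClosed_iInter fun a => isClosed_iInter fun b =>
        isClosed_eq (hev _) ((hev a).add (hev b))
    · simp only [Set.ofPred_forall]
      exact isClosed_iInter fun c => isClosed_iInter fun a =>
        isClosed_eq (hev _) (continuous_const.mul (hev a))
    · simp only [Set.ofPred_forall]
      exact isClosed_iInter fun a => isClosed_Ici.preimage (hev (star a * a))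
    · exact isClosed_eq (hev _) continuous_const
    · simp only [Set.ofPred_forall]
      exact isClosed_iInter fun a => isClosed_le (hev a).norm continuous_const
    · simp only [Set.ofPred_forall]
      exact isClosed_iInter fun a => isClosed_iInter fun _ => isClosed_eq (hev a) continuous_const
  · intro f hf a _
    rw [mem_closedBall_zero_iff]
    exact hf.2.2.2.2.1 a

/-- GNS representation of an extreme point of `St J` -/
theorem exists_rep [Nontrivial C] (J : TwoSidedIdeal C) (h1 : (1 : C) ∉ J) :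
    ∃ (K : Type u) (_ : NormedAddCommGroup K)
    (_ : InnerProductSpace ℂ K) (_ : CompleteSpace K) (ρ : C →⋆ₙₐ[ℂ] (K →L[ℂ] K)) (ξ : K)
    (φ : C → ℂ), φ ∈ Set.extremePoints ℝ (St J) ∧ ρ 1 = 1 ∧ ‖ξ‖ = 1 ∧
    (∀ x y : K, (∀ a : C, ⟪x, ρ a ξ⟫_ℂ = ⟪y, ρ a ξ⟫_ℂ) → x = y) ∧
    (∀ a, φ a = ⟪ξ, ρ a ξ⟫_ℂ) := by
  obtain ⟨φ, hφ⟩ := (St_compact J).extremePoints_nonempty (St_nonempty J h1)
  obtain ⟨⟨hadd, hsm, hpos, hone, hn, hY⟩, hext⟩ := mem_extremePoints.mp hφ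
  let _ := CStarAlgebra.spectralOrder C
  have _ := CStarAlgebra.spectralOrderedRing C
  let f : C →ₚ[ℂ] ℂ := PositiveLinearMap.mk₀
    ({ toFun := φ, map_add' := hadd, map_smul' := fun c a => hsm c a } : C →ₗ[ℂ] ℂ) (by
      intro x hx
      obtain ⟨y, rfl⟩ := CStarAlgebra.nonneg_iff_eq_star_mul_self.1 hx
      exact hpos y)
  have hf : ∀ x, f x = φ x := fun x => rfl
  let ρ : C →⋆ₙₐ[ℂ] (f.GNS →L[ℂ] f.GNS) := f.gnsNonUnitalStarAlgHom
  let ξ : f.GNS := (f.toPreGNS (1 : C) : f.GNS)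
  have hρ : ∀ a b : C, ρ a (f.toPreGNS b : f.GNS) = (f.toPreGNS (a * b) : f.GNS) := by
    intro a b
    show f.gnsNonUnitalStarAlgHom a (f.toPreGNS b : f.GNS) = _
    rw [PositiveLinearMap.gnsNonUnitalStarAlgHom_apply_coe]
    rfl
  have hin : ∀ a b : C, ⟪(f.toPreGNS a : f.GNS), (f.toPreGNS b : f.GNS)⟫_ℂ = φ (star a * b) := by
    intro a b
    rw [UniformSpace.Completion.inner_coe, PositiveLinearMap.preGNS_inner_def]
    rfl
  have hρξ : ∀ a, ρ a ξ = (f.toPreGNS a : f.GNS) := by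
    intro a
    rw [hρ, mul_one]
  have hdense : ∀ x y : f.GNS, (∀ a : C, ⟪x, ρ a ξ⟫_ℂ = ⟪y, ρ a ξ⟫_ℂ) → x = y := by
    intro x y h
    have h2 : ∀ z : f.GNS, ⟪x, z⟫_ℂ = ⟪y, z⟫_ℂ := by
      intro z
      induction z using UniformSpace.Completion.induction_on with
      | hp => exact isClosed_eq (by fun_prop) (by fun_prop)
      | ih z =>
        have := h (f.ofPreGNS z)
        rw [hρξ] at this
        exact this
    exact ext_inner_right ℂ h2
  have hρ1 : ρ 1 = 1 := by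
    ext z
    induction z using UniformSpace.Completion.induction_on with
    | hp => exact isClosed_eq (by fun_prop) (by fun_prop)
    | ih z =>
      have := hρ 1 (f.ofPreGNS z)
      rw [one_mul] at this
      exact this
  have hξ : ‖ξ‖ = 1 := by
    have h2 := hin 1 1
    rw [star_one, one_mul, hone] at h2
    have h3 : ⟪ξ, ξ⟫_ℂ = 1 := h2
    rw [inner_self_eq_norm_sq_to_K] at h3
    have h4 : ((‖ξ‖ ^ 2 : ℝ) : ℂ) = ((1 : ℝ) : ℂ) := by
      push_cast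
      exact h3
    have h5 : ‖ξ‖ ^ 2 = 1 := Complex.ofReal_injective h4
    nlinarith [norm_nonneg ξ]
  have hφξ : ∀ a, φ a = ⟪ξ, ρ a ξ⟫_ℂ := by
    intro a
    rw [hρξ, hin, star_one, one_mul]
  exact ⟨f.GNS, inferInstance, inferInstance, inferInstance, ρ, ξ, φ, hφ, hρ1, hξ, hdense, hφξ⟩

/-- vector functional of a vector `P ξ` where `P` commutes with the representation -/
theorem key {K : Type u} [NormedAddCommGroup K] [InnerProductSpace ℂ K] [CompleteSpace K]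
    (ρ : C →⋆ₙₐ[ℂ] (K →L[ℂ] K)) (hρ1 : ρ 1 = 1) (J : TwoSidedIdeal C)
    (hJ : ∀ a ∈ J, ρ a = 0) (η : K) (hη : η ≠ 0) :
    (fun a => ((‖η‖ ^ 2 : ℝ) : ℂ)⁻¹ * ⟪η, ρ a η⟫_ℂ) ∈ St J := by
  have hn : 0 < ‖η‖ ^ 2 := by positivity
  have e1 : ∀ a b, (fun a => ((‖η‖ ^ 2 : ℝ) : ℂ)⁻¹ * ⟪η, ρ a η⟫_ℂ) (a + b) =
      (fun a => ((‖η‖ ^ 2 : ℝ) : ℂ)⁻¹ * ⟪η, ρ a η⟫_ℂ) a +
        (fun a => ((‖η‖ ^ 2 : ℝ) : ℂ)⁻¹ * ⟪η, ρ a η⟫_ℂ) b := by
    intro a b
    simp only [map_add, add_apply, inner_add_right, mul_add]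
  have e2 : ∀ (c : ℂ) a, (fun a => ((‖η‖ ^ 2 : ℝ) : ℂ)⁻¹ * ⟪η, ρ a η⟫_ℂ) (c • a) =
      c * (fun a => ((‖η‖ ^ 2 : ℝ) : ℂ)⁻¹ * ⟪η, ρ a η⟫_ℂ) a := by
    intro c a
    simp only [map_smul, smul_apply, inner_smul_right]
    ring
  have e3 : ∀ a, 0 ≤ (fun a => ((‖η‖ ^ 2 : ℝ) : ℂ)⁻¹ * ⟪η, ρ a η⟫_ℂ) (star a * a) := by
    intro a
    simp only
    rw [map_mul, map_star, ContinuousLinearMap.star_eq_adjoint,
      mul_apply_eq_comp, ContinuousLinearMap.adjoint_inner_right, inner_self_eq_norm_sq_to_K]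
    norm_cast
    positivity
  have e4 : (fun a => ((‖η‖ ^ 2 : ℝ) : ℂ)⁻¹ * ⟪η, ρ a η⟫_ℂ) 1 = 1 := by
    simp only
    rw [hρ1, one_apply_eq_self, inner_self_eq_norm_sq_to_K]
    push_cast
    exact inv_mul_cancel₀ (by exact_mod_cast hn.ne')
  refine ⟨e1, e2, e3, e4, norm_bound _ e1 e2 e3 e4, fun a ha => ?_⟩
  simp only [hJ a ha, zero_apply, inner_zero_right, mul_zero]

theorem irreducible_of_extreme [Nontrivial C] {K : Type u} [NormedAddCommGroup K]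
    [InnerProductSpace ℂ K] [CompleteSpace K] (ρ : C →⋆ₙₐ[ℂ] (K →L[ℂ] K)) (ξ : K)
    (J : TwoSidedIdeal C) (φ : C → ℂ) (hφ : φ ∈ Set.extremePoints ℝ (St J)) (hρ1 : ρ 1 = 1)
    (hξ : ‖ξ‖ = 1)
    (hd : ∀ x y : K, (∀ a : C, ⟪x, ρ a ξ⟫_ℂ = ⟪y, ρ a ξ⟫_ℂ) → x = y)
    (hφξ : ∀ a, φ a = ⟪ξ, ρ a ξ⟫_ℂ) (hJ : ∀ a ∈ J, ρ a = 0) (U : Submodule ℂ K)
    (hU : IsClosed (U : Set K)) (hinv : ∀ b, ∀ x ∈ U, ρ b x ∈ U) : U = ⊥ ∨ U = ⊤ := by
  haveI : CompleteSpace U := hU.completeSpace_coe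
  -- the decomposition of the cyclic vector
  obtain ⟨η, hηU, ζ, hζU, hsum⟩ := Submodule.exists_add_mem_mem_orthogonal (K := U) ξ
  have hperp : ∀ b, ∀ z ∈ Uᗮ, ρ b z ∈ Uᗮ := by
    intro b z hz
    rw [Submodule.mem_orthogonal]
    intro u hu
    have h1 : ⟪u, ρ b z⟫_ℂ = ⟪ρ (star b) u, z⟫_ℂ := by
      rw [map_star, ContinuousLinearMap.star_eq_adjoint, ContinuousLinearMap.adjoint_inner_left]
    rw [h1]
    exact (Submodule.mem_orthogonal U z).1 hz _ (hinv _ _ hu)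
  have hperp' : ∀ u ∈ U, ∀ z ∈ Uᗮ, ⟪u, z⟫_ℂ = 0 := fun u hu z hz =>
    (Submodule.mem_orthogonal U z).1 hz u hu
  have hperp'' : ∀ u ∈ U, ∀ z ∈ Uᗮ, ⟪z, u⟫_ℂ = 0 := fun u hu z hz =>
    (Submodule.mem_orthogonal' U z).1 hz u hu
  by_cases hη : η = 0
  · left
    rw [Submodule.eq_bot_iff]
    intro u hu
    apply hd
    intro a
    rw [inner_zero_left, hsum, hη, zero_add]
    exact hperp' u hu _ (hperp a ζ hζU)
  by_cases hζ : ζ = 0
  · right
    rw [Submodule.eq_top_iff']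
    intro x
    obtain ⟨u, hu, z, hz, hx⟩ := Submodule.exists_add_mem_mem_orthogonal (K := U) x
    have : z = 0 := by
      apply hd
      intro a
      rw [inner_zero_left, hsum, hζ, add_zero]
      exact hperp'' _ (hinv a η hηU) z hz
    rw [hx, this, add_zero]; exact hu
  exfalso
  have hnorm : ‖η‖ ^ 2 + ‖ζ‖ ^ 2 = 1 := by
    have h2 : ⟪ξ, ξ⟫_ℂ = ⟪η, η⟫_ℂ + ⟪ζ, ζ⟫_ℂ := by
      conv_lhs => rw [hsum]
      rw [inner_add_left, inner_add_right, inner_add_right, hperp' η hηU ζ hζU,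
        hperp'' η hηU ζ hζU]
      ring
    rw [inner_self_eq_norm_sq_to_K, inner_self_eq_norm_sq_to_K, inner_self_eq_norm_sq_to_K, hξ] at h2
    have h3 : ((1 : ℝ) : ℂ) = ((‖η‖ ^ 2 + ‖ζ‖ ^ 2 : ℝ) : ℂ) := by
      push_cast
      simpa using h2
    exact (Complex.ofReal_injective h3).symm
  have p1 : 0 < ‖η‖ ^ 2 := by positivity
  have p2 : 0 < ‖ζ‖ ^ 2 := by positivity
  have c1 : ((‖η‖ ^ 2 : ℝ) : ℂ) ≠ 0 := by exact_mod_cast p1.ne'
  have c2 : ((‖ζ‖ ^ 2 : ℝ) : ℂ) ≠ 0 := by exact_mod_cast p2.ne'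
  have hdec : ∀ a, φ a = ⟪η, ρ a η⟫_ℂ + ⟪ζ, ρ a ζ⟫_ℂ := by
    intro a
    rw [hφξ]
    conv_lhs => rw [hsum]
    rw [map_add, inner_add_left, inner_add_right, inner_add_right,
      hperp' η hηU _ (hperp a ζ hζU), hperp'' _ (hinv a η hηU) ζ hζU]
    ring
  have hseg : φ ∈ openSegment ℝ (fun a => ((‖η‖ ^ 2 : ℝ) : ℂ)⁻¹ * ⟪η, ρ a η⟫_ℂ)
      (fun a => ((‖ζ‖ ^ 2 : ℝ) : ℂ)⁻¹ * ⟪ζ, ρ a ζ⟫_ℂ) := by
    refine ⟨‖η‖ ^ 2, ‖ζ‖ ^ 2, p1, p2, hnorm, ?_⟩
    funext a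
    rw [hdec a]
    simp only [Pi.add_apply, Pi.smul_apply, Complex.real_smul]
    rw [mul_inv_cancel_left₀ c1, mul_inv_cancel_left₀ c2]
  obtain ⟨_, hext⟩ := mem_extremePoints.mp hφ
  have h6 := (hext _ (key ρ hρ1 J hJ η hη) _ (key ρ hρ1 J hJ ζ hζ) hseg).1
  -- hence `η = ‖η‖^2 ξ`
  have h7 : η = ((‖η‖ ^ 2 : ℝ) : ℂ) • ξ := by
    apply hd
    intro a
    have h8 := congrFun h6 a
    rw [inner_smul_left, Complex.conj_ofReal, ← hφξ, ← h8, mul_inv_cancel_left₀ c1]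
    conv_lhs => rw [hsum]
    rw [map_add, inner_add_right, hperp' η hηU _ (hperp a ζ hζU), add_zero]
  have h9 : ⟪ζ, η⟫_ℂ = 0 := hperp'' η hηU ζ hζU
  rw [h7, inner_smul_right] at h9
  have h10 : ⟪ζ, ξ⟫_ℂ = 0 := (mul_eq_zero.1 h9).resolve_left c1
  rw [hsum, inner_add_right, hperp'' η hηU ζ hζU, zero_add, inner_self_eq_zero] at h10
  exact hζ h10

variable (C) in
/-- every nonzero unital C*-algebra has an irreducible representation whose kernel is a maximal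
two-sided ideal -/
theorem exists_irr [Nontrivial C] : ∃ (K : Type u) (_ : NormedAddCommGroup K)
    (_ : InnerProductSpace ℂ K) (_ : CompleteSpace K) (ρ : C →⋆ₙₐ[ℂ] (K →L[ℂ] K)),
    ρ 1 = 1 ∧ Nontrivial K ∧
    (∀ U : Submodule ℂ K, IsClosed (U : Set K) → (∀ b, ∀ x ∈ U, ρ b x ∈ U) → U = ⊥ ∨ U = ⊤) ∧
    ∀ I : TwoSidedIdeal C, (∀ x, ρ x = 0 → x ∈ I) → (∃ x ∈ I, ρ x ≠ 0) → (1 : C) ∈ I := by
  obtain ⟨J, hJ1, hJm⟩ := exists_maximal C
  obtain ⟨K, _, _, _, ρ, ξ, φ, hφ, hρ1, hξ, hd, hφξ⟩ := exists_rep J hJ1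
  have hJ : ∀ a ∈ J, ρ a = 0 := by
    intro a ha
    have hφJ : ∀ b ∈ J, φ b = 0 := (mem_extremePoints.mp hφ).1.2.2.2.2.2
    have h1 : ∀ b, ρ a (ρ b ξ) = 0 := by
      intro b
      apply hd
      intro c
      rw [inner_zero_left]
      have h2 : ⟪ρ a (ρ b ξ), ρ c ξ⟫_ℂ = ⟪ξ, ρ (star (a * b) * c) ξ⟫_ℂ := by
        rw [map_mul, map_star, mul_apply_eq_comp, ContinuousLinearMap.star_eq_adjoint,
          ContinuousLinearMap.adjoint_inner_right, map_mul, mul_apply_eq_comp]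
      have h3 : ⟪ρ c ξ, ρ a (ρ b ξ)⟫_ℂ = 0 := by
        have h4 : ⟪ρ c ξ, ρ a (ρ b ξ)⟫_ℂ = ⟪ξ, ρ (star c * (a * b)) ξ⟫_ℂ := by
          rw [map_mul, map_star, mul_apply_eq_comp, ContinuousLinearMap.star_eq_adjoint,
            ContinuousLinearMap.adjoint_inner_right, map_mul, mul_apply_eq_comp]
        rw [h4, ← hφξ]
        exact hφJ _ (J.mul_mem_left _ _ (J.mul_mem_right _ _ ha))
      rw [← inner_conj_symm, h3, map_zero]
    ext z
    rw [zero_apply]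
    -- the adjoint kills everything
    have h5 : ∀ x : K, ρ (star a) x = 0 := by
      intro x
      apply hd
      intro b
      rw [inner_zero_left]
      have : ⟪ρ (star a) x, ρ b ξ⟫_ℂ = ⟪x, ρ a (ρ b ξ)⟫_ℂ := by
        rw [map_star, ContinuousLinearMap.star_eq_adjoint, ContinuousLinearMap.adjoint_inner_left]
      rw [this, h1, inner_zero_right]
    have h6 : ρ (star a) = 0 := by ext x; exact h5 x
    have h7 : ρ a = 0 := by
      rw [← star_star a, map_star, h6, star_zero]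
    rw [h7]; rfl
  refine ⟨K, inferInstance, inferInstance, inferInstance, ρ, hρ1, ?_, ?_, ?_⟩
  · refine ⟨⟨ξ, 0, ?_⟩⟩
    intro h
    rw [h, norm_zero] at hξ
    exact zero_ne_one hξ
  · intro U hU hinv
    exact irreducible_of_extreme ρ ξ J φ hφ hρ1 hξ hd hφξ hJ U hU hinv
  · intro I hI hex
    by_contra h1
    have hle : J ≤ I := fun x hx => hI x (hJ x hx)
    have := hJm I hle h1
    obtain ⟨x, hx, hne⟩ := hex
    rw [this] at hx
    exact hne (hJ x hx)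

end Pool.Agent.X190.Irr
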