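import Mathlib
import Pool.Agent.W658.Cone
import Pool.Agent.X190.Irr
import Pool.Agent.X190.ConeSF

/-!
# The unitised cone over the Cuntz algebra is not locally of type I
-/

set_option autoImplicit false

open scoped InnerProductSpace CStarAlgebra ComplexOrder Matrix
open Filter Topology

namespace Pool.Agent.X190.ConeTI

open Pool.Agent.W658.Cone Pool.Agent.W658.TypeI Pool.Agent.X190.Irr Pool.Agent.X190.ConeSF

/-- two almost isometries with almost orthogonal ranges cannot exist in finite dimension -/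
theorem no_finite {K : Type} [NormedAddCommGroup K] [InnerProductSpace ℂ K] [CompleteSpace K]
    [Nontrivial K] [FiniteDimensional ℂ K] (X Y : K →L[ℂ] K)
    (hX : ‖star X * X - 1‖ ≤ 1 / 4) (hY : ‖star Y * Y - 1‖ ≤ 1 / 4) (hXY : ‖star X * Y‖ ≤ 1 / 4) :
    False := by
  obtain ⟨ζ, hζ⟩ := exists_ne (0 : K)
  have hζn : 0 < ‖ζ‖ := norm_pos_iff.2 hζ
  -- lower bounds
  have low : ∀ (Z : K →L[ℂ] K), ‖star Z * Z - 1‖ ≤ 1 / 4 → ∀ η, 3 / 4 * ‖η‖ ≤ ‖star Z (Z η)‖ := by
    intro Z hZ η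
    have h1 : ‖(star Z * Z - 1) η‖ ≤ 1 / 4 * ‖η‖ := (ContinuousLinearMap.le_opNorm _ _).trans
      (mul_le_mul_of_nonneg_right hZ (norm_nonneg _))
    have h2 : (star Z * Z - 1) η = star Z (Z η) - η := rfl
    rw [h2] at h1
    have h3 : ‖η‖ ≤ ‖star Z (Z η)‖ + ‖star Z (Z η) - η‖ := by
      calc ‖η‖ = ‖star Z (Z η) - (star Z (Z η) - η)‖ := by congr 1; abel
        _ ≤ _ := norm_sub_le _ _
    linarith
  have up : ∀ (Z : K →L[ℂ] K), ‖star Z * Z - 1‖ ≤ 1 / 4 → ∀ η, ‖Z η‖ ^ 2 ≤ 5 / 4 * ‖η‖ ^ 2 := by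
    intro Z hZ η
    have h1 : ‖(star Z * Z - 1) η‖ ≤ 1 / 4 * ‖η‖ := (ContinuousLinearMap.le_opNorm _ _).trans
      (mul_le_mul_of_nonneg_right hZ (norm_nonneg _))
    have h2 : (star Z * Z - 1) η = star Z (Z η) - η := rfl
    rw [h2] at h1
    have h3 : ‖star Z (Z η)‖ ≤ 5 / 4 * ‖η‖ := by
      calc ‖star Z (Z η)‖ = ‖(star Z (Z η) - η) + η‖ := by congr 1; abel
        _ ≤ ‖star Z (Z η) - η‖ + ‖η‖ := norm_add_le _ _
        _ ≤ _ := by linarith
    have h4 : ‖Z η‖ ^ 2 = (⟪η, star Z (Z η)⟫_ℂ).re := by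
      rw [ContinuousLinearMap.star_eq_adjoint, ContinuousLinearMap.adjoint_inner_right,
        inner_self_eq_norm_sq_to_K]
      norm_cast
    rw [h4]
    calc (⟪η, star Z (Z η)⟫_ℂ).re ≤ ‖⟪η, star Z (Z η)⟫_ℂ‖ := Complex.re_le_norm _
      _ ≤ ‖η‖ * ‖star Z (Z η)‖ := norm_inner_le_norm _ _
      _ ≤ ‖η‖ * (5 / 4 * ‖η‖) := mul_le_mul_of_nonneg_left h3 (norm_nonneg _)
      _ = _ := by ring
  have hinj : Function.Injective (X : K →ₗ[ℂ] K) := by
    rw [← LinearMap.ker_eq_bot, LinearMap.ker_eq_bot']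
    intro η hη
    have h1 := low X hX η
    have h2 : X η = 0 := hη
    rw [h2, map_zero, norm_zero] at h1
    have : ‖η‖ ≤ 0 := by linarith
    exact norm_le_zero_iff.1 this
  have hsurj : Function.Surjective (X : K →ₗ[ℂ] K) := LinearMap.injective_iff_surjective.1 hinj
  obtain ⟨η, hη⟩ := hsurj (Y ζ)
  have hη' : X η = Y ζ := hη
  have a1 := low X hX η
  rw [hη'] at a1
  have a2 : ‖star X (Y ζ)‖ ≤ 1 / 4 * ‖ζ‖ := by
    have h2 : (star X * Y) ζ = star X (Y ζ) := rfl
    rw [← h2]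
    exact (ContinuousLinearMap.le_opNorm _ _).trans (mul_le_mul_of_nonneg_right hXY (norm_nonneg _))
  have a3 : ‖η‖ ≤ 1 / 3 * ‖ζ‖ := by linarith
  have a4 := up X hX η
  rw [hη'] at a4
  have a5 := low Y hY ζ
  -- ‖Y ζ‖^2 ≥ 3/4 ‖ζ‖^2
  have a6 : 3 / 4 * ‖ζ‖ ^ 2 ≤ ‖Y ζ‖ ^ 2 := by
    have h1 : ‖(star Y * Y - 1) ζ‖ ≤ 1 / 4 * ‖ζ‖ := (ContinuousLinearMap.le_opNorm _ _).trans
      (mul_le_mul_of_nonneg_right hY (norm_nonneg _))
    have h2 : (star Y * Y - 1) ζ = star Y (Y ζ) - ζ := rfl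
    rw [h2] at h1
    have h4 : ‖Y ζ‖ ^ 2 = (⟪ζ, star Y (Y ζ)⟫_ℂ).re := by
      rw [ContinuousLinearMap.star_eq_adjoint, ContinuousLinearMap.adjoint_inner_right,
        inner_self_eq_norm_sq_to_K]
      norm_cast
    have h5 : ‖ζ‖ ^ 2 = (⟪ζ, ζ⟫_ℂ).re := by
      rw [inner_self_eq_norm_sq_to_K]; norm_cast
    have h6 : ‖ζ‖ ^ 2 - ‖Y ζ‖ ^ 2 = (⟪ζ, ζ - star Y (Y ζ)⟫_ℂ).re := by
      rw [inner_sub_right, Complex.sub_re, ← h4, ← h5]
    have h7 : (⟪ζ, ζ - star Y (Y ζ)⟫_ℂ).re ≤ ‖ζ‖ * (1 / 4 * ‖ζ‖) := by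
      calc (⟪ζ, ζ - star Y (Y ζ)⟫_ℂ).re ≤ ‖⟪ζ, ζ - star Y (Y ζ)⟫_ℂ‖ := Complex.re_le_norm _
        _ ≤ ‖ζ‖ * ‖ζ - star Y (Y ζ)‖ := norm_inner_le_norm _ _
        _ ≤ _ := mul_le_mul_of_nonneg_left (by rw [norm_sub_rev]; exact h1) (norm_nonneg _)
    nlinarith
  have a7 : ‖η‖ ^ 2 ≤ 1 / 9 * ‖ζ‖ ^ 2 := by
    have := mul_self_le_mul_self (norm_nonneg η) a3
    nlinarith
  nlinarith [sq_pos_of_pos hζn]

/-- the identity function as a real function on the interval -/
noncomputable def idf : C(unitInterval, ℝ) := ⟨fun t => (t : ℝ), continuous_subtype_val⟩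

/-- the element `t ↦ t • s_b` of the cone -/
noncomputable def fe (b : Bool) : CA :=
  ⟨el idf (s b), el_mem (StarSubalgebra.le_topologicalClosure _
    (StarAlgebra.subset_adjoin ℂ _ ⟨b, rfl⟩)) rfl⟩

theorem ev_fe (b : Bool) : ev 1 (fe b) = s b := by
  rw [ev_apply]
  show ((idf 1 : ℝ) : ℂ) • s b = s b
  have : (idf 1 : ℝ) = 1 := rfl
  rw [this]; simp

theorem norm_ev_le (t : unitInterval) (f : CA) : ‖ev t f‖ ≤ ‖f‖ := by
  rw [ev_apply]
  exact ContinuousMap.norm_coe_le_norm (f : CB) t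

/-- a closed non-unital subalgebra containing an element near `1` contains `1` -/
theorem one_mem_of_near (D : NonUnitalStarSubalgebra ℂ BH) (hD : IsClosed (D : Set BH)) {z : BH}
    (hz : z ∈ D) (h : ‖1 - z‖ < 1) : (1 : BH) ∈ D := by
  have hmem : ∀ n : ℕ, 1 - (1 - z) ^ n ∈ D := by
    intro n
    induction n with
    | zero => simp
    | succ n ih =>
      have e : 1 - (1 - z) ^ (n + 1) = (1 - (1 - z) ^ n) + z - (1 - (1 - z) ^ n) * z := by
        rw [pow_succ]; noncomm_ring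
      rw [e]
      exact sub_mem (add_mem ih hz) (mul_mem ih hz)
  have hlim : Tendsto (fun n : ℕ => 1 - (1 - z) ^ n) atTop (𝓝 (1 - 0)) :=
    tendsto_const_nhds.sub (tendsto_pow_atTop_nhds_zero_of_norm_lt_one h)
  rw [sub_zero] at hlim
  exact hD.mem_of_tendsto hlim (Eventually.of_forall hmem)

theorem rep_near {E : Type} [CStarAlgebra E] {K : Type} [NormedAddCommGroup K]
    [InnerProductSpace ℂ K] [CompleteSpace K] (ρ : E →⋆ₙₐ[ℂ] (K →L[ℂ] K)) (hρ1 : ρ 1 = 1)
    (a b : E) {c : ℝ} (h : ‖star a * b - 1‖ ≤ c) : ‖star (ρ a) * ρ b - 1‖ ≤ c := by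
  have e : star (ρ a) * ρ b - 1 = ρ (star a * b - 1) := by
    rw [map_sub, map_mul, map_star, hρ1]
  rw [e]
  exact (NonUnitalStarAlgHom.norm_apply_le ρ _).trans h

theorem rep_small {E : Type} [CStarAlgebra E] {K : Type} [NormedAddCommGroup K]
    [InnerProductSpace ℂ K] [CompleteSpace K] (ρ : E →⋆ₙₐ[ℂ] (K →L[ℂ] K))
    (a b : E) {c : ℝ} (h : ‖star a * b‖ ≤ c) : ‖star (ρ a) * ρ b‖ ≤ c := by
  have e : star (ρ a) * ρ b = ρ (star a * b) := by
    rw [map_mul, map_star]
  rw [e]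
  exact (NonUnitalStarAlgHom.norm_apply_le ρ _).trans h

set_option maxHeartbeats 1000000 in
theorem notLocallyTypeI : ¬ LocallyTypeI CA := by
  intro hloc
  classical
  obtain ⟨B, hBc, hBI, hBF⟩ := hloc {fe false, fe true} (1 / 10) (by norm_num)
  have hy : ∀ b : Bool, ∃ y ∈ B, ‖fe b - y‖ < 1 / 10 := by
    intro b
    apply hBF
    cases b <;> simp
  choose y hyB hyn using hy
  set x : Bool → BH := fun b => ev 1 (y b) with hx
  have hxn : ∀ b, ‖s b - x b‖ < 1 / 10 := by
    intro b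
    have h1 : s b - x b = ev 1 (fe b - y b) := by rw [map_sub, ev_fe]
    rw [h1]
    exact (norm_ev_le _ _).trans_lt (hyn b)
  have hsn : ∀ b, ‖s b‖ = 1 := by
    intro b
    have := CStarRing.norm_star_mul_self (x := s b)
    rw [star_s_mul_s_self, CStarRing.norm_one] at this
    nlinarith [norm_nonneg (s b)]
  have hxn' : ∀ b, ‖x b‖ ≤ 11 / 10 := by
    intro b
    calc ‖x b‖ = ‖s b - (s b - x b)‖ := by congr 1; abel
      _ ≤ ‖s b‖ + ‖s b - x b‖ := norm_sub_le _ _
      _ ≤ 11 / 10 := by rw [hsn]; linarith [hxn b]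
  have hprod : ∀ a b, ‖star (x a) * x b - star (s a) * s b‖ ≤ 1 / 4 := by
    intro a b
    have e : star (x a) * x b - star (s a) * s b =
        -(star (s a - x a) * x b) - star (s a) * (s b - x b) := by
      rw [star_sub]; noncomm_ring
    rw [e]
    calc _ ≤ ‖-(star (s a - x a) * x b)‖ + ‖star (s a) * (s b - x b)‖ := norm_sub_le _ _
      _ ≤ ‖s a - x a‖ * ‖x b‖ + ‖s a‖ * ‖s b - x b‖ := by
          rw [norm_neg]
          exact add_le_add ((norm_mul_le _ _).trans (by rw [norm_star]))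
            ((norm_mul_le _ _).trans (by rw [norm_star]))
      _ ≤ 1 / 10 * (11 / 10) + 1 * (1 / 10) := by
          rw [hsn]
          exact add_le_add (mul_le_mul (hxn a).le (hxn' b) (norm_nonneg _) (by norm_num))
            (by linarith [hxn b])
      _ ≤ 1 / 4 := by norm_num
  -- the closure of the image
  let D : NonUnitalStarSubalgebra ℂ BH := (B.map (ev 1)).topologicalClosure
  have hDc : IsClosed (D : Set BH) := (B.map (ev 1)).isClosed_topologicalClosure
  have hDmem : ∀ b ∈ B, ev 1 b ∈ D := fun b hb =>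
    (B.map (ev 1)).le_topologicalClosure ⟨b, hb, rfl⟩
  have hxD : ∀ b, x b ∈ D := fun b => hDmem _ (hyB b)
  have h1D : (1 : BH) ∈ D := by
    apply one_mem_of_near D hDc (z := star (x false) * x false) (mul_mem (star_mem (hxD _)) (hxD _))
    have := hprod false false
    rw [star_s_mul_s_self] at this
    rw [norm_sub_rev]
    linarith
  let E : StarSubalgebra ℂ BH := D.toStarSubalgebra h1D
  have hEc : IsClosed (E : Set BH) := hDc
  have : Nontrivial E := ⟨⟨1, 0, fun h => one_ne_zero (congrArg (fun e : E => (e : BH)) h)⟩⟩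
  obtain ⟨K, _, _, _, ρ, hρ1, hK, hirr, hmax⟩ := exists_irr E
  have hρn : ∀ e, ‖ρ e‖ ≤ ‖e‖ := fun e => NonUnitalStarAlgHom.norm_apply_le ρ e
  have hρc : Continuous ρ := by
    have : ∀ a b, dist (ρ a) (ρ b) ≤ 1 * dist a b := by
      intro a b
      rw [dist_eq_norm, dist_eq_norm, ← map_sub, one_mul]
      exact hρn _
    exact (LipschitzWith.of_dist_le_mul (K := 1) this).continuous
  let θ : B →⋆ₙₐ[ℂ] E :=
    { toFun := fun b => ⟨ev 1 (b : CA), hDmem _ b.2⟩
      map_smul' := fun r b => by apply Subtype.ext; exact map_smul (ev 1) r (b : CA)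
      map_zero' := by apply Subtype.ext; exact map_zero (ev 1)
      map_add' := fun a b => by apply Subtype.ext; exact map_add (ev 1) (a : CA) (b : CA)
      map_mul' := fun a b => by apply Subtype.ext; exact map_mul (ev 1) (a : CA) (b : CA)
      map_star' := fun b => by apply Subtype.ext; exact map_star (ev 1) (b : CA) }
  have hθd : ∀ e : E, e ∈ closure (Set.range θ) := by
    intro e
    rw [Topology.IsInducing.subtypeVal.closure_eq_preimage_closure_image]
    show (e : BH) ∈ closure ((fun e : E => (e : BH)) '' Set.range θ)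
    have he : (e : BH) ∈ closure ((B.map (ev 1) : NonUnitalStarSubalgebra ℂ BH) : Set BH) := e.2
    refine closure_mono ?_ he
    rintro _ ⟨b, hb, rfl⟩
    exact ⟨θ ⟨b, hb⟩, ⟨⟨b, hb⟩, rfl⟩, rfl⟩
  let π : B →⋆ₙₐ[ℂ] (K →L[ℂ] K) := ρ.comp θ
  have hπ : ∀ b, π b = ρ (θ b) := fun b => rfl
  have hπirr : IsIrreducible π := by
    constructor
    · intro h0
      have hz : ∀ e : E, ρ e = 0 := by
        intro e
        have hcl : IsClosed {e : E | ρ e = 0} := isClosed_eq hρc continuous_const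
        refine closure_minimal ?_ hcl (hθd e)
        rintro _ ⟨b, rfl⟩
        show ρ (θ b) = 0
        rw [← hπ, h0]; rfl
      have h1 := hz 1
      rw [hρ1] at h1
      obtain ⟨v, hv⟩ := exists_ne (0 : K)
      apply hv
      have := congrArg (fun T : K →L[ℂ] K => T v) h1
      simpa using this
    · intro U hU hinv
      apply hirr U hU
      intro e v hv
      have hcl : IsClosed {e : E | ρ e v ∈ U} := by
        have hc : Continuous (fun e : E => ρ e v) := by fun_prop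
        exact hU.preimage hc
      refine closure_minimal ?_ hcl (hθd e)
      rintro _ ⟨b, rfl⟩
      exact hinv b v hv
  -- a rank one operator in the image
  obtain ⟨v, hv⟩ := exists_ne (0 : K)
  let T : K →L[ℂ] K := (innerSL ℂ v).smulRight v
  have hT0 : T ≠ 0 := by
    intro h
    have h1 : T v = 0 := by rw [h]; rfl
    have h2 : T v = ⟪v, v⟫_ℂ • v := rfl
    rw [h2] at h1
    rcases smul_eq_zero.1 h1 with h3 | h3
    · exact hv (inner_self_eq_zero.1 h3)
    · exact hv h3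
  have hTc : IsCompactOperator T := by
    have h1 : IsCompactOperator (innerSL ℂ v : K →L[ℂ] ℂ) :=
      isCompactOperator_of_locallyCompactSpace_dom _
    have h2 := h1.clm_comp (ContinuousLinearMap.toSpanSingleton ℂ v)
    exact h2
  obtain ⟨b, hb⟩ := hBI K π hπirr T hTc
  -- the ideal of elements with compact image
  let I : TwoSidedIdeal E := TwoSidedIdeal.mk' {e | IsCompactOperator (ρ e)}
    (by
      show IsCompactOperator (ρ 0)
      rw [map_zero]; exact isCompactOperator_zero)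
    (by
      intro a b ha hb
      show IsCompactOperator (ρ (a + b))
      rw [map_add]
      exact IsCompactOperator.add ha hb)
    (by
      intro a ha
      show IsCompactOperator (ρ (-a))
      have h1 : ρ (-a) = - ρ a := by
        have := map_smul ρ (-1 : ℂ) a
        simpa using this
      rw [h1]
      exact IsCompactOperator.neg ha)
    (by
      intro a b hb
      show IsCompactOperator (ρ (a * b))
      rw [map_mul]
      exact IsCompactOperator.clm_comp hb (ρ a))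
    (by
      intro a b ha
      show IsCompactOperator (ρ (a * b))
      rw [map_mul]
      exact IsCompactOperator.comp_clm ha (ρ b))
  have hImem : ∀ e, e ∈ I ↔ IsCompactOperator (ρ e) := fun e => TwoSidedIdeal.mem_mk' _ _ _ _ _ _ _
  have h1I : (1 : E) ∈ I := by
    apply hmax I
    · intro e he
      rw [hImem, he]; exact isCompactOperator_zero
    · refine ⟨θ b, ?_, ?_⟩
      · rw [hImem, ← hπ, hb]; exact hTc
      · rw [← hπ, hb]; exact hT0
  rw [hImem, hρ1] at h1I
  have : FiniteDimensional ℂ K := FiniteDimensional.of_isCompactOperator_id (𝕜 := ℂ) h1I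
  -- contradiction
  let xe : Bool → E := fun b => ⟨x b, hxD b⟩
  have hne : ∀ a b, ‖star (xe a) * xe b‖ = ‖star (x a) * x b‖ := fun a b => rfl
  have g1 : ∀ a, ‖star (ρ (xe a)) * ρ (xe a) - 1‖ ≤ 1 / 4 := by
    intro a
    apply rep_near ρ hρ1
    have := hprod a a
    rw [star_s_mul_s_self] at this
    exact this
  have g2 : ‖star (ρ (xe false)) * ρ (xe true)‖ ≤ 1 / 4 := by
    apply rep_small ρ
    have := hprod false true
    rw [star_s_mul_s_ne (by decide), sub_zero] at this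
    exact this
  exact no_finite (ρ (xe false)) (ρ (xe true)) (g1 _) (g1 _) g2

end Pool.Agent.X190.ConeTI
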