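import Pool.Agent.X190.FreeProd3

/-! Two unital homomorphisms from `O_∞` into `M_2(O_∞)` with the same composition with a state, of
which only one maps a projection into the centraliser of the state. -/

set_option autoImplicit false

noncomputable section

namespace Pool.Agent.X190.Conj

open scoped ComplexOrder InnerProductSpace
open Filter Topology Pool.Agent.X190.States Pool.Agent.X190.FreeProd Pool.Agent.X190.Fock
  Pool.Agent.X190.Cuntz

section matrix

variable {A : Type} [CStarAlgebra A] [PartialOrder A] [StarOrderedRing A]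

/-- two by two matrices -/
abbrev M2 (A : Type) : Type := CStarMatrix (Fin 2) (Fin 2) A

omit [PartialOrder A] [StarOrderedRing A] in
/-- matrices over a unital algebra with `x a y = 1` and orthogonal isometries -/
theorem exists_mul_eq_one (hA : ∀ a : A, a ≠ 0 → ∃ x y, x * a * y = 1) (s : Fin 2 → A)
    (hs : ∀ i, star (s i) * s i = 1) (ho : ∀ i j, i ≠ j → star (s i) * s j = 0)
    (M : M2 A) (hM : M ≠ 0) : ∃ X Y : M2 A, X * M * Y = 1 := by
  have : ∃ i j, M i j ≠ 0 := by
    by_contra hcon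
    push Not at hcon
    exact hM (CStarMatrix.ext fun i j => hcon i j)
  obtain ⟨i, j, hij⟩ := this
  obtain ⟨x, y, hxy⟩ := hA _ hij
  let X : M2 A := CStarMatrix.ofMatrix fun k l => if l = i then star (s k) * x else 0
  let Y : M2 A := CStarMatrix.ofMatrix fun l k => if l = j then y * s k else 0
  have hX : ∀ k l, X k l = if l = i then star (s k) * x else 0 := fun k l => rfl
  have hY : ∀ l k, Y l k = if l = j then y * s k else 0 := fun l k => rfl
  refine ⟨X, Y, CStarMatrix.ext fun k k' => ?_⟩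
  rw [CStarMatrix.mul_apply]
  have h1 : ∀ m, (X * M) k m = star (s k) * x * M i m := by
    intro m
    rw [CStarMatrix.mul_apply]
    simp only [hX, ite_mul, zero_mul]
    rw [Finset.sum_ite_eq' Finset.univ i]
    simp
  simp only [h1, hY, mul_ite, mul_zero]
  rw [Finset.sum_ite_eq' Finset.univ j]
  simp only [Finset.mem_univ, if_true]
  have h2 : star (s k) * x * M i j * (y * s k') = star (s k) * (x * M i j * y) * s k' := by
    noncomm_ring
  rw [h2, hxy, mul_one, CStarMatrix.one_apply]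
  split_ifs with h
  · rw [h, hs]
  · exact ho _ _ h

theorem isPurelyInfiniteSimple_M2 [Nontrivial A]
    (hA : ∀ a : A, a ≠ 0 → ∃ x y, x * a * y = 1) (s : Fin 2 → A)
    (hs : ∀ i, star (s i) * s i = 1) (ho : ∀ i j, i ≠ j → star (s i) * s j = 0) :
    IsPurelyInfiniteSimple (M2 A) := by
  refine ⟨inferInstance, ?_, ?_, exists_mul_eq_one hA s hs ho⟩
  · intro I _
    by_cases h : ∃ M ∈ I, M ≠ 0
    · right
      obtain ⟨M, hMI, hM⟩ := h
      obtain ⟨X, Y, hXY⟩ := exists_mul_eq_one hA s hs ho M hM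
      have h1 : (1 : M2 A) ∈ I := by
        rw [← hXY]
        exact I.mul_mem_right _ _ (I.mul_mem_left _ _ hMI)
      refine eq_top_iff.2 fun z _ => ?_
      have := I.mul_mem_left z 1 h1
      rwa [mul_one] at this
    · left
      push Not at h
      refine eq_bot_iff.2 fun z hz => ?_
      rw [h z hz]
      exact (⊥ : TwoSidedIdeal (M2 A)).zero_mem
  · let E : M2 A := CStarMatrix.ofMatrix fun i j => if i = 0 ∧ j = 0 then 1 else 0
    have hE : ∀ i j, E i j = if i = 0 ∧ j = 0 then 1 else 0 := fun i j => rfl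
    refine ⟨E, fun r hr => ?_⟩
    have h1 : E 0 0 = r • (1 : M2 A) 0 0 := by rw [hr]; rfl
    have h2 : E 1 1 = r • (1 : M2 A) 1 1 := by rw [hr]; rfl
    rw [hE, CStarMatrix.one_apply] at h1 h2
    simp only [and_self, if_true] at h1 h2
    rw [if_neg (by decide)] at h2
    rw [← h1] at h2
    exact zero_ne_one h2

omit [PartialOrder A] [StarOrderedRing A] in
theorem separable_M2 [TopologicalSpace.SeparableSpace A] :
    TopologicalSpace.SeparableSpace (M2 A) :=
  inferInstanceAs (TopologicalSpace.SeparableSpace (Fin 2 → Fin 2 → A))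

/-- the diagonal matrix -/
def dg (a : A) : M2 A := CStarMatrix.ofMatrix (Matrix.of fun i j => if i = j then a else 0)

omit [PartialOrder A] [StarOrderedRing A] in
theorem dg_apply (a : A) (i j : Fin 2) : dg a i j = if i = j then a else 0 := rfl

/-- the diagonal embedding -/
def diag : A →⋆ₐ[ℂ] M2 A where
  toFun a := dg a
  map_one' := CStarMatrix.ext fun i j => by
    rw [CStarMatrix.one_apply, dg_apply]
  map_mul' a b := CStarMatrix.ext fun i j => by
    rw [CStarMatrix.mul_apply, dg_apply]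
    simp only [dg_apply]
    by_cases h : i = j
    · subst h; simp
    · simp [h]
  map_zero' := CStarMatrix.ext fun i j => by
    rw [dg_apply, ite_self]
    rfl
  map_add' a b := CStarMatrix.ext fun i j => by
    rw [CStarMatrix.add_apply, dg_apply, dg_apply, dg_apply]
    split_ifs <;> simp
  commutes' r := CStarMatrix.ext fun i j => by
    rw [Algebra.algebraMap_eq_smul_one, Algebra.algebraMap_eq_smul_one, CStarMatrix.smul_apply,
      CStarMatrix.one_apply, dg_apply]
    split_ifs <;> simp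
  map_star' a := CStarMatrix.ext fun i j => by
    rw [CStarMatrix.star_apply, dg_apply, dg_apply]
    by_cases h : i = j
    · subst h; simp
    · have h' : ¬ j = i := fun e => h e.symm
      simp [h, h']

omit [PartialOrder A] [StarOrderedRing A] in
theorem diag_apply (a : A) (i j : Fin 2) : (diag a : M2 A) i j = if i = j then a else 0 := rfl

/-- entries are continuous -/
def entry (i j : Fin 2) : M2 A →L[ℂ] A :=
  LinearMap.mkContinuous
    { toFun := fun M => M i j
      map_add' := fun M N => CStarMatrix.add_apply M N i j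
      map_smul' := fun r M => CStarMatrix.smul_apply r M i j } 1 (fun M => by
        rw [one_mul]; exact CStarMatrix.norm_entry_le_norm (M := M) (i := i) (j := j))

theorem entry_apply (i j : Fin 2) (M : M2 A) : entry i j M = M i j := rfl

end matrix

section data

/-- `s 0` -/
abbrev t : OO := (sys ℕ).s 0

/-- the projection onto the complement of the range of `s 0` -/
def P : OO := 1 - t * star t

theorem t_iso : star t * t = 1 := (sys ℕ).iso 0

theorem P_t : P * t = 0 := by
  unfold P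
  rw [sub_mul, one_mul, mul_assoc, t_iso, mul_one, sub_self]

theorem star_P : star P = P := by
  unfold P
  rw [star_sub, star_one, star_mul, star_star]

theorem t_P : star t * P = 0 := by
  have := congrArg star P_t
  rwa [star_mul, star_P, star_zero] at this

theorem P_P : P * P = P := by
  conv_lhs =>
    rw [show P * P = P * (1 - t * star t) from rfl]
  rw [mul_sub, mul_one, ← mul_assoc, P_t, zero_mul, sub_zero]

/-- the reflection -/
def c : ℂ := ((Real.sqrt 2)⁻¹ : ℝ)

theorem c_sq : c * c = 1 / 2 := by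
  unfold c
  rw [← Complex.ofReal_mul, ← mul_inv, Real.mul_self_sqrt (by norm_num)]
  push_cast; norm_num

theorem star_c : star c = c := by
  unfold c
  rw [Complex.star_def, Complex.conj_ofReal]

/-- abstract two by two matrix units computation -/
theorem refl_sq {A : Type} [CStarAlgebra A] (P q W V : A) (hPP : P * P = P) (hqq : q * q = q)
    (hPq : P * q = 0) (hqP : q * P = 0) (hWW : W * W = 0) (hVV : V * V = 0) (hWV : W * V = q)
    (hVW : V * W = P) (hPW : P * W = 0) (hWP : W * P = W) (hqW : q * W = W) (hWq : W * q = 0)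
    (hPV : P * V = V) (hVP : V * P = 0) (hqV : q * V = 0) (hVq : V * q = V) (c : ℂ)
    (hc : c * c = 1 / 2) :
    (c • (P - q) + c • (W + V) + (1 - P - q)) * (c • (P - q) + c • (W + V) + (1 - P - q)) = 1 := by
  simp only [mul_add, add_mul, mul_sub, sub_mul, smul_add, smul_sub, smul_mul_assoc,
    mul_smul_comm, smul_smul, hPP, hqq, hPq, hqP, hWW, hVV, hWV, hVW, hPW, hWP, hqW, hWq, hPV,
    hVP, hqV, hVq, hc, mul_one, one_mul, smul_zero]
  module

/-- `W` -/
def W : OO := t * P

/-- the range projection -/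
def q : OO := t * P * star t

theorem star_W : star W = P * star t := by
  unfold W; rw [star_mul, star_P]

/-- the self-adjoint unitary -/
def v : OO := c • (P - q) + c • (W + star W) + (1 - P - q)

theorem star_q : star q = q := by
  unfold q
  rw [star_mul, star_mul, star_star, star_P, mul_assoc]

theorem star_v : star v = v := by
  unfold v
  rw [star_add, star_add, star_smul, star_smul, star_sub, star_add, star_sub, star_sub, star_star,
    star_one, star_P, star_q, star_c, add_comm (star W) W]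

theorem v_sq : v * v = 1 := by
  have hWs := star_W
  refine refl_sq P q W (star W) P_P ?_ ?_ ?_ ?_ ?_ ?_ ?_ ?_ ?_ ?_ ?_ ?_ ?_ ?_ ?_ c c_sq
  · unfold q
    rw [show t * P * star t * (t * P * star t) = t * P * (star t * t) * P * star t by
      noncomm_ring, t_iso, mul_one, mul_assoc t P P, P_P]
  · unfold q
    rw [show P * (t * P * star t) = (P * t) * P * star t by noncomm_ring, P_t]
    simp
  · unfold q
    rw [mul_assoc, t_P, mul_zero]
  · unfold W
    rw [show t * P * (t * P) = t * (P * t) * P by noncomm_ring, P_t]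
    simp
  · rw [hWs, show P * star t * (P * star t) = P * (star t * P) * star t by noncomm_ring, t_P]
    simp
  · rw [hWs]; unfold W q
    rw [show t * P * (P * star t) = t * (P * P) * star t by noncomm_ring, P_P]
  · rw [hWs]; unfold W
    rw [show P * star t * (t * P) = P * (star t * t) * P by noncomm_ring, t_iso, mul_one, P_P]
  · unfold W
    rw [← mul_assoc, P_t, zero_mul]
  · unfold W
    rw [mul_assoc, P_P]
  · unfold W q
    rw [show t * P * star t * (t * P) = t * P * (star t * t) * P by noncomm_ring, t_iso, mul_one,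
      mul_assoc, P_P]
  · unfold W q
    rw [show t * P * (t * P * star t) = t * (P * t) * P * star t by noncomm_ring, P_t]
    simp
  · rw [hWs, ← mul_assoc, P_P]
  · rw [hWs, mul_assoc, t_P, mul_zero]
  · rw [hWs]; unfold q
    rw [show t * P * star t * (P * star t) = t * P * (star t * P) * star t by noncomm_ring, t_P]
    simp
  · rw [hWs]; unfold q
    rw [show P * star t * (t * P * star t) = P * (star t * t) * P * star t by noncomm_ring, t_iso,
      mul_one, P_P]

/-- conjugation by `v` -/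
def Adv : OO →⋆ₐ[ℂ] OO where
  toFun a := v * a * v
  map_one' := by rw [mul_one, v_sq]
  map_mul' a b := by
    rw [show v * a * v * (v * b * v) = v * a * (v * v) * b * v by noncomm_ring, v_sq, mul_one]
    noncomm_ring
  map_zero' := by simp
  map_add' a b := by noncomm_ring
  commutes' r := by
    rw [Algebra.algebraMap_eq_smul_one, mul_smul_comm, smul_mul_assoc, mul_one, v_sq]
  map_star' a := by
    rw [star_mul, star_mul, star_v, mul_assoc]

theorem Adv_apply (a : OO) : Adv a = v * a * v := rfl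

/-- the vacuum vector -/
abbrev x0 : FS ℕ := bas ℕ []

/-- the one-particle vector -/
abbrev x1 : FS ℕ := bas ℕ [0]

theorem t_x0 : (t : FS ℕ →L[ℂ] FS ℕ) x0 = x1 := S_bas 0 []

theorem t_x1 : (t : FS ℕ →L[ℂ] FS ℕ) x1 = bas ℕ [0, 0] := S_bas 0 [0]

theorem ts_x0 : ((star t : OO) : FS ℕ →L[ℂ] FS ℕ) x0 = 0 := star_S_nil 0

theorem ts_x1 : ((star t : OO) : FS ℕ →L[ℂ] FS ℕ) x1 = x0 := star_S_cons 0

theorem coe_mul_apply (a b : OO) (x : FS ℕ) :
    ((a * b : OO) : FS ℕ →L[ℂ] FS ℕ) x = (a : FS ℕ →L[ℂ] FS ℕ) ((b : FS ℕ →L[ℂ] FS ℕ) x) := rfl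

theorem coe_add_apply (a b : OO) (x : FS ℕ) :
    ((a + b : OO) : FS ℕ →L[ℂ] FS ℕ) x = (a : FS ℕ →L[ℂ] FS ℕ) x + (b : FS ℕ →L[ℂ] FS ℕ) x := rfl

theorem coe_sub_apply (a b : OO) (x : FS ℕ) :
    ((a - b : OO) : FS ℕ →L[ℂ] FS ℕ) x = (a : FS ℕ →L[ℂ] FS ℕ) x - (b : FS ℕ →L[ℂ] FS ℕ) x := rfl

theorem coe_smul_apply (r : ℂ) (b : OO) (x : FS ℕ) :
    ((r • b : OO) : FS ℕ →L[ℂ] FS ℕ) x = r • (b : FS ℕ →L[ℂ] FS ℕ) x := rfl

theorem coe_one_apply (x : FS ℕ) : ((1 : OO) : FS ℕ →L[ℂ] FS ℕ) x = x := rfl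

theorem P_x0 : (P : FS ℕ →L[ℂ] FS ℕ) x0 = x0 := by
  unfold P
  rw [coe_sub_apply, coe_mul_apply, ts_x0, map_zero, sub_zero, coe_one_apply]

theorem P_x1 : (P : FS ℕ →L[ℂ] FS ℕ) x1 = 0 := by
  unfold P
  rw [coe_sub_apply, coe_mul_apply, ts_x1, t_x0, coe_one_apply, sub_self]

theorem q_x0 : (q : FS ℕ →L[ℂ] FS ℕ) x0 = 0 := by
  unfold q
  rw [coe_mul_apply, ts_x0, map_zero]

theorem q_x1 : (q : FS ℕ →L[ℂ] FS ℕ) x1 = x1 := by
  unfold q
  rw [coe_mul_apply, ts_x1, coe_mul_apply, P_x0, t_x0]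

theorem W_x0 : (W : FS ℕ →L[ℂ] FS ℕ) x0 = x1 := by
  unfold W
  rw [coe_mul_apply, P_x0, t_x0]

theorem W_x1 : (W : FS ℕ →L[ℂ] FS ℕ) x1 = 0 := by
  unfold W
  rw [coe_mul_apply, P_x1, map_zero]

theorem Ws_x0 : ((star W : OO) : FS ℕ →L[ℂ] FS ℕ) x0 = 0 := by
  rw [star_W, coe_mul_apply, ts_x0, map_zero]

theorem Ws_x1 : ((star W : OO) : FS ℕ →L[ℂ] FS ℕ) x1 = x0 := by
  rw [star_W, coe_mul_apply, ts_x1, P_x0]

theorem v_x0 : (v : FS ℕ →L[ℂ] FS ℕ) x0 = c • (x0 + x1) := by
  unfold v
  rw [coe_add_apply, coe_add_apply, coe_smul_apply, coe_smul_apply, coe_sub_apply, coe_add_apply,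
    coe_sub_apply, coe_sub_apply, coe_one_apply, P_x0, q_x0, W_x0, Ws_x0]
  simp only [sub_zero, add_zero, sub_self, smul_add]

theorem v_x1 : (v : FS ℕ →L[ℂ] FS ℕ) x1 = c • (x0 - x1) := by
  unfold v
  rw [coe_add_apply, coe_add_apply, coe_smul_apply, coe_smul_apply, coe_sub_apply, coe_add_apply,
    coe_sub_apply, coe_sub_apply, coe_one_apply, P_x1, q_x1, W_x1, Ws_x1]
  module

/-- averages of the two vector states are invariant under conjugation by `v` -/
theorem vf_conj (a : OO) :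
    vf x0 (v * a * v) + vf x1 (v * a * v) = vf x0 a + vf x1 a := by
  have h : ∀ ξ : FS ℕ, vf ξ (v * a * v) =
      ⟪(v : FS ℕ →L[ℂ] FS ℕ) ξ, (a : FS ℕ →L[ℂ] FS ℕ) ((v : FS ℕ →L[ℂ] FS ℕ) ξ)⟫_ℂ := by
    intro ξ
    rw [mul_assoc, vf_mul_left, star_v, coe_mul_apply]
  rw [h, h, v_x0, v_x1, vf_apply, vf_apply]
  have hcc : (starRingEnd ℂ) c = c := star_c
  simp only [map_smul, map_add, map_sub, inner_smul_left, inner_smul_right, inner_add_left,
    inner_add_right, inner_sub_left, inner_sub_right, hcc]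
  linear_combination (2 * ⟪x0, (a : FS ℕ →L[ℂ] FS ℕ) x0⟫_ℂ +
    2 * ⟪x1, (a : FS ℕ →L[ℂ] FS ℕ) x1⟫_ℂ) * c_sq

/-- the order -/
noncomputable local instance : PartialOrder OO := CStarAlgebra.spectralOrder OO
noncomputable local instance : StarOrderedRing OO := CStarAlgebra.spectralOrderedRing OO

/-- the state -/
def mu : M2 OO →L[ℂ] ℂ :=
  (1 / 2 : ℂ) • ((vf x0).comp (entry 0 0) + (vf x1).comp (entry 1 1))

theorem mu_apply (M : M2 OO) : mu M = 1 / 2 * (vf x0 (M 0 0) + vf x1 (M 1 1)) := rfl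

theorem vf_x0 : IsState (vf x0) := vf_state x0 ((bas ℕ).orthonormal.1 _)

theorem vf_x1 : IsState (vf x1) := vf_state x1 ((bas ℕ).orthonormal.1 _)

theorem star_mul_self_apply (M : M2 OO) (i : Fin 2) :
    (star M * M) i i = ∑ k, star (M k i) * M k i := by
  rw [CStarMatrix.mul_apply]
  refine Finset.sum_congr rfl fun k _ => ?_
  rw [CStarMatrix.star_apply]

theorem mu_state : IsState mu := by
  have h3 : (0 : ℂ) ≤ 1 / 2 := by
    have : (0 : ℂ) ≤ ((1 / 2 : ℝ) : ℂ) := Complex.zero_le_real.2 (by norm_num)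
    simpa using this
  apply isState_of
  · intro M
    rw [mu_apply, star_mul_self_apply, star_mul_self_apply, map_sum, map_sum]
    exact mul_nonneg h3 (add_nonneg (Finset.sum_nonneg fun k _ => vf_x0.nonneg _)
      (Finset.sum_nonneg fun k _ => vf_x1.nonneg _))
  · apply ContinuousLinearMap.opNorm_le_bound _ zero_le_one
    intro x
    rw [mu_apply, one_mul, norm_mul]
    have e1 := (vf x0).le_opNorm (x 0 0)
    have e2 := (vf x1).le_opNorm (x 1 1)
    rw [vf_x0.norm_eq, one_mul] at e1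
    rw [vf_x1.norm_eq, one_mul] at e2
    have e5 := CStarMatrix.norm_entry_le_norm (M := x) (i := 0) (j := 0)
    have e6 := CStarMatrix.norm_entry_le_norm (M := x) (i := 1) (j := 1)
    have e3 := norm_add_le (vf x0 (x 0 0)) (vf x1 (x 1 1))
    have e4 : ‖(1 / 2 : ℂ)‖ = 1 / 2 := by norm_num
    rw [e4]
    linarith
  · rw [mu_apply, CStarMatrix.one_apply, CStarMatrix.one_apply, if_pos rfl, if_pos rfl,
      vf_x0.map_one, vf_x1.map_one]
    norm_num

theorem mu_diag (a : OO) : mu (diag a) = 1 / 2 * (vf x0 a + vf x1 a) := by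
  rw [mu_apply, diag_apply, diag_apply, if_pos rfl, if_pos rfl]

/-- the second homomorphism -/
def phi2 : OO →⋆ₐ[ℂ] M2 OO := diag.comp Adv

theorem phi2_apply (a : OO) : phi2 a = diag (v * a * v) := rfl

theorem mu_phi (a : OO) : mu (diag a) = mu (phi2 a) := by
  rw [phi2_apply, mu_diag, mu_diag, vf_conj]

theorem mul_diag_apply (M : M2 OO) (a : OO) (i j : Fin 2) : (M * diag a) i j = M i j * a := by
  rw [CStarMatrix.mul_apply]
  simp only [diag_apply, mul_ite, mul_zero]
  rw [Finset.sum_ite_eq' Finset.univ j]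
  simp

theorem diag_mul_apply (M : M2 OO) (a : OO) (i j : Fin 2) : (diag a * M) i j = a * M i j := by
  rw [CStarMatrix.mul_apply]
  simp only [diag_apply, ite_mul, zero_mul]
  rw [Finset.sum_ite_eq Finset.univ i]
  simp

theorem central (M : M2 OO) : mu (M * diag (pr 0)) = mu (diag (pr 0) * M) := by
  rw [mu_apply, mu_apply, mul_diag_apply, mul_diag_apply, diag_mul_apply, diag_mul_apply]
  have a1 : vf x0 (M 0 0 * pr 0) = 0 := by
    rw [vf_mul_left, pr_nil, inner_zero_right]
  have a2 : vf x0 (pr 0 * M 0 0) = 0 := by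
    rw [vf_mul_left, pr_star, pr_nil, inner_zero_left]
  have a3 : vf x1 (M 1 1 * pr 0) = vf x1 (M 1 1) := by
    rw [vf_mul_left, pr_one, vf_apply]
    change ⟪(star (M 1 1 : FS ℕ →L[ℂ] FS ℕ)) _, _⟫_ℂ = _
    rw [ContinuousLinearMap.star_eq_adjoint, ContinuousLinearMap.adjoint_inner_left]
  have a4 : vf x1 (pr 0 * M 1 1) = vf x1 (M 1 1) := by
    rw [vf_mul_left, pr_star, pr_one, vf_apply]
  rw [a1, a2, a3, a4]

/-- the test matrix -/
def X : M2 OO := CStarMatrix.ofMatrix (Matrix.of fun i j => if i = 0 ∧ j = 0 then t else 0)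

theorem X_apply (i j : Fin 2) : X i j = if i = 0 ∧ j = 0 then t else 0 := rfl

theorem vpv_x0 : ((v * pr 0 * v : OO) : FS ℕ →L[ℂ] FS ℕ) x0 = (1 / 2 : ℂ) • (x0 - x1) := by
  rw [coe_mul_apply, coe_mul_apply, v_x0, map_smul, map_add, pr_nil, pr_one, zero_add, map_smul,
    v_x1, smul_smul, c_sq]

theorem noncentral : mu (X * phi2 (pr 0)) - mu (phi2 (pr 0) * X) = 1 / 4 := by
  classical
  rw [phi2_apply, mu_apply, mu_apply, mul_diag_apply, mul_diag_apply, diag_mul_apply,
    diag_mul_apply, X_apply, X_apply, if_pos ⟨rfl, rfl⟩, if_neg (by decide), zero_mul, mul_zero,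
    map_zero, add_zero, add_zero]
  have b1 : vf x0 (t * (v * pr 0 * v)) = 0 := by
    rw [vf_mul_left, ts_x0, inner_zero_left]
  have b2 : vf x0 (v * pr 0 * v * t) = -(1 / 2) := by
    have hs : star (v * pr 0 * v) = v * pr 0 * v := by
      rw [star_mul, star_mul, star_v, pr_star, mul_assoc]
    rw [vf_mul_left, hs, vpv_x0, t_x0, inner_smul_left, inner_sub_left, inner_bas, inner_bas,
      if_neg (by simp), if_pos rfl]
    simp [Complex.conj_ofNat]
  rw [b1, b2]
  norm_num

theorem main : ∃ ε : ℝ, 0 < ε ∧ ∀ α : M2 OO ≃⋆ₐ[ℂ] M2 OO, (∀ x, mu (α x) = mu x) →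
    ε ≤ ‖phi2 (pr 0) - α (diag (pr 0))‖ := by
  refine ⟨1 / (8 * (‖X‖ + 1)), by positivity, fun α hα => ?_⟩
  set b := phi2 (pr 0) with hb
  set b' := α (diag (pr 0)) with hb'
  have h1 : mu (X * b') = mu (b' * X) := by
    obtain ⟨Y, hY⟩ : ∃ Y, α Y = X := ⟨α.symm X, α.apply_symm_apply X⟩
    rw [hb', ← hY, ← map_mul, ← map_mul, hα, hα, central]
  have h2 : mu (X * (b - b')) - mu ((b - b') * X) = 1 / 4 := by
    rw [mul_sub, sub_mul, map_sub, map_sub, h1, ← noncentral]
    ring
  have h3 : ‖mu (X * (b - b'))‖ ≤ ‖X‖ * ‖b - b'‖ := by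
    refine (mu.le_opNorm _).trans ?_
    rw [mu_state.norm_eq, one_mul]
    exact norm_mul_le _ _
  have h4 : ‖mu ((b - b') * X)‖ ≤ ‖X‖ * ‖b - b'‖ := by
    refine (mu.le_opNorm _).trans ?_
    rw [mu_state.norm_eq, one_mul, mul_comm ‖X‖]
    exact norm_mul_le _ _
  have h5 : (1 / 4 : ℝ) ≤ 2 * (‖X‖ * ‖b - b'‖) := by
    have h6 : ‖(1 / 4 : ℂ)‖ = 1 / 4 := by norm_num
    have h7 := norm_sub_le (mu (X * (b - b'))) (mu ((b - b') * X))
    rw [h2, h6] at h7
    linarith
  rw [div_le_iff₀ (by positivity)]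
  have h8 : 0 ≤ ‖b - b'‖ := norm_nonneg _
  nlinarith [norm_nonneg X]

theorem pis : IsPurelyInfiniteSimple (M2 OO) := by
  refine isPurelyInfiniteSimple_M2 isPurelyInfiniteSimple.infinite
    (fun i => (sys ℕ).s i.val) (fun i => (sys ℕ).iso _) (fun i j hij => (sys ℕ).orth _ _ ?_)
  exact fun h => hij (Fin.ext h)

theorem sep : TopologicalSpace.SeparableSpace (M2 OO) := by
  have := separable
  exact separable_M2

/-- Packaged form. -/
theorem packaged : ∃ (O : Type) (_ : CStarAlgebra O) (s : ℕ → O), IsCuntzInfinity O s ∧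
    ∃ (D : Type) (_ : CStarAlgebra D), TopologicalSpace.SeparableSpace D ∧
      IsPurelyInfiniteSimple D ∧
    ∃ (μ : D →L[ℂ] ℂ) (φ₁ φ₂ : O →⋆ₐ[ℂ] D), IsState μ ∧ (∀ a, μ (φ₁ a) = μ (φ₂ a)) ∧
      ∃ (a : O) (ε : ℝ), 0 < ε ∧ ∀ α : D ≃⋆ₐ[ℂ] D, (∀ x, μ (α x) = μ x) →
        ε ≤ ‖φ₂ a - α (φ₁ a)‖ := by
  obtain ⟨ε, hε, h⟩ := main
  exact ⟨OO, inferInstance, (sys ℕ).s, isCuntzInfinity, M2 OO, inferInstance, sep, pis, mu, diag,
    phi2, mu_state, mu_phi, pr 0, ε, hε, h⟩

end data

end Pool.Agent.X190.Conj
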