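import Pool.Agent.X190.States

/-! Families of isometries with orthogonal ranges generating a C*-algebra. -/

set_option autoImplicit false

namespace Pool.Agent.X190.Cuntz

open scoped ComplexOrder
open Filter Topology Pool.Agent.X190.States

/-- `s` is a family of isometries with pairwise orthogonal ranges generating the unital
C*-algebra `A`. -/
structure CuntzSys (κ : Type*) (A : Type*) [CStarAlgebra A] where
  s : κ → A
  iso : ∀ i, star (s i) * s i = 1
  orth : ∀ i j, i ≠ j → star (s i) * s j = 0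
  dense : (StarAlgebra.adjoin ℂ (Set.range s)).topologicalClosure = ⊤

variable {κ : Type*} {A : Type*} [CStarAlgebra A]

namespace CuntzSys

variable (c : CuntzSys κ A)

/-- words in the generators -/
noncomputable def wd (μ : List κ) : A := (μ.map c.s).prod

@[simp] theorem wd_nil : c.wd [] = 1 := rfl
@[simp] theorem wd_cons (i : κ) (μ : List κ) : c.wd (i :: μ) = c.s i * c.wd μ := by
  simp [wd]

/-- linear span of the words `s_μ s_ν*` -/
noncomputable def W : Submodule ℂ A := Submodule.span ℂ (Set.range fun p : List κ × List κ => c.wd p.1 * star (c.wd p.2))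

theorem mem_W (μ ν : List κ) : c.wd μ * star (c.wd ν) ∈ c.W :=
  Submodule.subset_span ⟨(μ, ν), rfl⟩

theorem one_mem_W : (1 : A) ∈ c.W := by
  simpa using c.mem_W [] []

/-- elements which leave `W` invariant under left multiplication -/
noncomputable def L : Subalgebra ℂ A where
  carrier := {x | ∀ w ∈ c.W, x * w ∈ c.W}
  mul_mem' := by
    intro x y hx hy w hw
    rw [mul_assoc]; exact hx _ (hy _ hw)
  one_mem' := by intro w hw; simpa using hw
  add_mem' := by
    intro x y hx hy w hw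
    rw [add_mul]; exact c.W.add_mem (hx _ hw) (hy _ hw)
  zero_mem' := by intro w hw; rw [zero_mul]; exact c.W.zero_mem
  algebraMap_mem' := by
    intro r w hw
    rw [Algebra.algebraMap_eq_smul_one, smul_mul_assoc, one_mul]
    exact c.W.smul_mem _ hw

theorem mem_L_of {x : A} (h : ∀ μ ν, x * (c.wd μ * star (c.wd ν)) ∈ c.W) : x ∈ c.L := by
  intro w hw
  induction hw using Submodule.span_induction with
  | mem w hw => obtain ⟨⟨μ, ν⟩, rfl⟩ := hw; exact h μ ν
  | zero => rw [mul_zero]; exact c.W.zero_mem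
  | add a b _ _ ha hb => rw [mul_add]; exact c.W.add_mem ha hb
  | smul r a _ ha => rw [mul_smul_comm]; exact c.W.smul_mem _ ha

theorem s_mem_L (i : κ) : c.s i ∈ c.L := by
  apply c.mem_L_of
  intro μ ν
  rw [← mul_assoc, ← wd_cons]
  exact c.mem_W _ _

theorem star_s_mem_L (i : κ) : star (c.s i) ∈ c.L := by
  apply c.mem_L_of
  intro μ ν
  cases μ with
  | nil =>
    have hh : star (c.s i) * (c.wd [] * star (c.wd ν)) = c.wd [] * star (c.wd (ν ++ [i])) := by
      have h2 : c.wd (ν ++ [i]) = c.wd ν * c.s i := by simp [wd]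
      rw [h2, star_mul]; simp
    rw [hh]; exact c.mem_W _ _
  | cons j μ =>
    rw [wd_cons]
    by_cases hij : i = j
    · subst hij
      have : star (c.s i) * (c.s i * c.wd μ * star (c.wd ν)) = c.wd μ * star (c.wd ν) := by
        rw [← mul_assoc, ← mul_assoc, c.iso, one_mul]
      rw [this]; exact c.mem_W _ _
    · have : star (c.s i) * (c.s j * c.wd μ * star (c.wd ν)) = 0 := by
        rw [← mul_assoc, ← mul_assoc, c.orth i j hij, zero_mul, zero_mul]
      rw [this]; exact c.W.zero_mem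

theorem adjoin_le (x : A) (hx : x ∈ StarAlgebra.adjoin ℂ (Set.range c.s)) : x ∈ c.W := by
  have h1 : Algebra.adjoin ℂ (Set.range c.s ∪ star (Set.range c.s)) ≤ c.L := by
    apply Algebra.adjoin_le
    rintro y (⟨i, rfl⟩ | hy)
    · exact c.s_mem_L i
    · obtain ⟨i, hi⟩ := hy
      have : y = star (c.s i) := by rw [hi, star_star]
      rw [this]; exact c.star_s_mem_L i
  have h2 : x ∈ c.L := h1 hx
  simpa using h2 1 c.one_mem_W

theorem dense_W (x : A) : x ∈ closure (c.W : Set A) := by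
  have h : x ∈ (StarAlgebra.adjoin ℂ (Set.range c.s)).topologicalClosure := by
    rw [c.dense]; trivial
  exact closure_mono (fun y hy => c.adjoin_le y hy) h

theorem functional_ext {ω₁ ω₂ : A →L[ℂ] ℂ}
    (h : ∀ μ ν, ω₁ (c.wd μ * star (c.wd ν)) = ω₂ (c.wd μ * star (c.wd ν))) : ω₁ = ω₂ := by
  ext x
  have hcl : IsClosed {x : A | ω₁ x = ω₂ x} := isClosed_eq ω₁.continuous ω₂.continuous
  have hsub : (c.W : Set A) ⊆ {x : A | ω₁ x = ω₂ x} := by
    intro w hw
    change w ∈ c.W at hw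
    induction hw using Submodule.span_induction with
    | mem w hw => obtain ⟨⟨μ, ν⟩, rfl⟩ := hw; exact h μ ν
    | zero => simp
    | add a b _ _ ha hb =>
      simp only [Set.mem_ofPred_eq] at ha hb ⊢
      rw [map_add, map_add, ha, hb]
    | smul r a _ ha =>
      simp only [Set.mem_ofPred_eq] at ha ⊢
      rw [map_smul, map_smul, ha]
  exact closure_minimal hsub hcl (c.dense_W x)

/-- values of a functional `ω` with `ω (s_i x) = δ_{i,i₀} ω x` -/
theorem val_phi {ω : A →L[ℂ] ℂ} (hω : IsState ω) {i₀ : κ} (h0 : ω (c.s i₀) = 1) (i : κ) (y : A) :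
    ω (c.s i * y) = (open Classical in if i = i₀ then ω y else 0) := by
  classical
  have hp : Pos ω := hω.nonneg
  have h1 := hω.map_one
  have hs : ω (star (c.s i₀)) = 1 := by
    have := hp.conj_symm (c.s i₀) 1
    simp only [star_one, one_mul, mul_one] at this
    rw [← this, h0]; simp
  have hz : ω (star (c.s i₀ - 1) * (c.s i₀ - 1)) = 0 := by
    have e : star (c.s i₀ - 1) * (c.s i₀ - 1) = 1 - star (c.s i₀) - c.s i₀ + 1 := by
      rw [star_sub, star_one, sub_mul, mul_sub, mul_sub, c.iso]; noncomm_ring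
    rw [e, map_add, map_sub, map_sub, hs, h0, h1]; ring
  have key : ∀ z, ω (star (c.s i₀) * z) = ω z := by
    intro z
    have := hp.zero_of hz z
    rw [star_sub, star_one, sub_mul, one_mul, map_sub, sub_eq_zero] at this
    exact this
  rw [← key (c.s i * y), ← mul_assoc]
  by_cases h : i = i₀
  · subst h; rw [c.iso, one_mul, if_pos rfl]
  · rw [c.orth i₀ i (fun h' => h h'.symm), zero_mul, map_zero, if_neg h]

theorem unique_phi {ω₁ ω₂ : A →L[ℂ] ℂ} (h₁ : IsState ω₁) (h₂ : IsState ω₂) {i₀ : κ}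
    (e₁ : ω₁ (c.s i₀) = 1) (e₂ : ω₂ (c.s i₀) = 1) : ω₁ = ω₂ := by
  classical
  have hw : ∀ ν : List κ, ω₁ (c.wd ν) = ω₂ (c.wd ν) := by
    intro ν
    induction ν with
    | nil => simp [h₁.map_one, h₂.map_one]
    | cons i ν ih => rw [wd_cons, c.val_phi h₁ e₁, c.val_phi h₂ e₂, ih]
  have hws : ∀ ν : List κ, ω₁ (star (c.wd ν)) = ω₂ (star (c.wd ν)) := by
    intro ν
    have a₁ := Pos.conj_symm (ω := ω₁) h₁.nonneg (c.wd ν) 1
    have a₂ := Pos.conj_symm (ω := ω₂) h₂.nonneg (c.wd ν) 1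
    simp only [star_one, one_mul, mul_one] at a₁ a₂
    rw [← a₁, ← a₂, hw]
  apply c.functional_ext
  intro μ ν
  induction μ with
  | nil => simpa using hws ν
  | cons i μ ih =>
    rw [wd_cons, mul_assoc, c.val_phi h₁ e₁, c.val_phi h₂ e₂, ih]

theorem val_psi {ω : A →L[ℂ] ℂ} (hω : IsState ω) (h0 : ∀ i, ω (c.s i * star (c.s i)) = 0) (i : κ)
    (y : A) : ω (c.s i * y) = 0 := by
  have hp : Pos ω := hω.nonneg
  have := hp.zero_of (x := star (c.s i)) (by rw [star_star]; exact h0 i) y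
  rwa [star_star] at this

theorem unique_psi {ω₁ ω₂ : A →L[ℂ] ℂ} (h₁ : IsState ω₁) (h₂ : IsState ω₂)
    (e₁ : ∀ i, ω₁ (c.s i * star (c.s i)) = 0) (e₂ : ∀ i, ω₂ (c.s i * star (c.s i)) = 0) :
    ω₁ = ω₂ := by
  have hw : ∀ ν : List κ, ω₁ (c.wd ν) = ω₂ (c.wd ν) := by
    intro ν
    cases ν with
    | nil => simp [h₁.map_one, h₂.map_one]
    | cons i ν => rw [wd_cons, c.val_psi h₁ e₁, c.val_psi h₂ e₂]
  have hws : ∀ ν : List κ, ω₁ (star (c.wd ν)) = ω₂ (star (c.wd ν)) := by
    intro ν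
    have a₁ := Pos.conj_symm (ω := ω₁) h₁.nonneg (c.wd ν) 1
    have a₂ := Pos.conj_symm (ω := ω₂) h₂.nonneg (c.wd ν) 1
    simp only [star_one, one_mul, mul_one] at a₁ a₂
    rw [← a₁, ← a₂, hw]
  apply c.functional_ext
  intro μ ν
  cases μ with
  | nil => simpa using hws ν
  | cons i μ =>
    rw [wd_cons, mul_assoc, c.val_psi h₁ e₁, c.val_psi h₂ e₂]

theorem val_word_psi {ω : A →L[ℂ] ℂ} (hω : IsState ω) (h0 : ∀ i, ω (c.s i * star (c.s i)) = 0)
    (y : A) (hy : y ∈ c.W) : ∃ F : Finset κ, ∀ j ∉ F, star (c.s j) * y * c.s j = ω y • (1 : A) := by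
  classical
  induction hy using Submodule.span_induction with
  | mem w hw =>
    obtain ⟨⟨μ, ν⟩, rfl⟩ := hw
    refine ⟨μ.toFinset ∪ ν.toFinset, fun j hj => ?_⟩
    simp only [Finset.mem_union, List.mem_toFinset, not_or] at hj
    cases μ with
    | cons i μ =>
      have hji : j ≠ i := by
        intro h; exact hj.1 (by rw [h]; exact List.mem_cons_self)
      simp only [wd_cons]
      rw [mul_assoc (c.s i), c.val_psi hω h0, zero_smul, ← mul_assoc, c.orth j i hji, zero_mul,
        zero_mul]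
    | nil =>
      cases ν with
      | nil => simp [hω.map_one, c.iso]
      | cons i ν =>
        have hji : i ≠ j := by
          intro h; exact hj.2 (by rw [h]; exact List.mem_cons_self)
        simp only [wd_cons, wd_nil, one_mul]
        have h2 : ω (star (c.s i * c.wd ν)) = 0 := by
          have a₁ := Pos.conj_symm (ω := ω) hω.nonneg (c.s i * c.wd ν) 1
          simp only [star_one, one_mul, mul_one] at a₁
          rw [← a₁, c.val_psi hω h0, map_zero]
        rw [h2, zero_smul, star_mul, mul_assoc, mul_assoc, c.orth i j hji, mul_zero, mul_zero]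
  | zero => exact ⟨∅, fun j _ => by simp⟩
  | add a b _ _ ha hb =>
    obtain ⟨F, hF⟩ := ha
    obtain ⟨G, hG⟩ := hb
    refine ⟨F ∪ G, fun j hj => ?_⟩
    simp only [Finset.mem_union, not_or] at hj
    rw [mul_add, add_mul, hF j hj.1, hG j hj.2, map_add, add_smul]
  | smul r a _ ha =>
    obtain ⟨F, hF⟩ := ha
    refine ⟨F, fun j hj => ?_⟩
    rw [mul_smul_comm, smul_mul_assoc, hF j hj, map_smul, smul_smul, smul_eq_mul]

/-- simplicity -/
theorem simple [Infinite κ] {ω : A →L[ℂ] ℂ} (hω : IsState ω)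
    (h0 : ∀ i, ω (c.s i * star (c.s i)) = 0)
    (hf : ∀ x : A, (∀ w, ω (star (c.wd w) * (star x * x) * c.wd w) = 0) → x = 0)
    (J : TwoSidedIdeal A) : J = ⊥ ∨ J = ⊤ := by
  classical
  by_cases hJ : J = ⊥
  · exact Or.inl hJ
  right
  have hex : ∃ x ∈ J, x ≠ 0 := by
    by_contra hcon
    push Not at hcon
    apply hJ
    ext x
    constructor
    · intro hx; rw [hcon x hx]; exact zero_mem _
    · intro hx
      have : x = 0 := by simpa using hx
      rw [this]; exact zero_mem _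
  obtain ⟨x, hxJ, hx0⟩ := hex
  have hw : ∃ w, ω (star (c.wd w) * (star x * x) * c.wd w) ≠ 0 := by
    by_contra hcon
    push Not at hcon
    exact hx0 (hf x hcon)
  obtain ⟨w, hw⟩ := hw
  set t := ω (star (c.wd w) * (star x * x) * c.wd w) with ht
  set y : A := t⁻¹ • (star (c.wd w) * (star x * x) * c.wd w) with hy
  have hyJ : y ∈ J := by
    have h1 : star (c.wd w) * (star x * x) * c.wd w ∈ J :=
      J.mul_mem_right _ _ (J.mul_mem_left _ _ (J.mul_mem_left _ _ hxJ))
    have h2 : y = (t⁻¹ • (1 : A)) * (star (c.wd w) * (star x * x) * c.wd w) := by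
      rw [smul_mul_assoc, one_mul]
    rw [h2]; exact J.mul_mem_left _ _ h1
  have hy1 : ω y = 1 := by
    rw [hy, map_smul, smul_eq_mul, ← ht, inv_mul_cancel₀ hw]
  obtain ⟨y0, hy0, hd⟩ := Metric.mem_closure_iff.mp (c.dense_W y) (1/4) (by norm_num)
  obtain ⟨F, hF⟩ := c.val_word_psi hω h0 y0 hy0
  obtain ⟨j, hj⟩ := Infinite.exists_notMem_finset F
  have hnt : Nontrivial A := ⟨⟨x, 0, hx0⟩⟩
  have hns : ‖c.s j‖ = 1 := by
    have := CStarRing.norm_star_mul_self (x := c.s j)
    rw [c.iso, CStarRing.norm_one] at this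
    nlinarith [norm_nonneg (c.s j)]
  rw [dist_eq_norm] at hd
  have hn1 : ‖star (c.s j) * y * c.s j - 1‖ < 1 := by
    have e : star (c.s j) * y * c.s j - 1 =
        star (c.s j) * (y - y0) * c.s j + (ω (y0 - y)) • (1 : A) := by
      rw [mul_sub, sub_mul, hF j hj, map_sub, hy1, sub_smul, one_smul]; abel
    have n1 : ‖star (c.s j) * (y - y0) * c.s j‖ ≤ 1/4 := by
      calc ‖star (c.s j) * (y - y0) * c.s j‖ ≤ ‖star (c.s j)‖ * ‖y - y0‖ * ‖c.s j‖ :=
            (norm_mul_le _ _).trans (by gcongr; exact norm_mul_le _ _)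
        _ = ‖y - y0‖ := by rw [norm_star, hns]; ring
        _ ≤ 1/4 := hd.le
    have n2 : ‖(ω (y0 - y)) • (1 : A)‖ ≤ 1/4 := by
      rw [norm_smul, CStarRing.norm_one, mul_one]
      calc ‖ω (y0 - y)‖ ≤ ‖ω‖ * ‖y0 - y‖ := ω.le_opNorm _
        _ = ‖y - y0‖ := by rw [hω.norm_eq, one_mul, norm_sub_rev]
        _ ≤ 1/4 := hd.le
    rw [e]
    calc _ ≤ _ := norm_add_le _ _
      _ ≤ 1/4 + 1/4 := add_le_add n1 n2
      _ < 1 := by norm_num
  have hu : IsUnit (star (c.s j) * y * c.s j) := by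
    have hh := isUnit_one_sub_of_norm_lt_one (x := 1 - star (c.s j) * y * c.s j)
      (by rw [norm_sub_rev]; exact hn1)
    simpa using hh
  obtain ⟨u, hu⟩ := hu
  have huJ : (1 : A) ∈ J := by
    have h3 : star (c.s j) * y * c.s j ∈ J := J.mul_mem_right _ _ (J.mul_mem_left _ _ hyJ)
    have h4 : (1 : A) = (↑u⁻¹ : A) * (star (c.s j) * y * c.s j) := by rw [← hu]; simp
    rw [h4]; exact J.mul_mem_left _ _ h3
  exact J.eq_top huJ

end CuntzSys

end Pool.Agent.X190.Cuntz
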