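import Pool.Agent.X190.Cuntz

/-! The full Fock space model. -/

set_option autoImplicit false

namespace Pool.Agent.X190.Fock

open scoped ComplexOrder InnerProductSpace
open Filter Topology Pool.Agent.X190.States Pool.Agent.X190.Cuntz

universe u

variable (κ : Type u)

/-- full Fock space over `ℓ²(κ)`, as the `ℓ²`-space over the set of words -/
abbrev FS : Type u := lp (fun _ : List κ => ℂ) 2

/-- standard basis -/
noncomputable def bas : HilbertBasis (List κ) ℂ (FS κ) := ⟨LinearIsometryEquiv.refl ℂ _⟩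

variable {κ}

theorem on_cons (i : κ) : Orthonormal ℂ (fun w : List κ => bas κ (i :: w)) :=
  (bas κ).orthonormal.comp (fun w => i :: w) (fun _ _ h => (List.cons.inj h).2)

/-- creation isometry -/
noncomputable def cr (i : κ) : FS κ →ₗᵢ[ℂ] FS κ := (on_cons i).orthogonalFamily.linearIsometry

theorem cr_bas (i : κ) (w : List κ) : cr i (bas κ w) = bas κ (i :: w) := by
  classical
  have h1 : bas κ w = lp.single 2 w (1 : ℂ) := by
    have := (bas κ).repr_symm_single w
    rw [← this]; rfl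
  rw [h1]
  unfold cr
  rw [OrthogonalFamily.linearIsometry_apply_single]
  simp

/-- creation operator -/
noncomputable def S (i : κ) : FS κ →L[ℂ] FS κ := (cr i).toContinuousLinearMap

theorem S_bas (i : κ) (w : List κ) : S i (bas κ w) = bas κ (i :: w) := cr_bas i w

theorem clm_ext {T T' : FS κ →L[ℂ] FS κ} (h : ∀ w, T (bas κ w) = T' (bas κ w)) : T = T' := by
  apply ContinuousLinearMap.ext_on (s := Set.range (bas κ))
  · rw [Submodule.dense_iff_topologicalClosure_eq_top]
    exact (bas κ).dense_span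
  · rintro _ ⟨w, rfl⟩
    exact h w

theorem vec_ext {x y : FS κ} (h : ∀ w, ⟪bas κ w, x⟫_ℂ = ⟪bas κ w, y⟫_ℂ) : x = y := by
  apply (bas κ).repr.injective
  ext w
  rw [(bas κ).repr_apply_apply, (bas κ).repr_apply_apply]
  exact h w

theorem clm_ext' {T T' : FS κ →L[ℂ] FS κ}
    (h : ∀ v w, ⟪bas κ v, T (bas κ w)⟫_ℂ = ⟪bas κ v, T' (bas κ w)⟫_ℂ) : T = T' :=
  clm_ext fun w => vec_ext fun v => h v w

open Classical in
theorem inner_bas (v w : List κ) : ⟪bas κ v, bas κ w⟫_ℂ = if v = w then 1 else 0 :=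
  orthonormal_iff_ite.mp (bas κ).orthonormal v w

theorem S_iso (i : κ) : star (S i) * S i = 1 := by
  classical
  apply clm_ext'
  intro v w
  rw [mul_apply_eq_comp, ContinuousLinearMap.star_eq_adjoint,
    ContinuousLinearMap.adjoint_inner_right, S_bas, S_bas, inner_bas, one_apply_eq_self,
    inner_bas]
  simp

theorem S_orth (i j : κ) (h : i ≠ j) : star (S i) * S j = 0 := by
  classical
  apply clm_ext'
  intro v w
  rw [mul_apply_eq_comp, ContinuousLinearMap.star_eq_adjoint,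
    ContinuousLinearMap.adjoint_inner_right, S_bas, S_bas, inner_bas,
    zero_apply]
  simp [h]

variable (κ) in
/-- the C*-algebra generated by the creation operators -/
noncomputable def AA : StarSubalgebra ℂ (FS κ →L[ℂ] FS κ) :=
  (StarAlgebra.adjoin ℂ (Set.range (S (κ := κ)))).topologicalClosure

instance : IsClosed (AA κ : Set (FS κ →L[ℂ] FS κ)) := StarSubalgebra.isClosed_topologicalClosure _

theorem S_mem (i : κ) : S i ∈ AA κ :=
  StarSubalgebra.le_topologicalClosure _ (StarAlgebra.subset_adjoin ℂ _ ⟨i, rfl⟩)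

/-- generators as elements of the algebra -/
noncomputable def gs (i : κ) : AA κ := ⟨S i, S_mem i⟩

theorem gs_dense : (StarAlgebra.adjoin ℂ (Set.range (gs (κ := κ)))).topologicalClosure = ⊤ := by
  rw [eq_top_iff]
  intro x _
  have hx : (x : FS κ →L[ℂ] FS κ) ∈ closure ((StarAlgebra.adjoin ℂ (Set.range (S (κ := κ))) :
      StarSubalgebra ℂ (FS κ →L[ℂ] FS κ)) : Set (FS κ →L[ℂ] FS κ)) := x.2
  change x ∈ closure ((StarAlgebra.adjoin ℂ (Set.range (gs (κ := κ))) :
      StarSubalgebra ℂ (AA κ)) : Set (AA κ))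
  rw [Topology.IsInducing.subtypeVal.closure_eq_preimage_closure_image]
  change (x : FS κ →L[ℂ] FS κ) ∈ closure (_ : Set (FS κ →L[ℂ] FS κ))
  refine closure_mono ?_ hx
  intro y hy
  have hmap : (StarAlgebra.adjoin ℂ (Set.range (gs (κ := κ)))).map (AA κ).subtype =
      StarAlgebra.adjoin ℂ (Set.range (S (κ := κ))) := by
    rw [StarAlgHom.map_adjoin]
    congr 1
    ext z
    constructor
    · rintro ⟨_, ⟨i, rfl⟩, rfl⟩; exact ⟨i, rfl⟩
    · rintro ⟨i, rfl⟩; exact ⟨gs i, ⟨i, rfl⟩, rfl⟩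
  have hy' : y ∈ (StarAlgebra.adjoin ℂ (Set.range (gs (κ := κ)))).map (AA κ).subtype := by
    rw [hmap]; exact hy
  obtain ⟨z, hz, rfl⟩ := hy'
  exact ⟨z, hz, rfl⟩

variable (κ) in
/-- the system of generators -/
noncomputable def sys : CuntzSys κ (AA κ) where
  s := gs
  iso i := Subtype.ext (S_iso i)
  orth i j h := Subtype.ext (S_orth i j h)
  dense := gs_dense

/-- vector functional -/
noncomputable def vf (ξ : FS κ) : AA κ →L[ℂ] ℂ :=
  ((innerSL ℂ ξ).comp (ContinuousLinearMap.apply ℂ (FS κ) ξ)).comp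
    (⟨(AA κ).subtype.toLinearMap, continuous_subtype_val⟩ : AA κ →L[ℂ] (FS κ →L[ℂ] FS κ))

theorem vf_apply (ξ : FS κ) (x : AA κ) : vf ξ x = ⟪ξ, (x : FS κ →L[ℂ] FS κ) ξ⟫_ℂ := rfl

instance : Nontrivial (AA κ) := by
  refine ⟨⟨1, 0, fun h => ?_⟩⟩
  have h1 : ((1 : AA κ) : FS κ →L[ℂ] FS κ) (bas κ []) = ((0 : AA κ) : FS κ →L[ℂ] FS κ) (bas κ []) := by
    rw [h]
  have h2 : bas κ [] = 0 := by simpa using h1
  have h3 := (bas κ).orthonormal.1 []
  rw [h2] at h3
  simp at h3

theorem vf_state (ξ : FS κ) (h : ‖ξ‖ = 1) : IsState (vf ξ) := by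
  apply isState_of
  · intro b
    rw [vf_apply]
    change 0 ≤ ⟪ξ, (star (b : FS κ →L[ℂ] FS κ) * (b : FS κ →L[ℂ] FS κ)) ξ⟫_ℂ
    rw [mul_apply_eq_comp, ContinuousLinearMap.star_eq_adjoint,
      ContinuousLinearMap.adjoint_inner_right, inner_self_eq_norm_sq_to_K]
    norm_cast
    positivity
  · apply ContinuousLinearMap.opNorm_le_bound _ zero_le_one
    intro x
    rw [vf_apply, one_mul]
    calc ‖⟪ξ, (x : FS κ →L[ℂ] FS κ) ξ⟫_ℂ‖ ≤ ‖ξ‖ * ‖(x : FS κ →L[ℂ] FS κ) ξ‖ := norm_inner_le_norm _ _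
      _ ≤ ‖ξ‖ * (‖(x : FS κ →L[ℂ] FS κ)‖ * ‖ξ‖) := by
          gcongr; exact ContinuousLinearMap.le_opNorm _ _
      _ = ‖x‖ := by rw [h]; simp
  · rw [vf_apply]
    change ⟪ξ, ξ⟫_ℂ = 1
    rw [inner_self_eq_norm_sq_to_K, h]; simp

variable (κ) in
/-- vacuum state -/
noncomputable def vac : AA κ →L[ℂ] ℂ := vf (bas κ [])

theorem vac_state : IsState (vac κ) := vf_state _ ((bas κ).orthonormal.1 _)

theorem vac_gs (i : κ) : vac κ ((sys κ).s i * star ((sys κ).s i)) = 0 := by
  classical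
  unfold vac
  rw [vf_apply]
  change ⟪bas κ [], (S i * star (S i)) (bas κ [])⟫_ℂ = 0
  have : star (S i) (bas κ []) = 0 := by
    apply vec_ext
    intro w
    rw [ContinuousLinearMap.star_eq_adjoint, ContinuousLinearMap.adjoint_inner_right, S_bas,
      inner_bas]
    simp
  rw [mul_apply_eq_comp, this]; simp

theorem wd_bas (w : List κ) :
    (((sys κ).wd w : AA κ) : FS κ →L[ℂ] FS κ) (bas κ []) = bas κ w := by
  induction w with
  | nil => simp
  | cons i w ih =>
    rw [CuntzSys.wd_cons]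
    change S i ((((sys κ).wd w : AA κ) : FS κ →L[ℂ] FS κ) (bas κ [])) = _
    rw [ih, S_bas]

theorem vac_faithful (x : AA κ)
    (hx : ∀ w, vac κ (star ((sys κ).wd w) * (star x * x) * (sys κ).wd w) = 0) : x = 0 := by
  apply Subtype.ext
  apply clm_ext
  intro w
  have h := hx w
  unfold vac at h
  rw [vf_apply] at h
  have e : star ((sys κ).wd w) * (star x * x) * (sys κ).wd w =
      star (x * (sys κ).wd w) * (x * (sys κ).wd w) := by
    rw [star_mul]; noncomm_ring
  rw [e] at h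
  have h2 : ⟪bas κ [], (star ((x * (sys κ).wd w : AA κ) : FS κ →L[ℂ] FS κ) *
      ((x * (sys κ).wd w : AA κ) : FS κ →L[ℂ] FS κ)) (bas κ [])⟫_ℂ = 0 := h
  rw [mul_apply_eq_comp, ContinuousLinearMap.star_eq_adjoint,
      ContinuousLinearMap.adjoint_inner_right, inner_self_eq_zero] at h2
  have h3 : (x : FS κ →L[ℂ] FS κ) ((((sys κ).wd w : AA κ) : FS κ →L[ℂ] FS κ) (bas κ [])) = 0 := h2
  rw [wd_bas] at h3
  rw [h3]; simp

theorem AA_simple [Infinite κ] (J : TwoSidedIdeal (AA κ)) : J = ⊥ ∨ J = ⊤ :=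
  (sys κ).simple vac_state vac_gs vac_faithful J

theorem inner_sum_bas (f : ℕ → List κ) (n : ℕ) (hf : Function.Injective f) :
    ⟪∑ k ∈ Finset.range n, bas κ (f k), ∑ k ∈ Finset.range n, bas κ (f k)⟫_ℂ = n := by
  classical
  rw [sum_inner]
  have : ∀ k ∈ Finset.range n, ⟪bas κ (f k), ∑ l ∈ Finset.range n, bas κ (f l)⟫_ℂ = 1 := by
    intro k hk
    rw [inner_sum]
    simp only [inner_bas, hf.eq_iff]
    rw [Finset.sum_ite_eq]
    simp [hk]
  rw [Finset.sum_congr rfl this]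
  simp

/-- existence of a state with value one at a generator -/
theorem exists_phi (i₀ : κ) : ∃ φ : AA κ →L[ℂ] ℂ, IsState φ ∧ φ ((sys κ).s i₀) = 1 := by
  classical
  set e : ℕ → List κ := fun k => List.replicate k i₀ with he
  have hinj : Function.Injective e := by
    intro a b hab
    have := congrArg List.length hab
    simpa [he] using this
  set ζ : ℕ → FS κ := fun n => ∑ k ∈ Finset.range (n + 1), bas κ (e k) with hζ
  have hζn : ∀ n, ‖ζ n‖ = Real.sqrt (n + 1) := by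
    intro n
    have h1 := inner_sum_bas (κ := κ) e (n + 1) hinj
    change ⟪ζ n, ζ n⟫_ℂ = _ at h1
    rw [inner_self_eq_norm_sq_to_K] at h1
    have h2 : ‖ζ n‖ ^ 2 = (n : ℝ) + 1 := by
      have h2' := congrArg Complex.re h1
      have h2'' : ((‖ζ n‖ : ℂ) ^ 2).re = ‖ζ n‖ ^ 2 := by norm_cast
      have h2''' : (((n + 1 : ℕ) : ℂ)).re = (n : ℝ) + 1 := by push_cast; simp
      rw [h2'''] at h2'
      exact h2''.symm.trans h2'
    rw [← h2, Real.sqrt_sq (norm_nonneg _)]
  set ξ : ℕ → FS κ := fun n => (((Real.sqrt (n + 1))⁻¹ : ℝ) : ℂ) • ζ n with hξ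
  have hpos : ∀ n : ℕ, 0 < Real.sqrt (n + 1) := fun n => Real.sqrt_pos.2 (by positivity)
  have hξn : ∀ n, ‖ξ n‖ = 1 := by
    intro n
    rw [hξ]
    simp only
    rw [norm_smul, hζn, Complex.norm_real, Real.norm_of_nonneg (by positivity),
      inv_mul_cancel₀ (hpos n).ne']
  have hval : ∀ n : ℕ, vf (ξ n) ((sys κ).s i₀) = ((n : ℝ) / (n + 1) : ℝ) := by
    intro n
    rw [vf_apply]
    change ⟪ξ n, S i₀ (ξ n)⟫_ℂ = _
    rw [hξ]
    simp only
    rw [map_smul, inner_smul_left, inner_smul_right, Complex.conj_ofReal, ← mul_assoc,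
      ← Complex.ofReal_mul]
    have h3 : S i₀ (ζ n) = ∑ k ∈ Finset.range (n + 1), bas κ (e (k + 1)) := by
      rw [hζ]
      simp only [map_sum, S_bas]
      rfl
    have h4 : ⟪ζ n, S i₀ (ζ n)⟫_ℂ = n := by
      rw [h3, inner_sum]
      have h5 : ∀ k ∈ Finset.range (n + 1), ⟪ζ n, bas κ (e (k + 1))⟫_ℂ = if k < n then 1 else 0 := by
        intro k hk
        rw [hζ]
        simp only
        rw [sum_inner]
        simp only [inner_bas, hinj.eq_iff]
        rw [Finset.sum_ite_eq']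
        simp
      rw [Finset.sum_congr rfl h5, Finset.sum_range_succ]
      rw [Finset.sum_congr rfl (g := fun _ => (1 : ℂ)) (by
        intro k hk; rw [if_pos (Finset.mem_range.1 hk)])]
      simp
    rw [h4, ← mul_inv, Real.mul_self_sqrt (by positivity)]
    push_cast
    ring
  obtain ⟨ω, hω, hlim⟩ := exists_limit (Filter.hyperfilter ℕ) (fun n => vf (ξ n))
    (fun n => (vf_state _ (hξn n)).norm_eq.le)
  refine ⟨ω, isState_of (pos_of_tendsto (fun n => (vf_state _ (hξn n)).nonneg) hlim) hω ?_, ?_⟩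
  · refine tendsto_nhds_unique (hlim 1) ?_
    have : ∀ n, vf (ξ n) 1 = 1 := fun n => (vf_state _ (hξn n)).map_one
    simp only [this]
    exact tendsto_const_nhds
  · refine tendsto_nhds_unique (hlim _) ?_
    simp only [hval]
    have h6 : Tendsto (fun n : ℕ => ((n : ℝ) / (n + 1) : ℝ)) (Filter.hyperfilter ℕ) (𝓝 1) :=
      (tendsto_natCast_div_add_atTop (1 : ℝ)).mono_left Nat.hyperfilter_le_atTop
    have h7 := (Complex.continuous_ofReal.tendsto 1).comp h6
    refine (h7.congr fun n => ?_)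
    rfl

end Pool.Agent.X190.Fock
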