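import Pool.Agent.X190.States

/-! Reduced free products: words, modular pairs, and the span of the left kernel. -/

set_option autoImplicit false

namespace Pool.Agent.X190.FreeProd

open scoped ComplexOrder
open Filter Topology Pool.Agent.X190.States

/-- `(A, φ)` with the unital *-homomorphisms `e j : D j → A` is the reduced free product (Avitzour,
Voiculescu) of the `(D j, t j)`: `φ` is a state, it restricts to `t j` on the copy of `D j`, the
copies are free with respect to `φ` (alternating products of centred elements have expectation
zero), they generate `A` as a C*-algebra, and the GNS representation of `φ` is faithful. -/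
structure IsRedFreeProd {J : Type} (D : J → Type) [∀ j, CStarAlgebra (D j)]
    (t : ∀ j, D j →L[ℂ] ℂ) {A : Type} [CStarAlgebra A] (φ : A →L[ℂ] ℂ)
    (e : ∀ j, D j →⋆ₐ[ℂ] A) : Prop where
  state : IsState φ
  restrict : ∀ j x, φ (e j x) = t j x
  free : ∀ w : List (Σ j, D j), w ≠ [] → w.IsChain (fun a b => a.1 ≠ b.1) →
    (∀ z ∈ w, t z.1 z.2 = 0) → φ ((w.map fun z => e z.1 z.2).prod) = 0
  gen : (StarAlgebra.adjoin ℂ (⋃ j, Set.range (e j))).topologicalClosure = ⊤
  gns : ∀ a, (∀ x, φ (star (a * x) * (a * x)) = 0) → a = 0

/-- The left kernel, its adjoint and `1` span a dense subspace. -/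
def Pdense {A : Type*} [CStarAlgebra A] (φ : A →L[ℂ] ℂ) : Prop :=
  (Submodule.span ℂ {x : A | x = 1 ∨ φ (star x * x) = 0 ∨ φ (x * star x) = 0}).topologicalClosure
    = ⊤

section general

variable {A : Type*} [CStarAlgebra A]

theorem zero_right {φ : A →L[ℂ] ℂ} (h : IsState φ) {x : A} (hx : φ (star x * x) = 0) (y : A) :
    φ (y * x) = 0 := by
  have hp : Pos φ := h.nonneg
  have h1 := hp.zero_of hx (star y)
  have h2 := hp.conj_symm x (star y)
  rw [h1, star_star] at h2
  exact (map_eq_zero _).1 h2

theorem zero_left {φ : A →L[ℂ] ℂ} (h : IsState φ) {x : A} (hx : φ (x * star x) = 0) (y : A) :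
    φ (x * y) = 0 := by
  have hp : Pos φ := h.nonneg
  have h1 := hp.zero_of (x := star x) (by rwa [star_star]) y
  rwa [star_star] at h1

/-- If the left kernel, its adjoint and `1` span a dense subspace, then there is no nontrivial
modular pair. -/
theorem modular_trivial {φ : A →L[ℂ] ℂ} (h : IsState φ) (hP : Pdense φ) {b b' : A}
    (hb : ∀ x, φ (x * b) = φ (b' * x)) (x : A) : φ (x * b) = φ b * φ x := by
  let g : A →L[ℂ] ℂ := φ.comp ((ContinuousLinearMap.mul ℂ A).flip b) - φ b • φ
  have hg : ∀ y, g y = φ (y * b) - φ b * φ y := fun y => by
    simp [g]
  have hker : ∀ y ∈ Submodule.span ℂ {x : A | x = 1 ∨ φ (star x * x) = 0 ∨ φ (x * star x) = 0},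
      g y = 0 := by
    intro y hy
    induction hy using Submodule.span_induction with
    | mem y hy =>
      rw [hg]
      rcases hy with rfl | hy | hy
      · rw [one_mul, h.map_one, mul_one, sub_self]
      · rw [hb, zero_right h hy b']
        have := zero_right h hy 1
        rw [one_mul] at this
        rw [this, mul_zero, sub_zero]
      · rw [zero_left h hy b]
        have := zero_left h hy 1
        rw [mul_one] at this
        rw [this, mul_zero, sub_zero]
    | zero => exact map_zero g
    | add y z _ _ hy hz => rw [map_add, hy, hz, add_zero]
    | smul r y _ hy => rw [map_smul, hy, smul_zero]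
  have hcl : x ∈ closure (Submodule.span ℂ
      {x : A | x = 1 ∨ φ (star x * x) = 0 ∨ φ (x * star x) = 0} : Set A) := by
    have h1 : x ∈ (Submodule.span ℂ
      {x : A | x = 1 ∨ φ (star x * x) = 0 ∨ φ (x * star x) = 0}).topologicalClosure := by
      unfold Pdense at hP
      rw [hP]; trivial
    exact h1
  have h2 : Set.EqOn g (fun _ => (0 : ℂ)) (closure (Submodule.span ℂ
      {x : A | x = 1 ∨ φ (star x * x) = 0 ∨ φ (x * star x) = 0} : Set A)) :=
    Set.EqOn.closure (fun y hy => hker y hy) g.continuous continuous_const
  have h3 : g x = 0 := h2 hcl
  rw [hg] at h3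
  exact sub_eq_zero.1 h3

/-- `Pdense` is invariant under state preserving isomorphisms. -/
theorem Pdense.iso {B : Type*} [CStarAlgebra B] {φ : A →L[ℂ] ℂ} {ψ : B →L[ℂ] ℂ}
    (hP : Pdense φ) (θ : A ≃⋆ₐ[ℂ] B) (hθ : ∀ x, ψ (θ x) = φ x) : Pdense ψ := by
  have hθc : Continuous θ := (NonUnitalStarAlgHom.isometry θ θ.injective).continuous
  unfold Pdense at hP ⊢
  rw [eq_top_iff]
  intro y _
  obtain ⟨x, rfl⟩ := θ.surjective y
  have hx : x ∈ closure (Submodule.span ℂ
      {x : A | x = 1 ∨ φ (star x * x) = 0 ∨ φ (x * star x) = 0} : Set A) := by
    have : x ∈ (Submodule.span ℂ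
      {x : A | x = 1 ∨ φ (star x * x) = 0 ∨ φ (x * star x) = 0}).topologicalClosure := by
      rw [hP]; trivial
    exact this
  refine map_mem_closure hθc hx ?_
  intro z hz
  change z ∈ Submodule.span ℂ _ at hz
  change θ z ∈ Submodule.span ℂ _
  induction hz using Submodule.span_induction with
  | mem z hz =>
    refine Submodule.subset_span ?_
    rcases hz with rfl | hz | hz
    · exact Or.inl (map_one θ)
    · right; left
      rw [← map_star, ← map_mul, hθ, hz]
    · right; right
      rw [← map_star, ← map_mul, hθ, hz]
  | zero => rw [map_zero]; exact zero_mem _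
  | add y z _ _ hy hz => rw [map_add]; exact add_mem hy hz
  | smul r y _ hy => rw [map_smul]; exact Submodule.smul_mem _ _ hy

end general

section words

variable {J : Type} {D : J → Type} [∀ j, CStarAlgebra (D j)] {t : ∀ j, D j →L[ℂ] ℂ} {A : Type}
  [CStarAlgebra A] {φ : A →L[ℂ] ℂ} {e : ∀ j, D j →⋆ₐ[ℂ] A}

/-- value of a word -/
noncomputable def val (e : ∀ j, D j →⋆ₐ[ℂ] A) (w : List (Σ j, D j)) : A :=
  (w.map fun z => e z.1 z.2).prod

@[simp] theorem val_nil : val e [] = 1 := rfl
@[simp] theorem val_cons (z : Σ j, D j) (w : List (Σ j, D j)) : val e (z :: w) = e z.1 z.2 * val e w := by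
  simp [val]
theorem val_append (w w' : List (Σ j, D j)) : val e (w ++ w') = val e w * val e w' := by
  simp [val]

/-- admissible words -/
def Adm (t : ∀ j, D j →L[ℂ] ℂ) (w : List (Σ j, D j)) : Prop :=
  w.IsChain (fun a b => a.1 ≠ b.1) ∧ ∀ z ∈ w, t z.1 z.2 = 0

theorem Adm.tail {z : Σ j, D j} {w : List (Σ j, D j)} (h : Adm t (z :: w)) : Adm t w :=
  ⟨h.1.tail, fun y hy => h.2 y (List.mem_cons_of_mem _ hy)⟩

/-- span of the words -/
noncomputable def CW (t : ∀ j, D j →L[ℂ] ℂ) (e : ∀ j, D j →⋆ₐ[ℂ] A) : Submodule ℂ A :=
  Submodule.span ℂ (val e '' {w | Adm t w})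

theorem val_mem {w : List (Σ j, D j)} (h : Adm t w) : val e w ∈ CW t e :=
  Submodule.subset_span ⟨w, h, rfl⟩

theorem one_mem : (1 : A) ∈ CW t e := val_mem (w := []) ⟨List.isChain_nil, by simp⟩

theorem e_split (j : J) (x : D j) : e j x = e j (x - t j x • 1) + t j x • 1 := by
  rw [map_sub, map_smul, map_one, sub_add_cancel]

theorem t_centre (ht : ∀ j, t j 1 = 1) (j : J) (x : D j) : t j (x - t j x • 1) = 0 := by
  rw [map_sub, map_smul, ht, smul_eq_mul, mul_one, sub_self]

theorem e_mul_mem (ht : ∀ j, t j 1 = 1) (j : J) (x : D j) {m : A} (hm : m ∈ CW t e) :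
    e j x * m ∈ CW t e := by
  classical
  induction hm using Submodule.span_induction with
  | mem m hm =>
    obtain ⟨w, hw, rfl⟩ := hm
    cases w with
    | nil =>
      rw [val_nil, mul_one, e_split j x]
      refine add_mem ?_ (Submodule.smul_mem _ _ one_mem)
      have : e j (x - t j x • 1) = val e [⟨j, x - t j x • 1⟩] := by simp
      rw [this]
      exact val_mem ⟨List.isChain_singleton _, by simpa using t_centre ht j x⟩
    | cons z w =>
      by_cases hz : z.1 = j
      · obtain ⟨k, y⟩ := z
        simp only at hz
        subst hz
        have h1 : e k x * val e (⟨k, y⟩ :: w) = val e (⟨k, x * y - t k (x * y) • 1⟩ :: w) +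
            t k (x * y) • val e w := by
          simp only [val_cons]
          rw [← mul_assoc, ← map_mul, e_split k (x * y), add_mul, smul_mul_assoc, one_mul]
        rw [h1]
        refine add_mem (val_mem ⟨?_, ?_⟩) (Submodule.smul_mem _ _ (val_mem hw.tail))
        · have := hw.1
          cases w with
          | nil => exact List.isChain_singleton _
          | cons z' w =>
            rw [List.isChain_cons_cons] at this ⊢
            exact this
        · intro z' hz'
          rcases List.mem_cons.1 hz' with rfl | hz'
          · exact t_centre ht k (x * y)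
          · exact hw.2 z' (List.mem_cons_of_mem _ hz')
      · have h1 : e j x * val e (z :: w) = val e (⟨j, x - t j x • 1⟩ :: z :: w) +
            t j x • val e (z :: w) := by
          rw [val_cons (⟨j, x - t j x • 1⟩ : Σ j, D j), e_split j x, add_mul, smul_mul_assoc,
            one_mul]
        rw [h1]
        refine add_mem (val_mem ⟨?_, ?_⟩) (Submodule.smul_mem _ _ (val_mem hw))
        · rw [List.isChain_cons_cons]
          exact ⟨fun h => hz h.symm, hw.1⟩
        · intro z' hz'
          rcases List.mem_cons.1 hz' with rfl | hz'
          · exact t_centre ht j x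
          · exact hw.2 z' hz'
  | zero => rw [mul_zero]; exact zero_mem _
  | add a b _ _ ha hb => rw [mul_add]; exact add_mem ha hb
  | smul r a _ ha => rw [mul_smul_comm]; exact Submodule.smul_mem _ _ ha

/-- elements which leave `CW` invariant -/
noncomputable def LW (t : ∀ j, D j →L[ℂ] ℂ) (e : ∀ j, D j →⋆ₐ[ℂ] A) : Subalgebra ℂ A where
  carrier := {x | ∀ m ∈ CW t e, x * m ∈ CW t e}
  mul_mem' := by
    intro x y hx hy w hw
    rw [mul_assoc]; exact hx _ (hy _ hw)
  one_mem' := by intro w hw; simpa using hw
  add_mem' := by
    intro x y hx hy w hw
    rw [add_mul]; exact add_mem (hx _ hw) (hy _ hw)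
  zero_mem' := by intro w hw; rw [zero_mul]; exact zero_mem _
  algebraMap_mem' := by
    intro r w hw
    rw [Algebra.algebraMap_eq_smul_one, smul_mul_assoc, one_mul]
    exact Submodule.smul_mem _ _ hw

theorem adjoin_le (ht : ∀ j, t j 1 = 1) (x : A)
    (hx : x ∈ StarAlgebra.adjoin ℂ (⋃ j, Set.range (e j))) : x ∈ CW t e := by
  have h1 : x ∈ Algebra.adjoin ℂ ((⋃ j, Set.range (e j)) ∪ star (⋃ j, Set.range (e j))) := by
    have := hx
    rwa [← StarSubalgebra.mem_toSubalgebra, StarAlgebra.adjoin_toSubalgebra] at this
  have h2 : Algebra.adjoin ℂ ((⋃ j, Set.range (e j)) ∪ star (⋃ j, Set.range (e j))) ≤ LW t e := by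
    refine Algebra.adjoin_le ?_
    rintro y (hy | hy)
    · obtain ⟨j, z, rfl⟩ := Set.mem_iUnion.1 hy
      exact fun m hm => e_mul_mem ht j z hm
    · obtain ⟨j, z, hz⟩ := Set.mem_iUnion.1 hy
      have : y = e j (star z) := by rw [map_star, hz, star_star]
      rw [this]
      exact fun m hm => e_mul_mem ht j (star z) hm
  have h3 := h2 h1 1 one_mem
  rwa [mul_one] at h3

theorem dense_CW (ht : ∀ j, t j 1 = 1)
    (hgen : (StarAlgebra.adjoin ℂ (⋃ j, Set.range (e j))).topologicalClosure = ⊤) (x : A) :
    x ∈ closure (CW t e : Set A) := by
  have h1 : x ∈ (StarAlgebra.adjoin ℂ (⋃ j, Set.range (e j))).topologicalClosure := by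
    rw [hgen]; trivial
  exact closure_mono (fun y hy => adjoin_le ht y hy) h1

theorem IsRedFreeProd.t_one (h : IsRedFreeProd D t φ e) (j : J) : t j 1 = 1 := by
  rw [← h.restrict, map_one, h.state.map_one]

theorem IsRedFreeProd.free' (h : IsRedFreeProd D t φ e) {w : List (Σ j, D j)} (hne : w ≠ [])
    (hw : Adm t w) : φ (val e w) = 0 := h.free w hne hw.1 hw.2

theorem IsRedFreeProd.functional_ext (h : IsRedFreeProd D t φ e) {f g : A →L[ℂ] ℂ}
    (hfg : ∀ w, Adm t w → f (val e w) = g (val e w)) : f = g := by
  have h1 : ∀ y ∈ CW t e, f y = g y := by
    intro y hy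
    induction hy using Submodule.span_induction with
    | mem y hy =>
      obtain ⟨w, hw, rfl⟩ := hy
      exact hfg w hw
    | zero => rw [map_zero, map_zero]
    | add y z _ _ hy hz => rw [map_add, map_add, hy, hz]
    | smul r y _ hy => rw [map_smul, map_smul, hy]
  ext x
  have h2 : Set.EqOn f g (closure (CW t e : Set A)) :=
    Set.EqOn.closure (fun y hy => h1 y hy) f.continuous g.continuous
  exact h2 (dense_CW h.t_one h.gen x)

/-- right multiplication of a word by a centred element -/
theorem word_mul_right (h : IsRedFreeProd D t φ e) {j : J} {b : D j} (hb : t j b = 0) :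
    ∀ w : List (Σ j, D j), Adm t w → (∀ y : D j, w ≠ [⟨j, y⟩]) → φ (val e w * e j b) = 0 := by
  classical
  intro w hw hne
  rcases List.eq_nil_or_concat w with rfl | ⟨w', z, rfl⟩
  · rw [val_nil, one_mul, h.restrict, hb]
  · rw [List.concat_eq_append] at hw hne ⊢
    by_cases hz : z.1 = j
    · obtain ⟨k, y⟩ := z
      simp only at hz
      subst hz
      have hw' : w' ≠ [] := by
        rintro rfl
        exact hne y rfl
      have hadm' : Adm t w' := ⟨(List.isChain_append.1 hw.1).1,
        fun z hz => hw.2 z (List.mem_append_left _ hz)⟩
      have e1 : val e (w' ++ [⟨k, y⟩]) * e k b =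
          val e (w' ++ [⟨k, y * b - t k (y * b) • 1⟩]) + t k (y * b) • val e w' := by
        simp only [val_append, val_cons, val_nil, mul_one]
        rw [mul_assoc, ← map_mul, e_split k (y * b), mul_add, mul_smul_comm, mul_one]
      rw [e1, map_add, map_smul, h.free' hw' hadm', smul_zero, add_zero]
      refine h.free' (by simp) ⟨?_, ?_⟩
      · have := hw.1
        rw [List.isChain_append] at this ⊢
        refine ⟨this.1, List.isChain_singleton _, ?_⟩
        intro a ha c hc
        have h3 := this.2.2 a ha ⟨k, y⟩ (by simp)
        simp only [List.head?_cons, Option.mem_def, Option.some.injEq] at hc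
        rw [← hc]
        exact h3
      · intro z hz
        rcases List.mem_append.1 hz with hz | hz
        · exact hadm'.2 z hz
        · rw [List.mem_singleton] at hz
          subst hz
          exact t_centre h.t_one k (y * b)
    · have e1 : val e (w' ++ [z]) * e j b = val e ((w' ++ [z]) ++ [⟨j, b⟩]) := by
        rw [val_append (w' ++ [z])]
        simp
      rw [e1]
      refine h.free' (by simp) ⟨?_, ?_⟩
      · rw [List.isChain_append]
        refine ⟨hw.1, List.isChain_singleton _, ?_⟩
        intro a ha c hc
        simp only [List.getLast?_append, List.getLast?_singleton, Option.some_or, Option.mem_def,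
          Option.some.injEq] at ha
        simp only [List.head?_cons, Option.mem_def, Option.some.injEq] at hc
        rw [← ha, ← hc]
        exact hz
      · intro y hy
        rcases List.mem_append.1 hy with hy | hy
        · exact hw.2 y hy
        · rw [List.mem_singleton] at hy
          subst hy
          exact hb

/-- left multiplication of a word by a centred element -/
theorem word_mul_left (h : IsRedFreeProd D t φ e) {j : J} {b : D j} (hb : t j b = 0) :
    ∀ w : List (Σ j, D j), Adm t w → (∀ y : D j, w ≠ [⟨j, y⟩]) → φ (e j b * val e w) = 0 := by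
  classical
  intro w hw hne
  cases w with
  | nil => rw [val_nil, mul_one, h.restrict, hb]
  | cons z w =>
    by_cases hz : z.1 = j
    · obtain ⟨k, y⟩ := z
      simp only at hz
      subst hz
      have hw' : w ≠ [] := by
        rintro rfl
        exact hne y rfl
      have e1 : e k b * val e (⟨k, y⟩ :: w) = val e (⟨k, b * y - t k (b * y) • 1⟩ :: w) +
          t k (b * y) • val e w := by
        simp only [val_cons]
        rw [← mul_assoc, ← map_mul, e_split k (b * y), add_mul, smul_mul_assoc, one_mul]
      rw [e1, map_add, map_smul, h.free' hw' hw.tail, smul_zero, add_zero]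
      refine h.free' (by simp) ⟨?_, ?_⟩
      · have := hw.1
        cases w with
        | nil => exact List.isChain_singleton _
        | cons z' w =>
          rw [List.isChain_cons_cons] at this ⊢
          exact this
      · intro z' hz'
        rcases List.mem_cons.1 hz' with rfl | hz'
        · exact t_centre h.t_one k (b * y)
        · exact hw.2 z' (List.mem_cons_of_mem _ hz')
    · have e1 : e j b * val e (z :: w) = val e (⟨j, b⟩ :: z :: w) := by
        rw [val_cons (⟨j, b⟩ : Σ j, D j)]
      rw [e1]
      refine h.free' (by simp) ⟨?_, ?_⟩
      · rw [List.isChain_cons_cons]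
        exact ⟨fun h => hz h.symm, hw.1⟩
      · intro z' hz'
        rcases List.mem_cons.1 hz' with rfl | hz'
        · exact hb
        · exact hw.2 z' hz'

/-- Modular pairs of a factor are modular pairs of the free product. -/
theorem modular (h : IsRedFreeProd D t φ e) {j : J} {b b' : D j}
    (hb : ∀ x, t j (x * b) = t j (b' * x)) (x : A) : φ (x * e j b) = φ (e j b' * x) := by
  have h1 : t j b = t j b' := by simpa using hb 1
  set c := b - t j b • (1 : D j) with hc
  set c' := b' - t j b' • (1 : D j) with hc'
  have hc0 : t j c = 0 := t_centre h.t_one j b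
  have hc0' : t j c' = 0 := t_centre h.t_one j b'
  have hcc : ∀ y, t j (y * c) = t j (c' * y) := by
    intro y
    rw [hc, hc', mul_sub, sub_mul, map_sub, map_sub, hb, mul_smul_comm, smul_mul_assoc, mul_one,
      one_mul, h1]
  let f : A →L[ℂ] ℂ := φ.comp ((ContinuousLinearMap.mul ℂ A).flip (e j c))
  let g : A →L[ℂ] ℂ := φ.comp (ContinuousLinearMap.mul ℂ A (e j c'))
  have hf : ∀ y, f y = φ (y * e j c) := fun y => by simp [f]
  have hg : ∀ y, g y = φ (e j c' * y) := fun y => by simp [g]
  have hfg : f = g := by
    refine h.functional_ext fun w hw => ?_
    rw [hf, hg]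
    by_cases hs : ∃ y : D j, w = [⟨j, y⟩]
    · obtain ⟨y, rfl⟩ := hs
      simp only [val_cons, val_nil, mul_one]
      rw [← map_mul, ← map_mul, h.restrict, h.restrict, hcc]
    · push Not at hs
      rw [word_mul_right h hc0 w hw hs, word_mul_left h hc0' w hw hs]
  have h2 : φ (x * e j c) = φ (e j c' * x) := by rw [← hf, ← hg, hfg]
  have eb : e j b = e j c + t j b • 1 := e_split j b
  have eb' : e j b' = e j c' + t j b' • 1 := e_split j b'
  rw [eb, eb', mul_add, add_mul, map_add, map_add, h2, mul_smul_comm, smul_mul_assoc, mul_one,
    one_mul, h1]

theorem star_val (w : List (Σ j, D j)) :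
    star (val e w) = val e ((w.map fun z => (⟨z.1, star z.2⟩ : Σ j, D j)).reverse) := by
  induction w with
  | nil => simp
  | cons z w ih =>
    rw [val_cons, star_mul, ih, List.map_cons, List.reverse_cons, val_append, val_cons, val_nil,
      mul_one, map_star]

/-- The property `Pdense` passes from the factors to the free product. -/
theorem pdense (h : IsRedFreeProd D t φ e) (hst : ∀ j, IsState (t j)) (hP : ∀ j, Pdense (t j)) :
    Pdense φ := by
  classical
  unfold Pdense
  set V := (Submodule.span ℂ
    {x : A | x = 1 ∨ φ (star x * x) = 0 ∨ φ (x * star x) = 0}).topologicalClosure with hV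
  have hVc : IsClosed (V : Set A) := Submodule.isClosed_topologicalClosure _
  have hsub : ∀ x : A, (x = 1 ∨ φ (star x * x) = 0 ∨ φ (x * star x) = 0) → x ∈ V := fun x hx =>
    Submodule.le_topologicalClosure _ (Submodule.subset_span hx)
  have hword : ∀ w, Adm t w → val e w ∈ V := by
    intro w hw
    cases w with
    | nil => exact hsub _ (Or.inl rfl)
    | cons z w =>
      obtain ⟨j, x⟩ := z
      have htx : t j x = 0 := hw.2 ⟨j, x⟩ List.mem_cons_self
      have hec : Continuous (e j) := by
        have : ∀ y, ‖e j y‖ ≤ 1 * ‖y‖ := fun y => by
          rw [one_mul]; exact NonUnitalStarAlgHom.norm_apply_le (e j) y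
        exact AddMonoidHomClass.continuous_of_bound (e j) 1 this
      let T : D j → A := fun y => e j (y - t j y • 1) * val e w
      have hTc : Continuous T := by
        have : Continuous fun y : D j => y - t j y • (1 : D j) := by fun_prop
        exact (hec.comp this).mul continuous_const
      have hTV : ∀ y, T y ∈ V := by
        intro y
        have hy : y ∈ closure (Submodule.span ℂ
            {x : D j | x = 1 ∨ t j (star x * x) = 0 ∨ t j (x * star x) = 0} : Set (D j)) := by
          have h1 : y ∈ (Submodule.span ℂ
            {x : D j | x = 1 ∨ t j (star x * x) = 0 ∨ t j (x * star x) = 0}).topologicalClosure := by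
            have := hP j
            unfold Pdense at this
            rw [this]; trivial
          exact h1
        have h2 : T y ∈ closure (V : Set A) := by
          refine map_mem_closure hTc hy ?_
          intro x hx
          change x ∈ Submodule.span ℂ _ at hx
          change T x ∈ V
          induction hx using Submodule.span_induction with
          | mem x hx =>
            rcases hx with rfl | hx | hx
            · have : T 1 = 0 := by
                simp only [T]
                rw [(hst j).map_one, one_smul, sub_self, map_zero, zero_mul]
              rw [this]; exact zero_mem _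
            · have h3 : t j x = 0 := by
                have := zero_right (hst j) hx 1
                rwa [one_mul] at this
              have h4 : T x = e j x * val e w := by
                simp only [T]
                rw [h3, zero_smul, sub_zero]
              rw [h4]
              refine hsub _ (Or.inr (Or.inl ?_))
              have h5 : star (e j x * val e w) * (e j x * val e w) =
                  val e (((w.map fun z => (⟨z.1, star z.2⟩ : Σ j, D j)).reverse) ++
                    (⟨j, star x * x⟩ :: w)) := by
                rw [val_append, val_cons, ← star_val, star_mul, map_mul, map_star]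
                simp only [mul_assoc]
              rw [h5]
              refine h.free' (by simp) ⟨?_, ?_⟩
              · rw [List.isChain_append]
                have hch : (List.map (fun z => (⟨z.1, star z.2⟩ : Σ j, D j)) w).IsChain
                    (fun a b => a.1 ≠ b.1) := by
                  rw [List.isChain_map]
                  exact hw.1.tail
                refine ⟨?_, ?_, ?_⟩
                · rw [List.isChain_reverse]
                  exact hch.imp fun a b hab => Ne.symm hab
                · have := hw.1
                  cases w with
                  | nil => exact List.isChain_singleton _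
                  | cons z' w =>
                    rw [List.isChain_cons_cons] at this ⊢
                    exact this
                · intro a ha c hc
                  simp only [List.head?_cons, Option.mem_def, Option.some.injEq] at hc
                  subst hc
                  simp only
                  cases w with
                  | nil => simp at ha
                  | cons z' w =>
                    have h6 := hw.1
                    rw [List.isChain_cons_cons] at h6
                    simp only [List.map_cons, List.reverse_cons, List.getLast?_append,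
                      List.getLast?_singleton, Option.some_or, Option.mem_def,
                      Option.some.injEq] at ha
                    rw [← ha]
                    exact Ne.symm h6.1
              · intro z hz
                rcases List.mem_append.1 hz with hz | hz
                · rw [List.mem_reverse, List.mem_map] at hz
                  obtain ⟨z', hz', rfl⟩ := hz
                  have h7 := hw.2 z' (List.mem_cons_of_mem _ hz')
                  have hp : Pos (t z'.1) := (hst z'.1).nonneg
                  have h8 := hp.conj_symm z'.2 1
                  rw [star_one, one_mul, mul_one, h7, map_zero] at h8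
                  exact h8.symm
                · rcases List.mem_cons.1 hz with rfl | hz
                  · exact hx
                  · exact hw.2 z (List.mem_cons_of_mem _ hz)
            · have h3 : t j x = 0 := by
                have := zero_left (hst j) hx 1
                rwa [mul_one] at this
              have h4 : T x = e j x * val e w := by
                simp only [T]
                rw [h3, zero_smul, sub_zero]
              rw [h4]
              refine hsub _ (Or.inr (Or.inr ?_))
              have h5 : φ (e j x * star (e j x)) = 0 := by
                rw [← map_star, ← map_mul, h.restrict, hx]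
              rw [mul_assoc]
              exact zero_left h.state h5 _
          | zero =>
            have : T 0 = 0 := by simp [T]
            rw [this]; exact zero_mem _
          | add x y _ _ hx hy =>
            have : T (x + y) = T x + T y := by
              simp only [T]
              rw [← add_mul, ← map_add, map_add (t j), add_smul]
              congr 2
              abel
            rw [this]; exact add_mem hx hy
          | smul r x _ hx =>
            have : T (r • x) = r • T x := by
              simp only [T]
              rw [map_smul (t j), smul_eq_mul, mul_smul, ← smul_sub, map_smul, smul_mul_assoc]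
            rw [this]; exact Submodule.smul_mem _ _ hx
        rwa [hVc.closure_eq] at h2
      have h3 := hTV x
      simp only [T] at h3
      rw [htx, zero_smul, sub_zero] at h3
      rw [val_cons]
      exact h3
  rw [eq_top_iff]
  intro y _
  have hle : (CW t e : Set A) ⊆ V := by
    have : CW t e ≤ V := by
      refine Submodule.span_le.2 ?_
      rintro _ ⟨w, hw, rfl⟩
      exact hword w hw
    exact this
  have h1 := closure_mono hle (dense_CW h.t_one h.gen y)
  rwa [hVc.closure_eq] at h1

end words

end Pool.Agent.X190.FreeProd
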