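import Pool.Agent.X190.Fock
import Pool.Agent.X190.FreeProd

/-! The Cuntz algebra `O_∞`: separable, simple, purely infinite; its vacuum state. -/

set_option autoImplicit false

namespace Pool.Agent.X190.Cuntz

open scoped ComplexOrder
open Filter Topology Pool.Agent.X190.States Pool.Agent.X190.FreeProd

variable {κ : Type*} {A : Type*} [CStarAlgebra A]

namespace CuntzSys

variable (c : CuntzSys κ A)

/-- pure infiniteness -/
theorem pureInf [Infinite κ] {ω : A →L[ℂ] ℂ} (hω : IsState ω)
    (h0 : ∀ i, ω (c.s i * star (c.s i)) = 0)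
    (hf : ∀ x : A, (∀ w, ω (star (c.wd w) * (star x * x) * c.wd w) = 0) → x = 0)
    (x : A) (hx0 : x ≠ 0) : ∃ a b, a * x * b = 1 := by
  classical
  have hw : ∃ w, ω (star (c.wd w) * (star x * x) * c.wd w) ≠ 0 := by
    by_contra hcon
    push Not at hcon
    exact hx0 (hf x hcon)
  obtain ⟨w, hw⟩ := hw
  set t := ω (star (c.wd w) * (star x * x) * c.wd w) with ht
  set y : A := t⁻¹ • (star (c.wd w) * (star x * x) * c.wd w) with hy
  have hy1 : ω y = 1 := by
    rw [hy, map_smul, smul_eq_mul, ← ht, inv_mul_cancel₀ hw]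
  obtain ⟨y0, hy0, hd⟩ := Metric.mem_closure_iff.mp (c.dense_W y) (1/4) (by norm_num)
  obtain ⟨F, hF⟩ := c.val_word_psi hω h0 y0 hy0
  obtain ⟨j, hj⟩ := Infinite.exists_notMem_finset F
  have hnt : Nontrivial A := ⟨⟨x, 0, hx0⟩⟩
  have hns : ‖c.s j‖ = 1 := by
    have := CStarRing.norm_star_mul_self (x := c.s j)
    rw [c.iso, CStarRing.norm_one] at this
    nlinarith [norm_nonneg (c.s j)]
  rw [dist_eq_norm] at hd
  have hn1 : ‖star (c.s j) * y * c.s j - 1‖ < 1 := by
    have e : star (c.s j) * y * c.s j - 1 =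
        star (c.s j) * (y - y0) * c.s j + (ω (y0 - y)) • (1 : A) := by
      rw [mul_sub, sub_mul, hF j hj, map_sub, hy1, sub_smul, one_smul]; abel
    have n1 : ‖star (c.s j) * (y - y0) * c.s j‖ ≤ 1/4 := by
      calc ‖star (c.s j) * (y - y0) * c.s j‖ ≤ ‖star (c.s j)‖ * ‖y - y0‖ * ‖c.s j‖ :=
            (norm_mul_le _ _).trans (by gcongr; exact norm_mul_le _ _)
        _ = ‖y - y0‖ := by rw [norm_star, hns]; ring
        _ ≤ 1/4 := hd.le
    have n2 : ‖(ω (y0 - y)) • (1 : A)‖ ≤ 1/4 := by
      rw [norm_smul, CStarRing.norm_one, mul_one]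
      calc ‖ω (y0 - y)‖ ≤ ‖ω‖ * ‖y0 - y‖ := ω.le_opNorm _
        _ = ‖y - y0‖ := by rw [hω.norm_eq, one_mul, norm_sub_rev]
        _ ≤ 1/4 := hd.le
    rw [e]
    calc _ ≤ _ := norm_add_le _ _
      _ ≤ 1/4 + 1/4 := add_le_add n1 n2
      _ < 1 := by norm_num
  have hu : IsUnit (star (c.s j) * y * c.s j) := by
    have hh := isUnit_one_sub_of_norm_lt_one (x := 1 - star (c.s j) * y * c.s j)
      (by rw [norm_sub_rev]; exact hn1)
    simpa using hh
  obtain ⟨u, hu⟩ := hu
  refine ⟨(↑u⁻¹ : A) * star (c.s j) * (t⁻¹ • (star (c.wd w) * star x)), c.wd w * c.s j, ?_⟩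
  have h4 : (1 : A) = (↑u⁻¹ : A) * (star (c.s j) * y * c.s j) := by rw [← hu]; simp
  rw [h4, hy]
  simp only [mul_assoc, smul_mul_assoc, mul_smul_comm]

theorem star_wd_wd (μ : List κ) : star (c.wd μ) * c.wd μ = 1 := by
  induction μ with
  | nil => simp
  | cons i μ ih =>
    rw [wd_cons, star_mul]
    calc star (c.wd μ) * star (c.s i) * (c.s i * c.wd μ)
        = star (c.wd μ) * (star (c.s i) * c.s i) * c.wd μ := by noncomm_ring
      _ = 1 := by rw [c.iso, mul_one, ih]

/-- for a state which vanishes on all `s_i s_i*`, the left kernel, its adjoint and `1` span a dense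
subspace -/
theorem pdense_of {ω : A →L[ℂ] ℂ} (hω : IsState ω) (h0 : ∀ i, ω (c.s i * star (c.s i)) = 0) :
    Pdense ω := by
  unfold Pdense
  rw [eq_top_iff]
  intro x _
  have hle : c.W ≤ Submodule.span ℂ {x : A | x = 1 ∨ ω (star x * x) = 0 ∨ ω (x * star x) = 0} := by
    refine Submodule.span_le.2 ?_
    rintro _ ⟨⟨μ, ν⟩, rfl⟩
    refine Submodule.subset_span ?_
    have key : ∀ (i : κ) (ν : List κ), ω (c.wd (i :: ν) * star (c.wd (i :: ν))) = 0 := by
      intro i ν
      rw [wd_cons, mul_assoc]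
      exact c.val_psi hω h0 i _
    cases ν with
    | nil =>
      cases μ with
      | nil => left; simp
      | cons i μ =>
        right; right
        simp only [wd_nil, star_one, mul_one]
        exact key i μ
    | cons i ν =>
      right; left
      simp only
      have e : star (c.wd μ * star (c.wd (i :: ν))) * (c.wd μ * star (c.wd (i :: ν))) =
          c.wd (i :: ν) * star (c.wd (i :: ν)) := by
        rw [star_mul, star_star]
        calc c.wd (i :: ν) * star (c.wd μ) * (c.wd μ * star (c.wd (i :: ν)))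
            = c.wd (i :: ν) * (star (c.wd μ) * c.wd μ) * star (c.wd (i :: ν)) := by noncomm_ring
          _ = _ := by rw [c.star_wd_wd, mul_one]
      rw [e]
      exact key i ν
  exact closure_mono hle (c.dense_W x)

include c in
theorem separable [Countable κ] : TopologicalSpace.SeparableSpace A := by
  have h1 : TopologicalSpace.IsSeparable (c.W : Set A) :=
    (Set.countable_range _).isSeparable.span
  have h2 : (Set.univ : Set A) = closure (c.W : Set A) :=
    (Set.eq_univ_of_forall c.dense_W).symm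
  rw [← TopologicalSpace.isSeparable_univ_iff, h2]
  exact h1.closure

end CuntzSys

end Pool.Agent.X190.Cuntz

namespace Pool.Agent.X190.Fock

open scoped ComplexOrder InnerProductSpace
open Filter Topology Pool.Agent.X190.States Pool.Agent.X190.Cuntz Pool.Agent.X190.FreeProd

variable {κ : Type}

theorem pureInf [Infinite κ] (x : AA κ) (hx : x ≠ 0) : ∃ a b, a * x * b = 1 :=
  (sys κ).pureInf vac_state vac_gs vac_faithful x hx

theorem vac_pdense : Pdense (vac κ) := (sys κ).pdense_of vac_state vac_gs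

/-- the mixture of the vector states of the vacuum and of `δ_i` -/
noncomputable def mix (i : κ) : AA κ →L[ℂ] ℂ := (1 / 2 : ℂ) • (vac κ + vf (bas κ [i]))

theorem mix_apply (i : κ) (x : AA κ) : mix i x = (1 / 2) * (vac κ x + vf (bas κ [i]) x) := rfl

theorem mix_state (i : κ) : IsState (mix i) := by
  have h1 := vac_state (κ := κ)
  have h2 := vf_state (κ := κ) (bas κ [i]) ((bas κ).orthonormal.1 _)
  apply isState_of
  · intro b
    rw [mix_apply]
    have := add_nonneg (h1.nonneg b) (h2.nonneg b)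
    have h3 : (0 : ℂ) ≤ 1 / 2 := by
      have : (0 : ℂ) ≤ ((1 / 2 : ℝ) : ℂ) := Complex.zero_le_real.2 (by norm_num)
      simpa using this
    exact mul_nonneg h3 this
  · apply ContinuousLinearMap.opNorm_le_bound _ zero_le_one
    intro x
    rw [mix_apply, one_mul, norm_mul]
    have e1 := (vac κ).le_opNorm x
    have e2 := (vf (bas κ [i])).le_opNorm x
    rw [h1.norm_eq, one_mul] at e1
    rw [h2.norm_eq, one_mul] at e2
    have e3 := norm_add_le (vac κ x) (vf (bas κ [i]) x)
    have e4 : ‖(1 / 2 : ℂ)‖ = 1 / 2 := by norm_num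
    rw [e4]
    linarith
  · rw [mix_apply, h1.map_one, h2.map_one]
    norm_num

/-- the range projection of the `i`-th generator -/
noncomputable def pr (i : κ) : AA κ := (sys κ).s i * star ((sys κ).s i)

theorem star_S_nil (i : κ) : star (S i) (bas κ []) = 0 := by
  classical
  apply vec_ext
  intro w
  rw [ContinuousLinearMap.star_eq_adjoint, ContinuousLinearMap.adjoint_inner_right, S_bas,
    inner_bas]
  simp

theorem star_S_cons (i : κ) : star (S i) (bas κ [i]) = bas κ [] := by
  classical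
  apply vec_ext
  intro w
  rw [ContinuousLinearMap.star_eq_adjoint, ContinuousLinearMap.adjoint_inner_right, S_bas,
    inner_bas, inner_bas]
  simp

theorem pr_nil (i : κ) : ((pr i : AA κ) : FS κ →L[ℂ] FS κ) (bas κ []) = 0 := by
  change (S i * star (S i)) (bas κ []) = 0
  rw [mul_apply_eq_comp, star_S_nil, map_zero]

theorem pr_one (i : κ) : ((pr i : AA κ) : FS κ →L[ℂ] FS κ) (bas κ [i]) = bas κ [i] := by
  change (S i * star (S i)) (bas κ [i]) = bas κ [i]
  rw [mul_apply_eq_comp, star_S_cons, S_bas]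

theorem pr_star (i : κ) : star (pr i) = pr i := by
  unfold pr
  rw [star_mul, star_star]

theorem pr_mul (i : κ) : pr i * pr i = pr i := by
  unfold pr
  calc _ = (sys κ).s i * (star ((sys κ).s i) * (sys κ).s i) * star ((sys κ).s i) := by noncomm_ring
    _ = _ := by rw [(sys κ).iso, mul_one]

theorem vf_mul_left (ξ : FS κ) (x y : AA κ) :
    vf ξ (x * y) = ⟪((star x : AA κ) : FS κ →L[ℂ] FS κ) ξ, (y : FS κ →L[ℂ] FS κ) ξ⟫_ℂ := by
  rw [vf_apply]
  change ⟪ξ, (x : FS κ →L[ℂ] FS κ) ((y : FS κ →L[ℂ] FS κ) ξ)⟫_ℂ =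
    ⟪(star (x : FS κ →L[ℂ] FS κ)) ξ, (y : FS κ →L[ℂ] FS κ) ξ⟫_ℂ
  rw [ContinuousLinearMap.star_eq_adjoint, ContinuousLinearMap.adjoint_inner_left]

theorem mix_central (i : κ) (x : AA κ) : mix i (x * pr i) = mix i (pr i * x) := by
  rw [mix_apply, mix_apply]
  have a1 : vac κ (x * pr i) = 0 := by
    unfold vac
    rw [vf_mul_left, pr_nil, inner_zero_right]
  have a2 : vac κ (pr i * x) = 0 := by
    unfold vac
    rw [vf_mul_left, pr_star, pr_nil, inner_zero_left]
  have a3 : vf (bas κ [i]) (x * pr i) = vf (bas κ [i]) x := by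
    rw [vf_mul_left, pr_one, vf_apply]
    change ⟪(star (x : FS κ →L[ℂ] FS κ)) _, _⟫_ℂ = _
    rw [ContinuousLinearMap.star_eq_adjoint, ContinuousLinearMap.adjoint_inner_left]
  have a4 : vf (bas κ [i]) (pr i * x) = vf (bas κ [i]) x := by
    rw [vf_mul_left, pr_star, pr_one, vf_apply]
  rw [a1, a2, a3, a4]

theorem mix_pr (i : κ) : mix i (pr i) = 1 / 2 := by
  rw [mix_apply]
  have a1 : vac κ (pr i) = 0 := by
    unfold vac
    rw [vf_apply, pr_nil, inner_zero_right]
  have a2 : vf (bas κ [i]) (pr i) = 1 := by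
    classical
    rw [vf_apply, pr_one, inner_bas, if_pos rfl]
  rw [a1, a2]
  norm_num

end Pool.Agent.X190.Fock
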