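import Pool.Agent.X190.FreeProdEx
import Pool.Agent.X190.Oinf

/-! Reduced free products of two algebras, and the invariant. -/

set_option autoImplicit false

namespace Pool.Agent.X190.FreeProd

open scoped ComplexOrder
open Filter Topology Pool.Agent.X190.States

/-- `(E, φ)` with the unital *-homomorphisms `i : A → E` and `k : B → E` is the reduced free product
(Avitzour, Voiculescu) of `(A, α)` and `(B, β)`: `φ` is a state, it restricts to `α` and `β` on the
two copies, the copies are free with respect to `φ` (alternating products of centred elements have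
expectation zero), they generate `E` as a C*-algebra, and the GNS representation of `φ` is
faithful. -/
structure IsRedFreeProd₂ {A B E : Type} [CStarAlgebra A] [CStarAlgebra B] [CStarAlgebra E]
    (α : A →L[ℂ] ℂ) (β : B →L[ℂ] ℂ) (φ : E →L[ℂ] ℂ) (i : A →⋆ₐ[ℂ] E) (k : B →⋆ₐ[ℂ] E) :
    Prop where
  state : IsState φ
  restrict_left : ∀ x, φ (i x) = α x
  restrict_right : ∀ x, φ (k x) = β x
  free : ∀ w : List (A ⊕ B), w ≠ [] → w.IsChain (fun a b => a.isLeft ≠ b.isLeft) →
    (∀ z ∈ w, Sum.elim α β z = 0) → φ ((w.map (Sum.elim i k)).prod) = 0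
  gen : (StarAlgebra.adjoin ℂ (Set.range i ∪ Set.range k)).topologicalClosure = ⊤
  gns : ∀ a, (∀ x, φ (star (a * x) * (a * x)) = 0) → a = 0

section two

variable {A B E : Type} [CStarAlgebra A] [CStarAlgebra B] [CStarAlgebra E]
    {α : A →L[ℂ] ℂ} {β : B →L[ℂ] ℂ} {φ : E →L[ℂ] ℂ} {i : A →⋆ₐ[ℂ] E} {k : B →⋆ₐ[ℂ] E}

/-- the family -/
def FD (A B : Type) : Bool → Type
  | true => A
  | false => B

/-- its instance -/
instance instFD : ∀ b, CStarAlgebra (FD A B b)
  | true => inferInstanceAs (CStarAlgebra A)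
  | false => inferInstanceAs (CStarAlgebra B)

/-- its states -/
def Ft (α : A →L[ℂ] ℂ) (β : B →L[ℂ] ℂ) : ∀ b, FD A B b →L[ℂ] ℂ
  | true => α
  | false => β

/-- its embeddings -/
def Fe (i : A →⋆ₐ[ℂ] E) (k : B →⋆ₐ[ℂ] E) : ∀ b, FD A B b →⋆ₐ[ℂ] E
  | true => i
  | false => k

/-- letters -/
def toSum : (Σ b, FD A B b) → A ⊕ B
  | ⟨true, x⟩ => Sum.inl x
  | ⟨false, x⟩ => Sum.inr x

omit [CStarAlgebra A] [CStarAlgebra B] in
theorem toSum_isLeft (z : Σ b, FD A B b) : (toSum z).isLeft = z.1 := by
  rcases z with ⟨_ | _, x⟩ <;> rfl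

theorem IsRedFreeProd₂.toFam (h : IsRedFreeProd₂ α β φ i k) :
    IsRedFreeProd (FD A B) (Ft α β) φ (Fe i k) := by
  refine ⟨h.state, ?_, ?_, ?_, h.gns⟩
  · rintro (_ | _) x
    · exact h.restrict_right x
    · exact h.restrict_left x
  · intro w hne hc hz
    have := h.free (w.map toSum) (by simpa using hne) (by
      rw [List.isChain_map]
      exact hc.imp fun a b hab => by rw [toSum_isLeft, toSum_isLeft]; exact hab) (by
      intro z hz'
      obtain ⟨y, hy, rfl⟩ := List.mem_map.1 hz'
      have := hz y hy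
      rcases y with ⟨_ | _, x⟩ <;> exact this)
    rw [List.map_map] at this
    convert this using 4
    funext z
    rcases z with ⟨_ | _, x⟩ <;> rfl
  · have : (⋃ b, Set.range (Fe i k b)) = Set.range i ∪ Set.range k := by
      ext x
      rw [Set.mem_iUnion]
      constructor
      · rintro ⟨_ | _, hx⟩
        · exact Or.inr hx
        · exact Or.inl hx
      · rintro (hx | hx)
        · exact ⟨true, hx⟩
        · exact ⟨false, hx⟩
    rw [this]; exact h.gen

/-- the converse letters -/
def ofSum : A ⊕ B → (Σ b, FD A B b)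
  | Sum.inl x => ⟨true, x⟩
  | Sum.inr x => ⟨false, x⟩

theorem IsRedFreeProd.toTwo {φ : E →L[ℂ] ℂ} {e : ∀ b, FD A B b →⋆ₐ[ℂ] E}
    (h : IsRedFreeProd (FD A B) (Ft α β) φ e) :
    IsRedFreeProd₂ α β φ (e true : A →⋆ₐ[ℂ] E) (e false : B →⋆ₐ[ℂ] E) := by
  refine ⟨h.state, h.restrict true, h.restrict false, ?_, ?_, h.gns⟩
  · intro w hne hc hz
    have := h.free (w.map ofSum) (by simpa using hne) (by
      rw [List.isChain_map]
      exact hc.imp fun a b hab => by
        rcases a with a | a <;> rcases b with b | b <;> simp [ofSum] at hab ⊢) (by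
      intro z hz'
      obtain ⟨y, hy, rfl⟩ := List.mem_map.1 hz'
      have := hz y hy
      rcases y with y | y <;> exact this)
    rw [List.map_map] at this
    convert this using 4
    funext z
    rcases z with z | z <;> rfl
  · have : (⋃ b, Set.range (e b)) = Set.range (e true) ∪ Set.range (e false) := by
      ext x
      rw [Set.mem_iUnion]
      constructor
      · rintro ⟨_ | _, hx⟩
        · exact Or.inr hx
        · exact Or.inl hx
      · rintro (hx | hx)
        · exact ⟨true, hx⟩
        · exact ⟨false, hx⟩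
    have hg := h.gen
    rw [this] at hg
    exact hg

end two

theorem exists_redFreeProd₂ (A B : Type) [CStarAlgebra A] [CStarAlgebra B]
    (α : A →L[ℂ] ℂ) (β : B →L[ℂ] ℂ) (hα : IsState α) (hβ : IsState β) :
    ∃ (E : Type) (_ : CStarAlgebra E) (φ : E →L[ℂ] ℂ) (i : A →⋆ₐ[ℂ] E) (k : B →⋆ₐ[ℂ] E),
      IsRedFreeProd₂ α β φ i k := by
  obtain ⟨E, iE, φ, e, h⟩ := exists_redFreeProd (FD A B) (Ft α β) (by
    rintro (_ | _)
    · exact hβ
    · exact hα)
  exact ⟨E, iE, φ, _, _, h.toTwo⟩

/-- If a factor contains an element of the centraliser of its state which is not a scalar modulo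
null elements, the free product state does not have the property `Pdense`. -/
theorem not_pdense {J : Type} {D : J → Type} [∀ j, CStarAlgebra (D j)] {t : ∀ j, D j →L[ℂ] ℂ}
    {A : Type} [CStarAlgebra A] {φ : A →L[ℂ] ℂ} {e : ∀ j, D j →⋆ₐ[ℂ] A}
    (h : IsRedFreeProd D t φ e) {j : J} {b : D j} (hb : ∀ x, t j (x * b) = t j (b * x))
    (hne : t j (star b * b) ≠ t j b * t j (star b)) : ¬ Pdense φ := by
  intro hP
  have h1 := modular_trivial h.state hP (modular h hb) (e j (star b))
  rw [← map_mul, h.restrict, h.restrict, h.restrict] at h1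
  exact hne h1

end Pool.Agent.X190.FreeProd
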