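import Pool.Agent.X190.FreeProd
import Pool.Agent.H205R2.FZ.FZ_EXL
import Pool.Agent.H205R2.FZ.FZ_EXC
import Pool.Agent.H205R2.FZ.FZ_EXG
import Pool.Agent.H923R2.FZ.EXF
import Pool.Agent.H821R6.FZ_AMP

/-! Existence of reduced free products of arbitrary states. -/

set_option autoImplicit false

noncomputable section

namespace Pool.Agent.X190.FreeProd

open scoped ComplexOrder ComplexConjugate
open Filter Topology Pool.Agent.X190.States Pool.Agent.H923R2.FZ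

/-- the positive functional of a state -/
noncomputable def posf (D : Type) [CStarAlgebra D] [PartialOrder D] [StarOrderedRing D]
    (t : D →L[ℂ] ℂ) (h : IsState t) : D →ₚ[ℂ] ℂ :=
  PositiveLinearMap.mk₀ (t : D →ₗ[ℂ] ℂ) (by
    intro x hx
    obtain ⟨y, rfl⟩ := CStarAlgebra.nonneg_iff_eq_star_mul_self.mp hx
    exact h.nonneg y)

set_option synthInstance.maxHeartbeats 400000 in
/-- GNS representation on `ℓ²(Option I)` with cyclic vector `δ_none` -/
theorem exists_gns (D : Type) [CStarAlgebra D] (t : D →L[ℂ] ℂ) (ht : IsState t) :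
    ∃ (I : Type) (lam : D →⋆ₐ[ℂ] (l2 (Option I) →L[ℂ] l2 (Option I))),
      (∀ x, inner ℂ (dl2 (none : Option I)) (lam x (dl2 none)) = t x) ∧
      ∀ ξ : l2 (Option I), (∀ x, inner ℂ ξ (lam x (dl2 none)) = 0) → ξ = 0 := by
  classical
  let _ : PartialOrder D := CStarAlgebra.spectralOrder D
  have _ : StarOrderedRing D := CStarAlgebra.spectralOrderedRing D
  let f : D →ₚ[ℂ] ℂ := posf D t ht
  have hf : ∀ x, f x = t x := fun _ => rfl
  let ζ : f.GNS := ((f.toPreGNS 1 : f.PreGNS) : f.GNS)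
  have hpi : ∀ x, f.gnsStarAlgHom x ζ = ((f.toPreGNS x : f.PreGNS) : f.GNS) := by
    intro x
    show f.gnsNonUnitalStarAlgHom x ((f.toPreGNS 1 : f.PreGNS) : f.GNS) = _
    rw [PositiveLinearMap.gnsNonUnitalStarAlgHom_apply_coe,
      PositiveLinearMap.leftMulMapPreGNS_apply]
    simp
  have hin : ∀ x y, inner ℂ ((f.toPreGNS x : f.PreGNS) : f.GNS) ((f.toPreGNS y : f.PreGNS) : f.GNS)
      = t (star x * y) := by
    intro x y
    rw [UniformSpace.Completion.inner_coe, PositiveLinearMap.preGNS_inner_def]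
    rfl
  have hnorm : ‖ζ‖ = 1 := by
    have h1 : inner ℂ ζ ζ = (1 : ℂ) := by
      rw [hin]
      simp [ht.map_one]
    rw [inner_self_eq_norm_sq_to_K] at h1
    have h2 : ((‖ζ‖ ^ 2 : ℝ) : ℂ) = 1 := by
      rw [← h1]
      push_cast
      rfl
    have h3 : ‖ζ‖ ^ 2 = 1 := by
      have h4 := congrArg Complex.re h2
      rwa [Complex.ofReal_re, Complex.one_re] at h4
    nlinarith [norm_nonneg ζ]
  have hon : Orthonormal ℂ ((↑) : ({ζ} : Set f.GNS) → f.GNS) := by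
    refine ⟨?_, ?_⟩
    · rintro ⟨x, hx⟩
      rw [Set.mem_singleton_iff] at hx
      subst hx
      exact hnorm
    · rintro ⟨x, hx⟩ ⟨y, hy⟩ hxy
      exfalso
      apply hxy
      rw [Set.mem_singleton_iff] at hx hy
      subst hx
      exact Subtype.ext hy.symm
  obtain ⟨s, b, hs, hb⟩ := hon.exists_hilbertBasis_extension
  have hζs : ζ ∈ s := hs rfl
  let z0 : s := ⟨ζ, hζs⟩
  let I : Type := {x : s // x ≠ z0}
  let eq : Option I ≃ s := Equiv.optionSubtypeNe z0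
  let v : Option I → f.GNS := fun o => b (eq o)
  have hvo : Orthonormal ℂ v := b.orthonormal.comp eq eq.injective
  have hrange : Set.range v = Set.range b := eq.surjective.range_comp b
  let b' : HilbertBasis (Option I) ℂ f.GNS := HilbertBasis.mk hvo (by
    rw [hrange]
    exact b.dense_span.ge)
  have hb' : ∀ o, b' o = v o := fun o => congrFun (HilbertBasis.coe_mk hvo _) o
  have hnone : b' none = ζ := by
    rw [hb']
    show b (eq none) = ζ
    have : eq none = z0 := Equiv.optionSubtypeNe_none z0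
    rw [this, hb]
  let U : f.GNS ≃ₗᵢ[ℂ] l2 (Option I) := b'.repr
  have hU : U ζ = dl2 none := by
    show b'.repr ζ = _
    rw [← hnone]
    have := b'.repr_self none
    rw [this]
    exact T_EXG.single_eq_dl2 _
  have hUs : U.symm (dl2 none) = ζ := by
    rw [← hU, LinearIsometryEquiv.symm_apply_apply]
  refine ⟨I, (U.conjStarAlgEquiv : (f.GNS →L[ℂ] f.GNS) →⋆ₐ[ℂ] _).comp f.gnsStarAlgHom, ?_, ?_⟩
  · intro x
    show inner ℂ (dl2 none) (U.conjStarAlgEquiv (f.gnsStarAlgHom x) (dl2 none)) = _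
    rw [LinearIsometryEquiv.conjStarAlgEquiv_apply_apply, hUs, ← hU,
      LinearIsometryEquiv.inner_map_map, hpi, hin]
    simp
  · intro ξ h
    have h1 : ∀ x, inner ℂ (U.symm ξ) ((f.toPreGNS x : f.PreGNS) : f.GNS) = 0 := by
      intro x
      have h2 := h x
      change inner ℂ ξ (U.conjStarAlgEquiv (f.gnsStarAlgHom x) (dl2 none)) = 0 at h2
      rw [LinearIsometryEquiv.conjStarAlgEquiv_apply_apply, hUs, hpi] at h2
      rw [← LinearIsometryEquiv.inner_map_map U, LinearIsometryEquiv.apply_symm_apply]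
      exact h2
    have h3 : ∀ y : f.GNS, inner ℂ (U.symm ξ) y = 0 := by
      intro y
      induction y using UniformSpace.Completion.induction_on with
      | hp => exact isClosed_eq (by fun_prop) (by fun_prop)
      | ih a => exact h1 (f.ofPreGNS a)
    have h4 : U.symm ξ = 0 := inner_self_eq_zero.mp (h3 _)
    have h5 := congrArg U h4
    rwa [LinearIsometryEquiv.apply_symm_apply, map_zero] at h5

section gen

variable {H : Type} [NormedAddCommGroup H] [InnerProductSpace ℂ H] [CompleteSpace H]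
  {K : Type} {D : K → Type} [∀ k, CStarAlgebra (D k)]

/-- the dense subalgebra -/
def S0 (Lam : ∀ k, D k →⋆ₐ[ℂ] (H →L[ℂ] H)) : StarSubalgebra ℂ (H →L[ℂ] H) :=
  StarAlgebra.adjoin ℂ (⋃ k, Set.range (Lam k))

/-- its closure -/
def MM (Lam : ∀ k, D k →⋆ₐ[ℂ] (H →L[ℂ] H)) : StarSubalgebra ℂ (H →L[ℂ] H) :=
  (S0 Lam).topologicalClosure

instance MM_closed (Lam : ∀ k, D k →⋆ₐ[ℂ] (H →L[ℂ] H)) :
    IsClosed ((MM Lam : StarSubalgebra ℂ (H →L[ℂ] H)) : Set (H →L[ℂ] H)) :=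
  (S0 Lam).isClosed_topologicalClosure

/-- vector functional -/
noncomputable def vfm (Ω : H) (Lam : ∀ k, D k →⋆ₐ[ℂ] (H →L[ℂ] H)) : MM Lam →L[ℂ] ℂ :=
  ((innerSL ℂ Ω).comp (ContinuousLinearMap.apply ℂ H Ω)).comp
    (⟨(MM Lam).subtype.toLinearMap, continuous_subtype_val⟩ : MM Lam →L[ℂ] (H →L[ℂ] H))

theorem vfm_apply (Ω : H) (Lam : ∀ k, D k →⋆ₐ[ℂ] (H →L[ℂ] H)) (x : MM Lam) :
    vfm Ω Lam x = inner ℂ Ω ((x : H →L[ℂ] H) Ω) := rfl

theorem vfm_star_mul (Ω : H) (Lam : ∀ k, D k →⋆ₐ[ℂ] (H →L[ℂ] H)) (x : MM Lam) :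
    vfm Ω Lam (star x * x) = inner ℂ ((x : H →L[ℂ] H) Ω) ((x : H →L[ℂ] H) Ω) := by
  rw [vfm_apply]
  change inner ℂ Ω ((star (x : H →L[ℂ] H) * (x : H →L[ℂ] H)) Ω) = _
  rw [mul_apply_eq_comp, ContinuousLinearMap.star_eq_adjoint,
    ContinuousLinearMap.adjoint_inner_right]

theorem vfm_state (Ω : H) (hΩ : ‖Ω‖ = 1) (Lam : ∀ k, D k →⋆ₐ[ℂ] (H →L[ℂ] H)) :
    IsState (vfm Ω Lam) := by
  have hnt : Nontrivial (MM Lam) := by
    refine ⟨⟨1, 0, fun h => ?_⟩⟩
    have h1 : ((1 : MM Lam) : H →L[ℂ] H) Ω = ((0 : MM Lam) : H →L[ℂ] H) Ω := by rw [h]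
    have h2 : Ω = 0 := by simpa using h1
    rw [h2] at hΩ
    simp at hΩ
  apply isState_of
  · intro b
    rw [vfm_star_mul, inner_self_eq_norm_sq_to_K]
    norm_cast
    positivity
  · apply ContinuousLinearMap.opNorm_le_bound _ zero_le_one
    intro x
    rw [vfm_apply, one_mul]
    calc ‖(inner ℂ Ω ((x : H →L[ℂ] H) Ω) : ℂ)‖ ≤ ‖Ω‖ * ‖(x : H →L[ℂ] H) Ω‖ :=
          norm_inner_le_norm _ _
      _ ≤ ‖Ω‖ * (‖(x : H →L[ℂ] H)‖ * ‖Ω‖) := by
          gcongr; exact ContinuousLinearMap.le_opNorm _ _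
      _ = ‖x‖ := by rw [hΩ]; simp
  · rw [vfm_apply]
    change inner ℂ Ω Ω = 1
    rw [inner_self_eq_norm_sq_to_K, hΩ]; simp

/-- the embeddings -/
def ee (Lam : ∀ k, D k →⋆ₐ[ℂ] (H →L[ℂ] H)) (k : K) : D k →⋆ₐ[ℂ] MM Lam :=
  (Lam k).codRestrict (MM Lam) fun x =>
    (S0 Lam).le_topologicalClosure (StarAlgebra.subset_adjoin ℂ _ (Set.mem_iUnion.2 ⟨k, x, rfl⟩))

theorem coe_prod (Lam : ∀ k, D k →⋆ₐ[ℂ] (H →L[ℂ] H)) (l : List (MM Lam)) :
    (l.prod).1 = (l.map fun x => x.1).prod := by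
  induction l with
  | nil => rfl
  | cons x l ih =>
    rw [List.prod_cons, List.map_cons, List.prod_cons, ← ih]
    rfl

theorem isRedFreeProd_of (Ω : H) (hΩ : ‖Ω‖ = 1) (t : ∀ k, D k →L[ℂ] ℂ)
    (Lam : ∀ k, D k →⋆ₐ[ℂ] (H →L[ℂ] H))
    (h1 : ∀ k x, inner ℂ Ω (Lam k x Ω) = t k x)
    (h2 : ∀ l : List (Σ k, D k), l ≠ [] → l.IsChain (fun a b => a.1 ≠ b.1) →
      (∀ z ∈ l, t z.1 z.2 = 0) → inner ℂ Ω ((l.map fun z => Lam z.1 z.2).prod Ω) = 0)
    (h3 : ∀ (ξ : H) (ε : ℝ), 0 < ε →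
      ∃ y ∈ StarAlgebra.adjoin ℂ (⋃ k, Set.range (Lam k)), ‖ξ - y Ω‖ < ε) :
    IsRedFreeProd D t (vfm Ω Lam) (ee Lam) := by
  refine ⟨vfm_state Ω hΩ Lam, h1, ?_, ?_, ?_⟩
  · intro w hne hc hz
    rw [vfm_apply]
    change inner ℂ Ω (((w.map fun z => ee Lam z.1 z.2).prod).1 Ω) = 0
    rw [coe_prod, List.map_map]
    exact h2 w hne hc hz
  · rw [eq_top_iff]
    intro m _
    change m ∈ closure ((StarAlgebra.adjoin ℂ (⋃ k, Set.range (ee Lam k)) :
      StarSubalgebra ℂ (MM Lam)) : Set (MM Lam))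
    rw [closure_subtype]
    have hm : m.1 ∈ closure (S0 Lam : Set (H →L[ℂ] H)) := m.2
    refine closure_mono ?_ hm
    have h5 := StarAlgHom.map_adjoin (MM Lam).subtype (⋃ k, Set.range (ee Lam k))
    have h6 : (MM Lam).subtype '' (⋃ k, Set.range (ee Lam k)) = ⋃ k, Set.range (Lam k) := by
      rw [Set.image_iUnion]
      refine Set.iUnion_congr fun k => ?_
      rw [← Set.range_comp]
      rfl
    rw [h6] at h5
    have h7 : S0 Lam = (StarAlgebra.adjoin ℂ (⋃ k, Set.range (ee Lam k))).map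
      (MM Lam).subtype := h5.symm
    rw [h7]
    rintro _ ⟨x, hx, rfl⟩
    exact ⟨x, hx, rfl⟩
  · intro a ha
    have h4 : ∀ x : MM Lam, (a : H →L[ℂ] H) ((x : H →L[ℂ] H) Ω) = 0 := by
      intro x
      have := ha x
      rw [vfm_star_mul] at this
      exact inner_self_eq_zero.1 this
    apply Subtype.ext
    ext1 ξ
    have h5 : ξ ∈ closure {v : H | ∃ y ∈ S0 Lam, y Ω = v} := by
      rw [Metric.mem_closure_iff]
      intro ε hε
      obtain ⟨y, hy, hyε⟩ := h3 ξ ε hε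
      exact ⟨y Ω, ⟨y, hy, rfl⟩, by rwa [dist_eq_norm]⟩
    have h6 : Set.EqOn (fun v => (a : H →L[ℂ] H) v) (fun _ => 0)
        (closure {v : H | ∃ y ∈ S0 Lam, y Ω = v}) := by
      refine Set.EqOn.closure ?_ (ContinuousLinearMap.continuous _) continuous_const
      rintro _ ⟨y, hy, rfl⟩
      exact h4 ⟨y, (S0 Lam).le_topologicalClosure hy⟩
    exact h6 h5

end gen

/-- Reduced free products exist. -/
theorem exists_redFreeProd {K : Type} (D : K → Type) [inst : ∀ k, CStarAlgebra (D k)]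
    (t : ∀ k, D k →L[ℂ] ℂ) (ht : ∀ k, IsState (t k)) :
    ∃ (A : Type) (_ : CStarAlgebra A) (φ : A →L[ℂ] ℂ) (e : ∀ k, D k →⋆ₐ[ℂ] A),
      IsRedFreeProd D t φ e := by
  classical
  choose I lam hlam1 hlam2 using fun k => exists_gns (D k) (t k) (ht k)
  obtain ⟨Lam, hLam⟩ := T_EXL.t_EXL T_AMP.t_AMP K D inst I lam
  obtain ⟨h1, h2⟩ := T_EXF.t_EXF K D inst I (fun k => (t k : D k →ₗ[ℂ] ℂ)) lam Lam hlam1 hLam
  have h3 := T_EXC.t_EXC K D inst I lam Lam hlam2 hLam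
  have hΩ : ‖dl2 (Wd.nil I)‖ = 1 := by
    unfold dl2
    rw [lp.norm_single (by norm_num)]
    simp
  exact ⟨MM Lam, inferInstance, vfm (dl2 (Wd.nil I)) Lam, ee Lam,
    isRedFreeProd_of (dl2 (Wd.nil I)) hΩ t Lam h1 h2 h3⟩

end Pool.Agent.X190.FreeProd
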