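import Mathlib

/-! JB*-algebras: linearised Jordan identity, and every element of a JB*-algebra is a finite sum
of products. -/

set_option autoImplicit false

namespace Pool.Agent.X190.JB

open Filter Topology

universe u

/-- The structure of a JB*-algebra on the complex Banach space `W`: a bilinear commutative product
satisfying the Jordan identity and `‖a ∘ b‖ ≤ ‖a‖ ‖b‖`, and a conjugate linear multiplicative
involution such that `‖U_a(a*)‖ = ‖a‖³`, where `U_a(b) = 2 (a ∘ b) ∘ a - a² ∘ b`. -/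
structure JBStarAlg (W : Type u) [NormedAddCommGroup W] [NormedSpace ℂ W] where
  mul : W → W → W
  inv : W → W
  mul_comm : ∀ a b, mul a b = mul b a
  add_mul : ∀ a b c, mul (a + b) c = mul a c + mul b c
  smul_mul : ∀ (r : ℂ) (a b), mul (r • a) b = r • mul a b
  jordan : ∀ a b, mul (mul a b) (mul a a) = mul a (mul b (mul a a))
  norm_mul_le : ∀ a b, ‖mul a b‖ ≤ ‖a‖ * ‖b‖
  inv_inv : ∀ a, inv (inv a) = a
  inv_add : ∀ a b, inv (a + b) = inv a + inv b
  inv_smul : ∀ (r : ℂ) (a), inv (r • a) = (starRingEnd ℂ r) • inv a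
  inv_mul : ∀ a b, inv (mul a b) = mul (inv a) (inv b)
  norm_U : ∀ a, ‖(2 : ℂ) • mul (mul a (inv a)) a - mul (mul a a) (inv a)‖ = ‖a‖ ^ 3

variable {W : Type u} [NormedAddCommGroup W] [NormedSpace ℂ W]

namespace JBStarAlg

variable (J : JBStarAlg W)

theorem mul_add (a b c : W) : J.mul a (b + c) = J.mul a b + J.mul a c := by
  rw [J.mul_comm, J.add_mul, J.mul_comm b, J.mul_comm c]

theorem mul_smul (r : ℂ) (a b : W) : J.mul a (r • b) = r • J.mul a b := by
  rw [J.mul_comm, J.smul_mul, J.mul_comm b]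

theorem zero_mul (a : W) : J.mul 0 a = 0 := by
  have := J.smul_mul 0 0 a
  simpa using this

theorem mul_zero (a : W) : J.mul a 0 = 0 := by rw [J.mul_comm, J.zero_mul]

/-- left multiplication -/
noncomputable def L (a : W) : W →L[ℂ] W :=
  LinearMap.mkContinuous { toFun := J.mul a, map_add' := J.mul_add a, map_smul' := fun r b => J.mul_smul r a b }
    ‖a‖ (fun b => J.norm_mul_le a b)

theorem L_apply (a b : W) : J.L a b = J.mul a b := rfl

theorem mul_sub (a b c : W) : J.mul a (b - c) = J.mul a b - J.mul a c := (J.L a).map_sub b c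

theorem sub_mul (a b c : W) : J.mul (a - b) c = J.mul a c - J.mul b c := by
  rw [J.mul_comm, J.mul_sub, J.mul_comm c, J.mul_comm c]

theorem norm_L (a : W) : ‖J.L a‖ ≤ ‖a‖ := LinearMap.mkContinuous_norm_le _ (norm_nonneg _) _

theorem L_add (a b : W) : J.L (a + b) = J.L a + J.L b := by
  ext c; exact J.add_mul a b c

theorem L_smul (r : ℂ) (a : W) : J.L (r • a) = r • J.L a := by
  ext c; exact J.smul_mul r a c

/-- the product as a bounded bilinear map -/
noncomputable def LL : W →L[ℂ] W →L[ℂ] W :=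
  LinearMap.mkContinuous { toFun := J.L, map_add' := J.L_add, map_smul' := J.L_smul } 1
    (fun a => by rw [one_mul]; exact J.norm_L a)

theorem LL_apply (a b : W) : J.LL a b = J.mul a b := rfl

theorem continuous_mul : Continuous fun p : W × W => J.mul p.1 p.2 := by
  have : Continuous fun p : W × W => J.LL p.1 p.2 := by fun_prop
  exact this

/-- the associated ring structure -/
@[reducible] def ring : NonUnitalNonAssocCommRing W :=
  { (inferInstance : AddCommGroup W) with
    mul := J.mul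
    left_distrib := J.mul_add
    right_distrib := J.add_mul
    zero_mul := J.zero_mul
    mul_zero := J.mul_zero
    mul_comm := J.mul_comm }

theorem isJordan : @IsCommJordan W (@CommMagma.mk W ⟨J.mul⟩ J.mul_comm) := by
  let _ : CommMagma W := @CommMagma.mk W ⟨J.mul⟩ J.mul_comm
  exact ⟨fun a b => J.jordan a b⟩

theorem linearised (a b c d : W) :
    J.mul a (J.mul (J.mul b c) d) - J.mul (J.mul b c) (J.mul a d) +
    (J.mul b (J.mul (J.mul c a) d) - J.mul (J.mul c a) (J.mul b d)) +
    (J.mul c (J.mul (J.mul a b) d) - J.mul (J.mul a b) (J.mul c d)) = 0 := by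
  let R := J.ring
  have : @IsCommJordan W _ := J.isJordan
  have h := two_nsmul_lie_lmul_lmul_add_add_eq_zero a b c
  have h1 := congrArg (fun f : AddMonoid.End W => f d) h
  have h2 : (2 : ℕ) • (J.mul a (J.mul (J.mul b c) d) - J.mul (J.mul b c) (J.mul a d) +
    (J.mul b (J.mul (J.mul c a) d) - J.mul (J.mul c a) (J.mul b d)) +
    (J.mul c (J.mul (J.mul a b) d) - J.mul (J.mul a b) (J.mul c d))) = 0 := h1
  have h3 : (2 : ℂ) • (J.mul a (J.mul (J.mul b c) d) - J.mul (J.mul b c) (J.mul a d) +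
    (J.mul b (J.mul (J.mul c a) d) - J.mul (J.mul c a) (J.mul b d)) +
    (J.mul c (J.mul (J.mul a b) d) - J.mul (J.mul a b) (J.mul c d))) = 0 := by
    rw [← h2, two_smul, two_nsmul]
  exact (smul_eq_zero.1 h3).resolve_left two_ne_zero

/-- the identity used throughout -/
theorem key (a b x y : W) : J.mul (J.mul a b) (J.mul x y) =
    J.mul a (J.mul x (J.mul b y)) + J.mul b (J.mul x (J.mul a y)) + J.mul (J.mul (J.mul a b) x) y -
      J.mul (J.mul b y) (J.mul a x) - J.mul (J.mul a y) (J.mul b x) := by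
  have h := J.linearised a b y x
  rw [J.mul_comm (J.mul b y) x, J.mul_comm (J.mul y a) x, J.mul_comm y (J.mul (J.mul a b) x),
    J.mul_comm y a, J.mul_comm y x] at h
  rw [← sub_eq_zero]
  rw [← neg_eq_zero]
  rw [← h]
  abel

/-- the powers: `pw a n = a^(n+1)` -/
def pw (a : W) : ℕ → W
  | 0 => a
  | n + 1 => J.mul a (pw a n)

theorem sq_comm (a z : W) : J.mul (J.mul a a) (J.mul a z) = J.mul a (J.mul (J.mul a a) z) := by
  rw [J.mul_comm (J.mul a a) (J.mul a z), J.jordan, J.mul_comm z]

theorem sq_pw (a : W) (n : ℕ) : J.mul (J.mul a a) (J.pw a n) = J.pw a (n + 2) := by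
  induction n with
  | zero => exact J.mul_comm _ _
  | succ n ih =>
    show J.mul (J.mul a a) (J.mul a (J.pw a n)) = J.mul a (J.pw a (n + 2))
    rw [J.sq_comm, ih]

/-- the algebra of operators generated by `L_a` and `L_{a^2}` -/
noncomputable def Sa (a : W) : Subalgebra ℂ (W →L[ℂ] W) := Algebra.adjoin ℂ {J.L a, J.L (J.mul a a)}

theorem L_rec (a x : W) : J.L (J.mul (J.mul a a) x) =
    J.L (J.mul a a) * J.L x - (2 : ℂ) • (J.L a * J.L x * J.L a) + (2 : ℂ) • (J.L (J.mul a x) * J.L a) := by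
  ext y
  have h := J.key a a x y
  show J.mul (J.mul (J.mul a a) x) y = J.mul (J.mul a a) (J.mul x y) -
    (2 : ℂ) • J.mul a (J.mul x (J.mul a y)) + (2 : ℂ) • J.mul (J.mul a x) (J.mul a y)
  rw [h, two_smul, two_smul, J.mul_comm (J.mul a x) (J.mul a y)]
  abel

theorem L_pw_mem (a : W) (n : ℕ) : J.L (J.pw a n) ∈ J.Sa a := by
  induction n using Nat.strong_induction_on with
  | _ n ih =>
    have ha : J.L a ∈ J.Sa a := Algebra.subset_adjoin (Set.mem_insert _ _)
    have haa : J.L (J.mul a a) ∈ J.Sa a := Algebra.subset_adjoin (Set.mem_insert_of_mem _ rfl)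
    rcases n with _ | _ | n
    · exact ha
    · exact haa
    · rw [← J.sq_pw, J.L_rec]
      have h1 := ih n (by omega)
      have h2 : J.L (J.mul a (J.pw a n)) ∈ J.Sa a := ih (n + 1) (by omega)
      exact add_mem (sub_mem (mul_mem haa h1) ((J.Sa a).smul_mem (mul_mem (mul_mem ha h1) ha) _))
        ((J.Sa a).smul_mem (mul_mem h2 ha) _)

theorem Sa_comm (a : W) {S T : W →L[ℂ] W} (hS : S ∈ J.Sa a) (hT : T ∈ J.Sa a) : Commute S T := by
  have h0 : Commute (J.L a) (J.L (J.mul a a)) := by
    ext z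
    exact (J.sq_comm a z).symm
  apply Algebra.commute_of_mem_adjoin_of_forall_mem_commute hT
  rintro T' (rfl | rfl)
  · refine (Algebra.commute_of_mem_adjoin_of_forall_mem_commute hS ?_).symm
    rintro S' (rfl | rfl)
    · exact Commute.refl _
    · exact h0
  · refine (Algebra.commute_of_mem_adjoin_of_forall_mem_commute hS ?_).symm
    rintro S' (rfl | rfl)
    · exact h0.symm
    · exact Commute.refl _

/-- the span of the powers -/
noncomputable def P0 (a : W) : Submodule ℂ W := Submodule.span ℂ (Set.range (J.pw a))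

/-- the closed span of the powers -/
noncomputable def P (a : W) : Submodule ℂ W := (J.P0 a).topologicalClosure

theorem P0_le (a : W) : J.P0 a ≤ J.P a := Submodule.le_topologicalClosure _

theorem a_mem (a : W) : a ∈ J.P a := J.P0_le a (Submodule.subset_span ⟨0, rfl⟩)

theorem isClosed_P (a : W) : IsClosed (J.P a : Set W) := Submodule.isClosed_topologicalClosure _

theorem L_P0_mem (a : W) {p : W} (hp : p ∈ J.P0 a) : J.L p ∈ J.Sa a := by
  induction hp using Submodule.span_induction with
  | mem x hx => obtain ⟨n, rfl⟩ := hx; exact J.L_pw_mem a n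
  | zero =>
    have : J.L 0 = 0 := by ext z; exact J.zero_mul z
    rw [this]; exact zero_mem _
  | add x y _ _ hx hy => rw [J.L_add]; exact add_mem hx hy
  | smul r x _ hx => rw [J.L_smul]; exact (J.Sa a).smul_mem hx r

theorem L_comm (a : W) {p q : W} (hp : p ∈ J.P a) (hq : q ∈ J.P a) (z : W) :
    J.mul p (J.mul q z) = J.mul q (J.mul p z) := by
  have hc1 : ∀ q : W, IsClosed {p : W | J.mul p (J.mul q z) = J.mul q (J.mul p z)} := by
    intro q
    have e1 : Continuous fun p : W => J.LL p (J.mul q z) := by fun_prop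
    have e2 : Continuous fun p : W => J.LL q (J.LL p z) := by fun_prop
    exact isClosed_eq e1 e2
  have h1 : ∀ q ∈ J.P0 a, ∀ p ∈ J.P a, J.mul p (J.mul q z) = J.mul q (J.mul p z) := by
    intro q hq p hp
    have hsub : (J.P0 a : Set W) ⊆ {p : W | J.mul p (J.mul q z) = J.mul q (J.mul p z)} := by
      intro p hp
      have := (J.Sa_comm a (J.L_P0_mem a hp) (J.L_P0_mem a hq)).eq
      exact congrArg (fun f : W →L[ℂ] W => f z) this
    exact closure_minimal hsub (hc1 q) hp
  have hc2 : IsClosed {q : W | J.mul p (J.mul q z) = J.mul q (J.mul p z)} := by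
    have e1 : Continuous fun q : W => J.LL p (J.LL q z) := by fun_prop
    have e2 : Continuous fun q : W => J.LL q (J.mul p z) := by fun_prop
    exact isClosed_eq e1 e2
  exact closure_minimal (fun q hq => h1 q hq p hp) hc2 hq

theorem assoc (a : W) {p q r : W} (hp : p ∈ J.P a) (_hq : q ∈ J.P a) (hr : r ∈ J.P a) :
    J.mul (J.mul p q) r = J.mul p (J.mul q r) := by
  rw [J.mul_comm (J.mul p q) r, J.L_comm a hr hp, J.mul_comm r q]

theorem pw_mul (a : W) (m n : ℕ) : J.mul (J.pw a m) (J.pw a n) = J.pw a (m + n + 1) := by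
  induction n with
  | zero => exact J.mul_comm _ _
  | succ n ih =>
    have h1 : J.pw a m ∈ J.P a := J.P0_le a (Submodule.subset_span ⟨m, rfl⟩)
    show J.mul (J.pw a m) (J.mul a (J.pw a n)) = J.mul a (J.pw a (m + n + 1))
    rw [J.L_comm a h1 (J.a_mem a), ih]

theorem P0_mul (a : W) {p q : W} (hp : p ∈ J.P0 a) (hq : q ∈ J.P0 a) : J.mul p q ∈ J.P0 a := by
  induction hp using Submodule.span_induction with
  | mem x hx =>
    obtain ⟨m, rfl⟩ := hx
    induction hq using Submodule.span_induction with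
    | mem y hy => obtain ⟨n, rfl⟩ := hy; rw [J.pw_mul]; exact Submodule.subset_span ⟨_, rfl⟩
    | zero => rw [J.mul_zero]; exact zero_mem _
    | add x y _ _ hx hy => rw [J.mul_add]; exact add_mem hx hy
    | smul r x _ hx => rw [J.mul_smul]; exact (J.P0 a).smul_mem r hx
  | zero => rw [J.zero_mul]; exact zero_mem _
  | add x y _ _ hx hy => rw [J.add_mul]; exact add_mem hx hy
  | smul r x _ hx => rw [J.smul_mul]; exact (J.P0 a).smul_mem r hx

theorem P_mul (a : W) {p q : W} (hp : p ∈ J.P a) (hq : q ∈ J.P a) : J.mul p q ∈ J.P a :=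
  map_mem_closure₂ J.continuous_mul hp hq fun _ h1 _ h2 => J.P0_mul a h1 h2

theorem norm_inv_le (a : W) : ‖J.inv a‖ ≤ 3 * ‖a‖ := by
  have h := J.norm_U (J.inv a)
  rw [J.inv_inv] at h
  have h1 : ‖J.mul (J.mul (J.inv a) a) (J.inv a)‖ ≤ ‖J.inv a‖ * ‖a‖ * ‖J.inv a‖ :=
    (J.norm_mul_le _ _).trans (mul_le_mul_of_nonneg_right (J.norm_mul_le _ _) (norm_nonneg _))
  have h2 : ‖J.mul (J.mul (J.inv a) (J.inv a)) a‖ ≤ ‖J.inv a‖ * ‖J.inv a‖ * ‖a‖ :=
    (J.norm_mul_le _ _).trans (mul_le_mul_of_nonneg_right (J.norm_mul_le _ _) (norm_nonneg _))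
  have h3 : ‖J.inv a‖ ^ 3 ≤ 3 * ‖a‖ * ‖J.inv a‖ ^ 2 := by
    rw [← h]
    refine (norm_sub_le _ _).trans ?_
    rw [norm_smul]
    have : ‖(2 : ℂ)‖ = 2 := by simp
    rw [this]
    nlinarith
  by_cases h0 : ‖J.inv a‖ = 0
  · rw [h0]; positivity
  · have hpos : 0 < ‖J.inv a‖ := lt_of_le_of_ne (norm_nonneg _) (Ne.symm h0)
    have hpos2 : 0 < ‖J.inv a‖ ^ 2 := by positivity
    have : ‖J.inv a‖ * ‖J.inv a‖ ^ 2 ≤ 3 * ‖a‖ * ‖J.inv a‖ ^ 2 := by
      calc _ = ‖J.inv a‖ ^ 3 := by ring
        _ ≤ _ := h3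
    exact le_of_mul_le_mul_right this hpos2

theorem continuous_inv : Continuous J.inv := by
  have hl : ∀ a b, dist (J.inv a) (J.inv b) ≤ 3 * dist a b := by
    intro a b
    rw [dist_eq_norm, dist_eq_norm]
    have : J.inv a - J.inv b = J.inv (a - b) := by
      rw [sub_eq_add_neg, sub_eq_add_neg, J.inv_add]
      have h : J.inv (-b) = - J.inv b := by
        have := J.inv_smul (-1) b
        simpa using this
      rw [h]
    rw [this]
    exact J.norm_inv_le _
  exact (LipschitzWith.of_dist_le_mul (K := 3) hl).continuous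

theorem inv_zero : J.inv 0 = 0 := by
  have := J.inv_smul 0 0
  simpa using this

theorem inv_pw {a : W} (ha : J.inv a = a) (n : ℕ) : J.inv (J.pw a n) = J.pw a n := by
  induction n with
  | zero => exact ha
  | succ n ih =>
    show J.inv (J.mul a (J.pw a n)) = J.mul a (J.pw a n)
    rw [J.inv_mul, ha, ih]

theorem P0_inv {a : W} (ha : J.inv a = a) {p : W} (hp : p ∈ J.P0 a) : J.inv p ∈ J.P0 a := by
  induction hp using Submodule.span_induction with
  | mem x hx => obtain ⟨m, rfl⟩ := hx; rw [J.inv_pw ha]; exact Submodule.subset_span ⟨_, rfl⟩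
  | zero => rw [J.inv_zero]; exact zero_mem _
  | add x y _ _ hx hy => rw [J.inv_add]; exact add_mem hx hy
  | smul r x _ hx => rw [J.inv_smul]; exact (J.P0 a).smul_mem _ hx

theorem P_inv {a : W} (ha : J.inv a = a) {p : W} (hp : p ∈ J.P a) : J.inv p ∈ J.P a :=
  map_mem_closure J.continuous_inv hp fun _ h => J.P0_inv ha h

section CStar

variable [CompleteSpace W] {a : W} (ha : J.inv a = a)

/-- the commutative C*-algebra generated by a self-adjoint element -/
@[reducible] noncomputable def cstar : NonUnitalCStarAlgebra (J.P a) :=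
  { (inferInstance : NormedAddCommGroup (J.P a)), (inferInstance : NormedSpace ℂ (J.P a)) with
    mul := fun p q => ⟨J.mul p q, J.P_mul a p.2 q.2⟩
    left_distrib := fun p q r => Subtype.ext (J.mul_add _ _ _)
    right_distrib := fun p q r => Subtype.ext (J.add_mul _ _ _)
    zero_mul := fun p => Subtype.ext (J.zero_mul _)
    mul_zero := fun p => Subtype.ext (J.mul_zero _)
    mul_assoc := fun p q r => Subtype.ext (J.assoc a p.2 q.2 r.2)
    norm_mul_le := fun p q => J.norm_mul_le _ _
    star := fun p => ⟨J.inv p, J.P_inv ha p.2⟩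
    star_involutive := fun p => Subtype.ext (J.inv_inv _)
    star_mul := fun p q => Subtype.ext (by
      show J.inv (J.mul p q) = J.mul (J.inv q) (J.inv p)
      rw [J.inv_mul, J.mul_comm])
    star_add := fun p q => Subtype.ext (J.inv_add _ _)
    complete := by
      have : CompleteSpace (J.P a) := (J.isClosed_P a).completeSpace_coe
      exact fun {f} h => CompleteSpace.complete h
    norm_mul_self_le := fun p => by
      show ‖(p : W)‖ * ‖(p : W)‖ ≤ ‖J.mul (J.inv p) p‖
      have h := J.norm_U (p : W)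
      have hip : J.inv (p : W) ∈ J.P a := J.P_inv ha p.2
      have e : (2 : ℂ) • J.mul (J.mul (p : W) (J.inv p)) p - J.mul (J.mul (p : W) p) (J.inv p) =
          J.mul p (J.mul (J.inv p) p) := by
        rw [J.assoc a p.2 hip p.2, J.assoc a p.2 p.2 hip, J.mul_comm (p : W) (J.inv p), two_smul]
        abel
      rw [e] at h
      have h2 : ‖(p : W)‖ ^ 3 ≤ ‖(p : W)‖ * ‖J.mul (J.inv p) p‖ := by
        rw [← h]; exact J.norm_mul_le _ _
      by_cases h0 : ‖(p : W)‖ = 0
      · rw [h0]; simp
      · have hpos : 0 < ‖(p : W)‖ := lt_of_le_of_ne (norm_nonneg _) (Ne.symm h0)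
        have : ‖(p : W)‖ * (‖(p : W)‖ * ‖(p : W)‖) ≤ ‖(p : W)‖ * ‖J.mul (J.inv p) p‖ := by
          calc _ = ‖(p : W)‖ ^ 3 := by ring
            _ ≤ _ := h2
        exact le_of_mul_le_mul_left this hpos
    smul_assoc := fun r p q => Subtype.ext (J.smul_mul _ _ _)
    smul_comm := fun r p q => Subtype.ext (J.mul_smul _ _ _).symm
    star_smul := fun r p => Subtype.ext (J.inv_smul _ _) }

include ha in
/-- a self-adjoint element is a difference of two products -/
theorem selfadjoint_decomp : ∃ s ∈ J.P a, ∃ t ∈ J.P a,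
    a = J.mul (J.inv s) s - J.mul (J.inv t) t := by
  let _ := J.cstar ha
  let _ := CStarAlgebra.spectralOrder (J.P a)
  have _ := CStarAlgebra.spectralOrderedRing (J.P a)
  set a' : J.P a := ⟨a, J.a_mem a⟩ with ha'
  have hsa : IsSelfAdjoint a' := Subtype.ext ha
  obtain ⟨s, hs⟩ := CStarAlgebra.nonneg_iff_eq_star_mul_self.1 (CFC.posPart_nonneg a')
  obtain ⟨t, ht⟩ := CStarAlgebra.nonneg_iff_eq_star_mul_self.1 (CFC.negPart_nonneg a')
  have h := CFC.posPart_sub_negPart a' hsa
  rw [hs, ht] at h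
  refine ⟨s, s.2, t, t.2, ?_⟩
  exact (congrArg (fun x : J.P a => (x : W)) h).symm

end CStar

end JBStarAlg

end Pool.Agent.X190.JB
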