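import Pool.Agent.X190.JB

/-! Multipliers of JB*-algebras and the J-strict topology. -/

set_option autoImplicit false

namespace Pool.Agent.X190.JB

open Filter Topology

universe u

variable {W : Type u} [NormedAddCommGroup W] [NormedSpace ℂ W]

/-- `A` is a JB*-subalgebra of `W`: a norm closed subspace closed under product and involution. -/
structure IsJBSub (J : JBStarAlg W) (A : Submodule ℂ W) : Prop where
  closed : IsClosed (A : Set W)
  mul_mem : ∀ a ∈ A, ∀ b ∈ A, J.mul a b ∈ A
  inv_mem : ∀ a ∈ A, J.inv a ∈ A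

/-- The multipliers of `A` in `W`: the elements `x` of `W` with `x ∘ A ⊆ A`. -/
def Mult (J : JBStarAlg W) (A : Submodule ℂ W) : Submodule ℂ W where
  carrier := {x | ∀ a ∈ A, J.mul x a ∈ A}
  add_mem' := by
    intro x y hx hy a ha
    rw [J.add_mul]; exact A.add_mem (hx a ha) (hy a ha)
  zero_mem' := by
    intro a _
    rw [J.zero_mul]; exact A.zero_mem
  smul_mem' := by
    intro r x hx a ha
    rw [J.smul_mul]; exact A.smul_mem r (hx a ha)

/-- The J-strict topology on the multipliers: the locally convex topology given by the seminorms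
`x ↦ ‖a ∘ x‖`, `a ∈ A`, i.e. the coarsest topology for which all maps `x ↦ a ∘ x` into `W` with the
norm topology are continuous. -/
@[reducible] def jstrict (J : JBStarAlg W) (A : Submodule ℂ W) : TopologicalSpace (Mult J A) :=
  ⨅ a : A, TopologicalSpace.induced (fun x : Mult J A => J.mul a x) inferInstance

variable (J : JBStarAlg W) {A : Submodule ℂ W}

theorem IsJBSub.P_le {J : JBStarAlg W} (hA : IsJBSub J A) {a : W} (ha : a ∈ A) : J.P a ≤ A := by
  have h0 : J.P0 a ≤ A := by
    rw [JBStarAlg.P0, Submodule.span_le]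
    rintro _ ⟨n, rfl⟩
    induction n with
    | zero => exact ha
    | succ n ih => exact hA.mul_mem a ha _ ih
  exact Submodule.topologicalClosure_minimal _ h0 hA.closed

/-- every element of a JB*-algebra is a finite sum of products -/
theorem span_products [CompleteSpace W] {J : JBStarAlg W} (hA : IsJBSub J A) {c : W} (hc : c ∈ A) :
    c ∈ Submodule.span ℂ {z | ∃ u ∈ A, ∃ v ∈ A, z = J.mul u v} := by
  have hsa : ∀ h ∈ A, J.inv h = h → h ∈ Submodule.span ℂ {z | ∃ u ∈ A, ∃ v ∈ A, z = J.mul u v} := by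
    intro h hh hs
    obtain ⟨s, hsP, t, htP, e⟩ := J.selfadjoint_decomp hs
    have hle := hA.P_le hh
    rw [e]
    exact sub_mem (Submodule.subset_span ⟨_, hA.inv_mem _ (hle hsP), _, hle hsP, rfl⟩)
      (Submodule.subset_span ⟨_, hA.inv_mem _ (hle htP), _, hle htP, rfl⟩)
  have hneg : ∀ b, J.inv (-b) = - J.inv b := by
    intro b
    have := J.inv_smul (-1) b
    simpa using this
  have h1 : (1 / 2 : ℂ) • (c + J.inv c) ∈ Submodule.span ℂ {z | ∃ u ∈ A, ∃ v ∈ A, z = J.mul u v} := by
    apply hsa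
    · exact A.smul_mem _ (A.add_mem hc (hA.inv_mem _ hc))
    · rw [J.inv_smul, J.inv_add, J.inv_inv, add_comm (J.inv c) c]
      congr 1
      simp only [one_div, map_inv₀]
      rw [Complex.conj_ofNat]
  have h2 : (-(1 / 2) * Complex.I : ℂ) • (c - J.inv c) ∈
      Submodule.span ℂ {z | ∃ u ∈ A, ∃ v ∈ A, z = J.mul u v} := by
    apply hsa
    · exact A.smul_mem _ (A.sub_mem hc (hA.inv_mem _ hc))
    · rw [J.inv_smul, sub_eq_add_neg, J.inv_add, hneg, J.inv_inv]
      have : (starRingEnd ℂ) (-(1 / 2) * Complex.I) = -(-(1 / 2) * Complex.I) := by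
        simp only [one_div, map_mul, map_neg, map_inv₀, Complex.conj_I, Complex.conj_ofNat]
        ring
      rw [this, neg_smul, ← smul_neg]
      congr 1
      abel
  have e : c = (1 / 2 : ℂ) • (c + J.inv c) + Complex.I • ((-(1 / 2) * Complex.I : ℂ) • (c - J.inv c)) := by
    rw [smul_smul]
    have : Complex.I * (-(1 / 2) * Complex.I) = 1 / 2 := by
      have := Complex.I_mul_I
      linear_combination (-1 / 2 : ℂ) * this
    rw [this, ← smul_add]
    have h3 : c + J.inv c + (c - J.inv c) = (2 : ℂ) • c := by rw [two_smul]; abel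
    rw [h3, smul_smul]
    norm_num
  rw [e]
  exact add_mem h1 (Submodule.smul_mem _ _ h2)

/-- the multipliers form a subalgebra -/
theorem mult_mul [CompleteSpace W] {J : JBStarAlg W} (hA : IsJBSub J A) (x y : Mult J A) :
    J.mul x y ∈ Mult J A := by
  have hx : ∀ a ∈ A, J.mul x a ∈ A := x.2
  have hx' : ∀ a ∈ A, J.mul a x ∈ A := fun a ha => by rw [J.mul_comm]; exact x.2 a ha
  have hy : ∀ a ∈ A, J.mul y a ∈ A := y.2
  have hy' : ∀ a ∈ A, J.mul a y ∈ A := fun a ha => by rw [J.mul_comm]; exact y.2 a ha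
  intro c hc
  have hc' := span_products hA hc
  induction hc' using Submodule.span_induction with
  | mem z hz =>
    obtain ⟨a, ha, b, hb, rfl⟩ := hz
    rw [J.mul_comm, J.key]
    have hab := hA.mul_mem a ha b hb
    exact A.sub_mem (A.sub_mem (A.add_mem (A.add_mem
      (hA.mul_mem a ha _ (hx _ (hy' b hb))) (hA.mul_mem b hb _ (hx _ (hy' a ha))))
      (hy' _ (hx' _ hab))) (hA.mul_mem _ (hy' b hb) _ (hx' a ha)))
      (hA.mul_mem _ (hy' a ha) _ (hx' b hb))
  | zero => rw [J.mul_zero]; exact A.zero_mem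
  | add u v hu hv ihu ihv =>
    -- the induction hypotheses need membership in `A`
    have hle : Submodule.span ℂ {z | ∃ u ∈ A, ∃ v ∈ A, z = J.mul u v} ≤ A := by
      rw [Submodule.span_le]
      rintro _ ⟨a, ha, b, hb, rfl⟩
      exact hA.mul_mem a ha b hb
    rw [J.mul_add]; exact A.add_mem (ihu (hle hu)) (ihv (hle hv))
  | smul r u hu ihu =>
    have hle : Submodule.span ℂ {z | ∃ u ∈ A, ∃ v ∈ A, z = J.mul u v} ≤ A := by
      rw [Submodule.span_le]
      rintro _ ⟨a, ha, b, hb, rfl⟩
      exact hA.mul_mem a ha b hb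
    rw [J.mul_smul]; exact A.smul_mem r (ihu (hle hu))

theorem tendsto_jstrict {J : JBStarAlg W} {ι : Type*} {l : Filter ι} {x : ι → Mult J A}
    {x₀ : Mult J A} : Tendsto x l (@nhds _ (jstrict J A) x₀) ↔
      ∀ a ∈ A, Tendsto (fun i => J.mul a (x i)) l (𝓝 (J.mul a x₀)) := by
  rw [jstrict, nhds_iInf, tendsto_iInf]
  constructor
  · intro h a ha
    have := h ⟨a, ha⟩
    rw [nhds_induced, tendsto_comap_iff] at this
    exact this
  · intro h a
    rw [nhds_induced, tendsto_comap_iff]
    exact h a a.2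

theorem continuous_jstrict {J : JBStarAlg W} {a : W} (ha : a ∈ A) :
    @Continuous _ _ (jstrict J A) _ (fun x : Mult J A => J.mul a x) := by
  rw [jstrict]
  exact continuous_iInf_dom (i := (⟨a, ha⟩ : A)) continuous_induced_dom

end Pool.Agent.X190.JB
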