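import Pool.Agent.X190.FreeProd2

/-! Averaging in reduced free products: no characters. -/

set_option autoImplicit false

namespace Pool.Agent.X190.NoChar

open scoped ComplexOrder InnerProductSpace
open Filter Topology Pool.Agent.X190.States Pool.Agent.X190.FreeProd

section hilbert

variable {H : Type*} [NormedAddCommGroup H] [InnerProductSpace ℂ H] [CompleteSpace H]

omit [CompleteSpace H] in
theorem norm_sum_sq (f : ℕ → H) (hf : ∀ k l, k ≠ l → ⟪f k, f l⟫_ℂ = 0) (n : ℕ) :
    ‖∑ k ∈ Finset.range n, f k‖ ^ 2 = ∑ k ∈ Finset.range n, ‖f k‖ ^ 2 := by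
  induction n with
  | zero => simp
  | succ n ih =>
    rw [Finset.sum_range_succ, Finset.sum_range_succ, ← ih]
    have h1 : ⟪∑ k ∈ Finset.range n, f k, f n⟫_ℂ = 0 := by
      rw [sum_inner]
      exact Finset.sum_eq_zero fun k hk => hf k n (Finset.mem_range.1 hk).ne
    have := norm_add_sq_eq_norm_sq_add_norm_sq_of_inner_eq_zero _ _ h1
    rw [sq, sq, sq]
    exact this

theorem avg (K : Submodule ℂ H) [K.HasOrthogonalProjection] (T : H →L[ℂ] H)
    (U : ℕ → H →L[ℂ] H) (hU : ∀ k, star (U k) * U k = 1)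
    (orth : ∀ k l, k ≠ l → ∀ x ∈ K, ∀ y ∈ K, ⟪U k x, U l y⟫_ℂ = 0)
    (hT : ∀ w ∈ Kᗮ, T w ∈ K) (n : ℕ) (v : H) :
    ‖∑ k ∈ Finset.range n, U k (T (star (U k) v))‖ ≤ 2 * (Real.sqrt n * ‖T‖ * ‖v‖) := by
  have hUn : ∀ k x, ‖U k x‖ = ‖x‖ := by
    intro k x
    have h1 : ⟪U k x, U k x⟫_ℂ = ⟪x, x⟫_ℂ := by
      have : ⟪x, (star (U k) * U k) x⟫_ℂ = ⟪x, x⟫_ℂ := by rw [hU]; rfl
      rw [mul_apply_eq_comp, ContinuousLinearMap.star_eq_adjoint,
        ContinuousLinearMap.adjoint_inner_right] at this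
      exact this
    rw [inner_self_eq_norm_sq_to_K, inner_self_eq_norm_sq_to_K] at h1
    have h2 : ‖U k x‖ ^ 2 = ‖x‖ ^ 2 := by exact_mod_cast h1
    exact (pow_left_inj₀ (norm_nonneg _) (norm_nonneg _) two_ne_zero).1 h2
  set P := K.starProjection with hP
  have hPK : ∀ x, P x ∈ K := fun x => K.starProjection_apply_mem x
  have hPn : ∀ x, ‖P x‖ ≤ ‖x‖ := fun x => K.norm_starProjection_apply_le x
  have hQn : ∀ x, ‖x - P x‖ ≤ ‖x‖ := by
    intro x
    have h1 : x - P x ∈ Kᗮ := K.sub_starProjection_mem_orthogonal x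
    have h2 : ⟪P x, x - P x⟫_ℂ = 0 := (Submodule.mem_orthogonal _ _).1 h1 _ (hPK x)
    have h3 := norm_add_sq_eq_norm_sq_add_norm_sq_of_inner_eq_zero _ _ h2
    rw [add_sub_cancel] at h3
    nlinarith [norm_nonneg x, norm_nonneg (x - P x), norm_nonneg (P x)]
  set w : ℕ → H := fun k => star (U k) v with hw
  have hwn : ∀ k, ‖w k‖ ≤ ‖v‖ := by
    intro k
    have h1 : ‖star (U k)‖ ≤ 1 := by
      rw [norm_star]
      exact ContinuousLinearMap.opNorm_le_bound _ zero_le_one fun x => by rw [hUn, one_mul]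
    calc ‖star (U k) v‖ ≤ ‖star (U k)‖ * ‖v‖ := ContinuousLinearMap.le_opNorm _ _
      _ ≤ 1 * ‖v‖ := by gcongr
      _ = ‖v‖ := one_mul _
  -- decomposition
  have hdec : ∀ k, U k (T (w k)) = U k (P (T (w k))) + U k (T (P (w k)) - P (T (P (w k)))) := by
    intro k
    rw [← map_add]
    congr 1
    have h1 : w k - P (w k) ∈ Kᗮ := K.sub_starProjection_mem_orthogonal _
    have h2 := hT _ h1
    have h3 : P (T (w k - P (w k))) = T (w k - P (w k)) := K.starProjection_eq_self_iff.2 h2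
    rw [map_sub, map_sub] at h3
    have h4 : T (w k) = P (T (w k)) - P (T (P (w k))) + T (P (w k)) := by
      rw [h3]; abel
    rw [h4]
    rw [map_add, map_sub]
    have hPP : ∀ x, P (P x) = P x := fun x => K.starProjection_eq_self_iff.2 (hPK x)
    rw [hPP, hPP]
    abel
  -- Bessel
  have hB : ∑ k ∈ Finset.range n, ‖P (w k)‖ ^ 2 ≤ ‖v‖ ^ 2 := by
    set y := ∑ k ∈ Finset.range n, U k (P (w k)) with hy
    set s := ∑ k ∈ Finset.range n, ‖P (w k)‖ ^ 2 with hs
    have h1 : ‖y‖ ^ 2 = s := by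
      rw [hy, norm_sum_sq (fun k => U k (P (w k)))
        (fun k l hkl => orth k l hkl _ (hPK _) _ (hPK _))]
      exact Finset.sum_congr rfl fun k _ => by rw [hUn]
    have h2 : ⟪y, v⟫_ℂ = (s : ℂ) := by
      rw [hy, sum_inner, hs, Complex.ofReal_sum]
      refine Finset.sum_congr rfl fun k _ => ?_
      have h3 : ⟪U k (P (w k)), v⟫_ℂ = ⟪P (w k), w k⟫_ℂ := by
        rw [hw]
        simp only
        rw [ContinuousLinearMap.star_eq_adjoint, ContinuousLinearMap.adjoint_inner_right]
      have h4 : w k = P (w k) + (w k - P (w k)) := by abel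
      have h5 : ⟪P (w k), w k - P (w k)⟫_ℂ = 0 :=
        (Submodule.mem_orthogonal _ _).1 (K.sub_starProjection_mem_orthogonal _) _ (hPK _)
      rw [h3]
      conv_lhs => rw [h4]
      rw [inner_add_right]
      have h6 : P (P (w k) + (w k - P (w k))) = P (w k) := by
        rw [add_sub_cancel]
      rw [h6, h5, add_zero, inner_self_eq_norm_sq_to_K]
      norm_cast
    have hs0 : 0 ≤ s := Finset.sum_nonneg fun _ _ => by positivity
    have h3 : s ≤ ‖y‖ * ‖v‖ := by
      have := norm_inner_le_norm (𝕜 := ℂ) y v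
      rw [h2, Complex.norm_real, Real.norm_of_nonneg hs0] at this
      exact this
    have h4 : s ^ 2 ≤ s * ‖v‖ ^ 2 := by
      calc s ^ 2 ≤ (‖y‖ * ‖v‖) ^ 2 := by gcongr
        _ = s * ‖v‖ ^ 2 := by rw [mul_pow, h1]
    by_contra hcon
    push Not at hcon
    have hspos : 0 < s := lt_of_le_of_lt (by positivity) hcon
    nlinarith
  have hA1 : ‖∑ k ∈ Finset.range n, U k (P (T (w k)))‖ ≤ Real.sqrt n * ‖T‖ * ‖v‖ := by
    have h1 : ‖∑ k ∈ Finset.range n, U k (P (T (w k)))‖ ^ 2 ≤ (Real.sqrt n * ‖T‖ * ‖v‖) ^ 2 := by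
      rw [norm_sum_sq (fun k => U k (P (T (w k))))
        (fun k l hkl => orth k l hkl _ (hPK _) _ (hPK _))]
      have h2 : ∀ k ∈ Finset.range n, ‖U k (P (T (w k)))‖ ^ 2 ≤ (‖T‖ * ‖v‖) ^ 2 := by
        intro k _
        rw [hUn]
        have : ‖P (T (w k))‖ ≤ ‖T‖ * ‖v‖ :=
          (hPn _).trans ((T.le_opNorm _).trans (by gcongr; exact hwn k))
        gcongr
      calc _ ≤ ∑ k ∈ Finset.range n, (‖T‖ * ‖v‖) ^ 2 := Finset.sum_le_sum h2
        _ = n * (‖T‖ * ‖v‖) ^ 2 := by rw [Finset.sum_const, Finset.card_range, nsmul_eq_mul]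
        _ = _ := by
            rw [mul_assoc (Real.sqrt n), mul_pow (Real.sqrt n), Real.sq_sqrt (Nat.cast_nonneg n)]
    exact le_of_sq_le_sq h1 (by positivity)
  have hA2 : ‖∑ k ∈ Finset.range n, U k (T (P (w k)) - P (T (P (w k))))‖ ≤
      Real.sqrt n * ‖T‖ * ‖v‖ := by
    have h1 : ‖∑ k ∈ Finset.range n, U k (T (P (w k)) - P (T (P (w k))))‖ ≤
        ‖T‖ * ∑ k ∈ Finset.range n, ‖P (w k)‖ := by
      rw [Finset.mul_sum]
      refine (norm_sum_le _ _).trans (Finset.sum_le_sum fun k _ => ?_)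
      rw [hUn]
      exact (hQn _).trans (T.le_opNorm _)
    have h2 : ∑ k ∈ Finset.range n, ‖P (w k)‖ ≤ Real.sqrt n * ‖v‖ := by
      have h3 : (∑ k ∈ Finset.range n, ‖P (w k)‖) ^ 2 ≤ n * ∑ k ∈ Finset.range n, ‖P (w k)‖ ^ 2 := by
        have := sq_sum_le_card_mul_sum_sq (s := Finset.range n) (f := fun k => ‖P (w k)‖)
        simpa using this
      have h4 : (∑ k ∈ Finset.range n, ‖P (w k)‖) ^ 2 ≤ (Real.sqrt n * ‖v‖) ^ 2 := by
        rw [mul_pow, Real.sq_sqrt (Nat.cast_nonneg n)]
        exact h3.trans (by gcongr)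
      exact le_of_sq_le_sq h4 (by positivity)
    calc _ ≤ _ := h1
      _ ≤ ‖T‖ * (Real.sqrt n * ‖v‖) := by gcongr
      _ = _ := by ring
  calc ‖∑ k ∈ Finset.range n, U k (T (star (U k) v))‖
      = ‖∑ k ∈ Finset.range n, U k (P (T (w k))) +
          ∑ k ∈ Finset.range n, U k (T (P (w k)) - P (T (P (w k))))‖ := by
        rw [← Finset.sum_add_distrib]
        congr 1
        exact Finset.sum_congr rfl fun k _ => hdec k
    _ ≤ _ := norm_add_le _ _
    _ ≤ _ := by linarith

end hilbert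

section free

variable {J : Type} {D : J → Type} [∀ j, CStarAlgebra (D j)] {t : ∀ j, D j →L[ℂ] ℂ} {A : Type}
  [CStarAlgebra A] {φ : A →L[ℂ] ℂ} {e : ∀ j, D j →⋆ₐ[ℂ] A}

/-- In a reduced free product the averages of the conjugates of a centred element of one factor by
orthogonal unitaries of another factor tend to zero. -/
theorem norm_avg (h : IsRedFreeProd D t φ e) (hst : ∀ j, IsState (t j)) {j0 j1 : J}
    (hj : j1 ≠ j0) (u : ℕ → D j1)
    (hu : ∀ k, star (u k) * u k = 1) (horth : ∀ k l, k ≠ l → t j1 (star (u k) * u l) = 0)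
    {a : D j0} (ha : t j0 a = 0) (n : ℕ) :
    ‖∑ k ∈ Finset.range n, e j1 (u k) * e j0 a * star (e j1 (u k))‖ ≤
      2 * (Real.sqrt n * ‖a‖) := by
  classical
  obtain ⟨I, π, hπ, hcyc⟩ := exists_gns A φ h.state
  set Ω : Pool.Agent.H923R2.FZ.l2 (Option I) := Pool.Agent.H923R2.FZ.dl2 none with hΩ
  have hinn : ∀ x y : A, ⟪π x Ω, π y Ω⟫_ℂ = φ (star x * y) := by
    intro x y
    rw [← hπ, map_mul, map_star, mul_apply_eq_comp, ContinuousLinearMap.star_eq_adjoint,
      ContinuousLinearMap.adjoint_inner_right]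
  have hinj : Function.Injective π := by
    rw [injective_iff_map_eq_zero]
    intro x hx
    refine h.gns x fun y => ?_
    rw [← hinn, map_mul, hx, zero_mul]
    simp
  have hiso : ∀ x, ‖π x‖ = ‖x‖ := fun x => NonUnitalStarAlgHom.norm_map π hinj x
  let Wj : Set (List (Σ j, D j)) := {w | Adm t w ∧ ∃ z w', w = z :: w' ∧ z.1 = j0}
  let Wn : Set (List (Σ j, D j)) := {w | Adm t w ∧ ∀ z w', w = z :: w' → z.1 ≠ j0}
  let K : Submodule ℂ _ := (Submodule.span ℂ ((fun w => π (val e w) Ω) '' Wj)).topologicalClosure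
  let N : Submodule ℂ _ := (Submodule.span ℂ ((fun w => π (val e w) Ω) '' Wn)).topologicalClosure
  have hKc : IsClosed (K : Set (Pool.Agent.H923R2.FZ.l2 (Option I))) :=
    Submodule.isClosed_topologicalClosure _
  have hNc : IsClosed (N : Set (Pool.Agent.H923R2.FZ.l2 (Option I))) :=
    Submodule.isClosed_topologicalClosure _
  have _ : CompleteSpace K := hKc.completeSpace_coe
  have _ : CompleteSpace N := hNc.completeSpace_coe
  have hstar : ∀ w, Adm t w → Adm t ((w.map fun z => (⟨z.1, star z.2⟩ : Σ j, D j)).reverse) := by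
    intro w hw
    refine ⟨?_, ?_⟩
    · rw [List.isChain_reverse, List.isChain_map]
      exact hw.1.imp fun a b hab => Ne.symm hab
    · intro z hz
      rw [List.mem_reverse, List.mem_map] at hz
      obtain ⟨z', hz', rfl⟩ := hz
      have h7 := hw.2 z' hz'
      have hp : Pos (t z'.1) := (hst z'.1).nonneg
      have h8 := hp.conj_symm z'.2 1
      rw [star_one, one_mul, mul_one, h7, map_zero] at h8
      exact h8.symm
  -- appending
  have happ : ∀ w w', w ∈ Wj → Adm t w' → (∀ z w'', w' = z :: w'' → z.1 ≠ j0) →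
      Adm t ((w.map fun z => (⟨z.1, star z.2⟩ : Σ j, D j)).reverse ++ w') := by
    rintro w w' ⟨hw, z, w1, rfl, hz⟩ hw' hne
    refine ⟨?_, ?_⟩
    · rw [List.isChain_append]
      refine ⟨(hstar _ hw).1, hw'.1, ?_⟩
      intro x hx y hy
      simp only [List.map_cons, List.reverse_cons, List.getLast?_append,
        List.getLast?_singleton, Option.some_or, Option.mem_def, Option.some.injEq] at hx
      cases w' with
      | nil => simp at hy
      | cons z' w'' =>
        simp only [List.head?_cons, Option.mem_def, Option.some.injEq] at hy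
        rw [← hx, ← hy]
        simp only
        rw [hz]
        exact Ne.symm (hne z' w'' rfl)
    · intro y hy
      rcases List.mem_append.1 hy with hy | hy
      · exact (hstar _ hw).2 y hy
      · exact hw'.2 y hy
  -- orthogonality of K and N
  have hext : ∀ (S S' : Set (List (Σ j, D j))) (B : Pool.Agent.H923R2.FZ.l2 (Option I) →L[ℂ]
      Pool.Agent.H923R2.FZ.l2 (Option I)),
      (∀ w ∈ S, ∀ w' ∈ S', ⟪π (val e w) Ω, B (π (val e w') Ω)⟫_ℂ = 0) →
      ∀ x ∈ (Submodule.span ℂ ((fun w => π (val e w) Ω) '' S)).topologicalClosure,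
      ∀ y ∈ (Submodule.span ℂ ((fun w => π (val e w) Ω) '' S')).topologicalClosure,
      ⟪x, B y⟫_ℂ = 0 := by
    intro S S' B hSS
    have h1 : ∀ w ∈ S, ∀ y ∈ (Submodule.span ℂ ((fun w => π (val e w) Ω) '' S')).topologicalClosure,
        ⟪π (val e w) Ω, B y⟫_ℂ = 0 := by
      intro w hw y hy
      have h2 : ∀ y ∈ Submodule.span ℂ ((fun w => π (val e w) Ω) '' S'),
          ⟪π (val e w) Ω, B y⟫_ℂ = 0 := by
        intro y hy
        induction hy using Submodule.span_induction with
        | mem y hy =>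
          obtain ⟨w', hw', rfl⟩ := hy
          exact hSS w hw w' hw'
        | zero => rw [map_zero, inner_zero_right]
        | add y z _ _ hy hz => rw [map_add, inner_add_right, hy, hz, add_zero]
        | smul r y _ hy => rw [map_smul, inner_smul_right, hy, mul_zero]
      have h3 : Set.EqOn (fun y => ⟪π (val e w) Ω, B y⟫_ℂ) (fun _ => 0)
          (closure (Submodule.span ℂ ((fun w => π (val e w) Ω) '' S') : Set _)) :=
        Set.EqOn.closure (fun y hy => h2 y hy) (by fun_prop) continuous_const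
      exact h3 hy
    intro x hx y hy
    have h2 : ∀ x ∈ Submodule.span ℂ ((fun w => π (val e w) Ω) '' S), ⟪x, B y⟫_ℂ = 0 := by
      intro x hx
      induction hx using Submodule.span_induction with
      | mem x hx =>
        obtain ⟨w, hw, rfl⟩ := hx
        exact h1 w hw y hy
      | zero => rw [inner_zero_left]
      | add x z _ _ hx hz => rw [inner_add_left, hx, hz, add_zero]
      | smul r x _ hx => rw [inner_smul_left, hx, mul_zero]
    have h3 : Set.EqOn (fun x => ⟪x, B y⟫_ℂ) (fun _ => 0)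
        (closure (Submodule.span ℂ ((fun w => π (val e w) Ω) '' S) : Set _)) :=
      Set.EqOn.closure (fun x hx => h2 x hx) (by fun_prop) continuous_const
    exact h3 hx
  have hKN : ∀ x ∈ K, ∀ y ∈ N, ⟪x, y⟫_ℂ = 0 := by
    refine hext Wj Wn (ContinuousLinearMap.id ℂ _) ?_
    intro w hw w' hw'
    rw [ContinuousLinearMap.id_apply, hinn, star_val, ← val_append]
    refine h.free' ?_ (happ w w' hw hw'.1 hw'.2)
    obtain ⟨_, z, w1, rfl, _⟩ := hw
    simp
  have hperp : ∀ v ∈ Kᗮ, v ∈ N := by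
    intro v hv
    have h1 : v - N.starProjection v ∈ Nᗮ := N.sub_starProjection_mem_orthogonal v
    have h2 : N.starProjection v ∈ Kᗮ := by
      rw [Submodule.mem_orthogonal]
      exact fun x hx => hKN x hx _ (N.starProjection_apply_mem v)
    have h3 : v - N.starProjection v ∈ Kᗮ := sub_mem hv h2
    set v' := v - N.starProjection v with hv'
    have h4 : ∀ w, Adm t w → ⟪v', π (val e w) Ω⟫_ℂ = 0 := by
      intro w hw
      by_cases hwj : ∃ z w', w = z :: w' ∧ z.1 = j0
      · exact (Submodule.mem_orthogonal' _ _).1 h3 _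
          (Submodule.le_topologicalClosure _ (Submodule.subset_span ⟨w, ⟨hw, hwj⟩, rfl⟩))
      · push Not at hwj
        exact (Submodule.mem_orthogonal' _ _).1 h1 _
          (Submodule.le_topologicalClosure _ (Submodule.subset_span ⟨w, ⟨hw, hwj⟩, rfl⟩))
    have hpc : Continuous π := by
      have : ∀ y, ‖π y‖ ≤ 1 * ‖y‖ := fun y => by rw [one_mul, hiso]
      exact AddMonoidHomClass.continuous_of_bound π 1 this
    have h5 : ∀ y ∈ CW t e, ⟪v', π y Ω⟫_ℂ = 0 := by
      intro y hy
      induction hy using Submodule.span_induction with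
      | mem y hy =>
        obtain ⟨w, hw, rfl⟩ := hy
        exact h4 w hw
      | zero => rw [map_zero]; simp
      | add y z _ _ hy hz => rw [map_add, add_apply, inner_add_right, hy, hz, add_zero]
      | smul r y _ hy => rw [map_smul, smul_apply, inner_smul_right, hy, mul_zero]
    have h6 : v' = 0 := by
      refine hcyc v' fun x => ?_
      have h7 : Set.EqOn (fun y => ⟪v', π y Ω⟫_ℂ) (fun _ => 0) (closure (CW t e : Set A)) :=
        Set.EqOn.closure (fun y hy => h5 y hy) (by fun_prop) continuous_const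
      exact h7 (dense_CW h.t_one h.gen x)
    have h8 : v = N.starProjection v := sub_eq_zero.1 h6
    rw [h8]
    exact N.starProjection_apply_mem v
  have hT : ∀ v ∈ Kᗮ, π (e j0 a) v ∈ K := by
    intro v hv
    have hvN := hperp v hv
    have h1 : π (e j0 a) v ∈ closure (K : Set _) := by
      refine map_mem_closure (π (e j0 a)).continuous hvN ?_
      intro x hx
      change x ∈ Submodule.span ℂ _ at hx
      change π (e j0 a) x ∈ K
      induction hx using Submodule.span_induction with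
      | mem x hx =>
        obtain ⟨w, hw, rfl⟩ := hx
        refine Submodule.le_topologicalClosure _ (Submodule.subset_span ⟨⟨j0, a⟩ :: w, ⟨⟨?_, ?_⟩,
          ⟨j0, a⟩, w, rfl, rfl⟩, ?_⟩)
        · cases w with
          | nil => exact List.isChain_singleton _
          | cons z w =>
            rw [List.isChain_cons_cons]
            exact ⟨Ne.symm (hw.2 z w rfl), hw.1.1⟩
        · intro z hz
          rcases List.mem_cons.1 hz with rfl | hz
          · exact ha
          · exact hw.1.2 z hz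
        · simp only [val_cons]
          rw [map_mul]
          rfl
      | zero => rw [map_zero]; exact zero_mem _
      | add x y _ _ hx hy => rw [map_add]; exact add_mem hx hy
      | smul r x _ hx => rw [map_smul]; exact Submodule.smul_mem _ _ hx
    rwa [hKc.closure_eq] at h1
  have hUU : ∀ k l, k ≠ l → ∀ x ∈ K, ∀ y ∈ K,
      ⟪π (e j1 (u k)) x, π (e j1 (u l)) y⟫_ℂ = 0 := by
    intro k l hkl x hx y hy
    have h1 : ⟪π (e j1 (u k)) x, π (e j1 (u l)) y⟫_ℂ =
        ⟪x, π (e j1 (star (u k) * u l)) y⟫_ℂ := by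
      rw [map_mul, map_star, map_mul, map_star, mul_apply_eq_comp,
        ContinuousLinearMap.star_eq_adjoint, ContinuousLinearMap.adjoint_inner_right]
    rw [h1]
    refine hext Wj Wj (π (e j1 (star (u k) * u l))) ?_ x hx y hy
    intro w hw w' hw'
    have h2 : ⟪π (val e w) Ω, π (e j1 (star (u k) * u l)) (π (val e w') Ω)⟫_ℂ =
        φ (star (val e w) * (e j1 (star (u k) * u l) * val e w')) := by
      rw [← hinn, map_mul π (e j1 _)]
      rfl
    rw [h2, star_val]
    have h3 : e j1 (star (u k) * u l) * val e w' =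
        val e ((⟨j1, star (u k) * u l⟩ : Σ j, D j) :: w') := by
      rw [val_cons]
    rw [h3, ← val_append]
    have hadm : Adm t ((⟨j1, star (u k) * u l⟩ : Σ j, D j) :: w') := by
      obtain ⟨hw1, z, w1, rfl, hz⟩ := hw'
      refine ⟨?_, ?_⟩
      · rw [List.isChain_cons_cons]
        refine ⟨?_, hw1.1⟩
        simp only
        rw [hz]
        exact hj
      · intro y hy
        rcases List.mem_cons.1 hy with rfl | hy
        · exact horth k l hkl
        · exact hw1.2 y hy
    refine h.free' (by simp) (happ w _ hw hadm ?_)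
    intro z w'' hz
    simp only [List.cons.injEq] at hz
    rw [← hz.1]
    exact hj
  have hb := avg K (π (e j0 a)) (fun k => π (e j1 (u k))) (fun k => by
    rw [← map_star, ← map_star, ← map_mul, ← map_mul, hu, map_one, map_one]) hUU hT n
  rw [← hiso]
  refine ContinuousLinearMap.opNorm_le_bound _ (by positivity) fun v => ?_
  have h1 : π (∑ k ∈ Finset.range n, e j1 (u k) * e j0 a * star (e j1 (u k))) v =
      ∑ k ∈ Finset.range n, π (e j1 (u k)) (π (e j0 a) (star (π (e j1 (u k))) v)) := by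
    rw [map_sum]
    simp only [map_mul, map_star]
    rw [sum_apply]
    rfl
  rw [h1]
  refine (hb v).trans ?_
  have h2 : ‖π (e j0 a)‖ ≤ ‖a‖ := by
    rw [hiso]
    exact NonUnitalStarAlgHom.norm_apply_le (e j0) a
  calc 2 * (Real.sqrt n * ‖π (e j0 a)‖ * ‖v‖) ≤ 2 * (Real.sqrt n * ‖a‖ * ‖v‖) := by gcongr
    _ = 2 * (Real.sqrt n * ‖a‖) * ‖v‖ := by ring

/-- A multiplicative state vanishes on the centred elements. -/
theorem char_centred (h : IsRedFreeProd D t φ e) (hst : ∀ j, IsState (t j)) {j0 j1 : J}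
    (hj : j1 ≠ j0) (u : ℕ → D j1)
    (hu : ∀ k, star (u k) * u k = 1) (horth : ∀ k l, k ≠ l → t j1 (star (u k) * u l) = 0)
    {ψ : A →L[ℂ] ℂ} (hψ : IsState ψ) (hmul : ∀ x y, ψ (x * y) = ψ x * ψ y)
    {a : D j0} (ha : t j0 a = 0) : ψ (e j0 a) = 0 := by
  by_contra hne
  have hpos : 0 < ‖ψ (e j0 a)‖ := norm_pos_iff.2 hne
  have hconj : ∀ k, ψ (e j1 (u k) * e j0 a * star (e j1 (u k))) = ψ (e j0 a) := by
    intro k
    have h1 : ψ (star (e j1 (u k))) * ψ (e j1 (u k)) = 1 := by
      rw [← hmul, ← map_star, ← map_mul, hu, map_one, hψ.map_one]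
    rw [hmul, hmul]
    calc ψ (e j1 (u k)) * ψ (e j0 a) * ψ (star (e j1 (u k))) =
        (ψ (star (e j1 (u k))) * ψ (e j1 (u k))) * ψ (e j0 a) := by ring
      _ = ψ (e j0 a) := by rw [h1, one_mul]
  have hb : ∀ n : ℕ, (n : ℝ) * ‖ψ (e j0 a)‖ ≤ 2 * (Real.sqrt n * ‖a‖) := by
    intro n
    have h1 := norm_avg h hst hj u hu horth ha n
    have h2 := ψ.le_opNorm (∑ k ∈ Finset.range n, e j1 (u k) * e j0 a * star (e j1 (u k)))
    rw [map_sum, Finset.sum_congr rfl fun k _ => hconj k, Finset.sum_const, Finset.card_range,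
      hψ.norm_eq, one_mul, nsmul_eq_mul, norm_mul, Complex.norm_natCast] at h2
    exact h2.trans h1
  obtain ⟨m, hm⟩ := exists_nat_gt (2 * ‖a‖ / ‖ψ (e j0 a)‖)
  rw [div_lt_iff₀ hpos] at hm
  have hm0 : (0 : ℝ) < m := by
    by_contra hle
    push Not at hle
    have : (m : ℝ) * ‖ψ (e j0 a)‖ ≤ 0 := mul_nonpos_of_nonpos_of_nonneg hle hpos.le
    have := norm_nonneg a
    linarith
  have h3 := hb (m * m)
  push_cast at h3
  rw [Real.sqrt_mul_self hm0.le] at h3
  have h4 : (m : ℝ) * (m * ‖ψ (e j0 a)‖) ≤ m * (2 * ‖a‖) := by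
    calc (m : ℝ) * (m * ‖ψ (e j0 a)‖) = m * m * ‖ψ (e j0 a)‖ := by ring
      _ ≤ 2 * (m * ‖a‖) := h3
      _ = m * (2 * ‖a‖) := by ring
  have h5 := le_of_mul_le_mul_left h4 hm0
  linarith

end free

end Pool.Agent.X190.NoChar
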