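import Mathlib

/-! Generic facts about positive functionals and states on C*-algebras. -/

set_option autoImplicit false

namespace Pool.Agent.X190.States

open scoped ComplexOrder
open Filter Topology

/-- A state on a (possibly non-unital) C*-algebra: a positive linear functional of norm one. -/
structure IsState {B : Type*} [NonUnitalCStarAlgebra B] (ω : B →L[ℂ] ℂ) : Prop where
  nonneg : ∀ b : B, 0 ≤ ω (star b * b)
  norm_eq : ‖ω‖ = 1

section CS

variable {B : Type*} [NonUnitalCStarAlgebra B]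

/-- positivity of a continuous functional -/
def Pos (ω : B →L[ℂ] ℂ) : Prop := ∀ b : B, 0 ≤ ω (star b * b)

theorem Pos.conj_symm {ω : B →L[ℂ] ℂ} (h : Pos ω) (x y : B) :
    (starRingEnd ℂ) (ω (star y * x)) = ω (star x * y) := by
  have h1 := (Complex.nonneg_iff.mp (h (x + y))).2
  have h2 := (Complex.nonneg_iff.mp (h (x + Complex.I • y))).2
  have hx := (Complex.nonneg_iff.mp (h x)).2
  have hy := (Complex.nonneg_iff.mp (h y)).2
  have e1 : star (x + y) * (x + y) = star x * x + star x * y + star y * x + star y * y := by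
    rw [star_add]; noncomm_ring
  have e2 : star (x + Complex.I • y) * (x + Complex.I • y) =
      star x * x + Complex.I • (star x * y) - Complex.I • (star y * x) + star y * y := by
    rw [star_add, star_smul]
    simp only [Complex.star_def, Complex.conj_I, add_mul, mul_add, smul_mul_assoc,
      mul_smul_comm, neg_smul, neg_mul, smul_neg, smul_smul, neg_neg, Complex.I_mul_I,
      one_smul, smul_add]
    abel
  rw [e1] at h1
  rw [e2] at h2
  simp only [map_add, map_sub, map_smul, Complex.add_im, Complex.sub_im, smul_eq_mul,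
    Complex.mul_im, Complex.I_re, Complex.I_im, zero_mul, one_mul, zero_add] at h1 h2
  apply Complex.ext
  · simp only [Complex.conj_re]; linarith
  · simp only [Complex.conj_im]; linarith

/-- the sesquilinear form of a positive functional -/
@[reducible] noncomputable def core (ω : B →L[ℂ] ℂ) (h : Pos ω) : PreInnerProductSpace.Core ℂ B where
  inner x y := ω (star x * y)
  conj_inner_symm x y := h.conj_symm x y
  re_inner_nonneg x := (Complex.nonneg_iff.mp (h x)).1
  add_left x y z := by rw [star_add, add_mul, map_add]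
  smul_left x y r := by
    rw [star_smul, smul_mul_assoc, map_smul]; rfl

theorem Pos.cs {ω : B →L[ℂ] ℂ} (h : Pos ω) (x y : B) :
    ‖ω (star x * y)‖ ^ 2 ≤ (ω (star x * x)).re * (ω (star y * y)).re := by
  have := @InnerProductSpace.Core.inner_mul_inner_self_le ℂ B _ _ _ (core ω h) x y
  have h2 : ‖ω (star y * x)‖ = ‖ω (star x * y)‖ := by
    rw [← h.conj_symm x y]; simp
  change ‖ω (star x * y)‖ * ‖ω (star y * x)‖ ≤ (ω (star x * x)).re * (ω (star y * y)).re at this
  rw [h2] at this
  rw [sq]; exact this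

theorem Pos.zero_of {ω : B →L[ℂ] ℂ} (h : Pos ω) {x : B} (hx : ω (star x * x) = 0) (y : B) :
    ω (star x * y) = 0 := by
  have := h.cs x y
  rw [hx] at this
  simp at this
  exact this

/-- compactness of the unit ball of the dual, ultrafilter form -/
theorem exists_limit {J : Type*} (U : Ultrafilter J) (f : J → B →L[ℂ] ℂ) (hf : ∀ j, ‖f j‖ ≤ 1) :
    ∃ ω : B →L[ℂ] ℂ, ‖ω‖ ≤ 1 ∧ ∀ b, Tendsto (fun j => f j b) U (𝓝 (ω b)) := by
  have hc := WeakDual.isCompact_closedBall (𝕜 := ℂ) (E := B) 0 1
  have hm : ∀ j, StrongDual.toWeakDual (f j) ∈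
      (WeakDual.toStrongDual ⁻¹' Metric.closedBall (0 : StrongDual ℂ B) 1) := by
    intro j
    simp [hf j]
  obtain ⟨ω, hω, hle⟩ := hc.ultrafilter_le_nhds (U.map (fun j => StrongDual.toWeakDual (f j)))
    (by
      rw [le_principal_iff]
      exact Filter.mem_map.2 (Filter.univ_mem' hm))
  refine ⟨WeakDual.toStrongDual ω, ?_, fun b => ?_⟩
  · simpa using hω
  · have ht : Tendsto (fun j => StrongDual.toWeakDual (f j)) U (𝓝 ω) := hle
    exact ((WeakDual.eval_continuous b).tendsto ω).comp ht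

theorem pos_of_tendsto {J : Type*} {U : Filter J} [U.NeBot] {f : J → B →L[ℂ] ℂ}
    (hf : ∀ j, Pos (f j)) {ω : B →L[ℂ] ℂ}
    (hω : ∀ b, Tendsto (fun j => f j b) U (𝓝 (ω b))) : Pos ω := by
  intro b
  exact ge_of_tendsto (hω _) (Eventually.of_forall fun j => hf j b)

end CS

section Unital

variable {A : Type*} [CStarAlgebra A]

theorem IsState.map_one {ω : A →L[ℂ] ℂ} (h : IsState ω) : ω 1 = 1 := by
  have hp : Pos ω := h.nonneg
  have h1 : 0 ≤ ω 1 := by simpa using h.nonneg 1
  have hre := (Complex.nonneg_iff.mp h1)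
  have hnt : Nontrivial A := by
    by_contra hn
    rw [not_nontrivial_iff_subsingleton] at hn
    have : ω = 0 := by ext x; rw [Subsingleton.elim x 0]; simp
    have h2 := h.norm_eq
    rw [this] at h2; simp at h2
  have hle : (ω 1).re ≤ 1 := by
    calc (ω 1).re ≤ ‖ω 1‖ := Complex.re_le_norm _
      _ ≤ ‖ω‖ * ‖(1 : A)‖ := ω.le_opNorm _
      _ = 1 := by rw [h.norm_eq, CStarRing.norm_one, one_mul]
  have hb : ∀ x, ‖ω x‖ ≤ Real.sqrt (ω 1).re * ‖x‖ := by
    intro x
    have h2 := hp.cs 1 x
    simp only [star_one, one_mul] at h2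
    have h3 : (ω (star x * x)).re ≤ ‖x‖ ^ 2 := by
      calc (ω (star x * x)).re ≤ ‖ω (star x * x)‖ := Complex.re_le_norm _
        _ ≤ ‖ω‖ * ‖star x * x‖ := ω.le_opNorm _
        _ = ‖x‖ ^ 2 := by rw [h.norm_eq, one_mul, CStarRing.norm_star_mul_self, sq]
    have h4 : ‖ω x‖ ^ 2 ≤ (Real.sqrt (ω 1).re * ‖x‖) ^ 2 := by
      rw [mul_pow, Real.sq_sqrt hre.1]
      exact h2.trans (mul_le_mul_of_nonneg_left h3 hre.1)
    exact le_of_sq_le_sq h4 (by positivity)
  have h5 : ‖ω‖ ≤ Real.sqrt (ω 1).re := ω.opNorm_le_bound (Real.sqrt_nonneg _) hb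
  rw [h.norm_eq] at h5
  have h6 : 1 ≤ (ω 1).re := by
    by_contra hlt
    push Not at hlt
    have : Real.sqrt (ω 1).re < 1 := by
      rw [show (1:ℝ) = Real.sqrt 1 by simp]
      exact Real.sqrt_lt_sqrt hre.1 hlt
    linarith
  apply Complex.ext
  · simp; linarith
  · simp; exact hre.2.symm

theorem isState_of {ω : A →L[ℂ] ℂ} [Nontrivial A] (hp : Pos ω) (hn : ‖ω‖ ≤ 1) (h1 : ω 1 = 1) : IsState ω :=
  ⟨hp, le_antisymm hn (by
    have := ω.le_opNorm 1
    rw [h1, CStarRing.norm_one] at this
    simpa using this)⟩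

end Unital

end Pool.Agent.X190.States
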