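import Mathlib

/-! `Z*`-algebras: countable families have common annihilators. -/

set_option autoImplicit false

namespace Pool.Agent.X190.ZStar

open scoped ComplexOrder
open Filter Topology

universe u v w

/-- `a` is a (left or right) zero divisor. -/
def IsZeroDivisor {A : Type u} [NonUnitalCStarAlgebra A] (a : A) : Prop :=
  ∃ b : A, b ≠ 0 ∧ (a * b = 0 ∨ b * a = 0)

/-- `A` is a `Z*`-algebra: every positive element `a = y* y` is a zero divisor. -/
def IsZStar (A : Type u) [NonUnitalCStarAlgebra A] : Prop :=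
  ∀ a : A, (∃ y : A, a = star y * y) → IsZeroDivisor a

/-- `A` is a simple C*-algebra: nonzero with no closed two-sided ideals except `0` and `A`. -/
def IsSimpleCStar (A : Type u) [NonUnitalCStarAlgebra A] : Prop :=
  Nontrivial A ∧ ∀ I : TwoSidedIdeal A, IsClosed (I : Set A) → I = ⊥ ∨ I = ⊤

variable {A : Type u} [NonUnitalCStarAlgebra A]

theorem nontrivial_of (hA : IsZStar A) : Nontrivial A := by
  obtain ⟨b, hb, _⟩ := hA 0 ⟨0, by simp⟩
  exact ⟨⟨b, 0, hb⟩⟩

theorem common_annihilator (hA : IsZStar A) (c : ℕ → A) : ∃ x : A, x ≠ 0 ∧ ∀ n, c n * x = 0 := by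
  let _ := CStarAlgebra.spectralOrder A
  have _ := CStarAlgebra.spectralOrderedRing A
  set w : ℕ → ℝ := fun n => (1 / 2) ^ n / (1 + ‖c n‖ ^ 2) with hw
  have hwpos : ∀ n, 0 < w n := fun n => by positivity
  set f : ℕ → A := fun n => w n • (star (c n) * c n) with hf
  have hfn : ∀ n, ‖f n‖ ≤ (1 / 2) ^ n := by
    intro n
    rw [hf]
    simp only
    rw [norm_smul, CStarRing.norm_star_mul_self, Real.norm_of_nonneg (hwpos n).le, hw]
    simp only
    rw [div_mul_eq_mul_div, div_le_iff₀ (by positivity)]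
    have : (0 : ℝ) < (1 / 2) ^ n := by positivity
    nlinarith [norm_nonneg (c n)]
  have hsum : Summable f := Summable.of_norm_bounded (summable_geometric_of_lt_one (by norm_num) (by norm_num)) hfn
  have hf0 : ∀ n, 0 ≤ f n := fun n => smul_nonneg (hwpos n).le (star_mul_self_nonneg _)
  have ha0 : 0 ≤ ∑' n, f n := tsum_nonneg hf0
  obtain ⟨b, hb, hab⟩ := hA (∑' n, f n) (CStarAlgebra.nonneg_iff_eq_star_mul_self.1 ha0)
  -- a nonzero `x` with `a x = 0`
  obtain ⟨x, hx, hax⟩ : ∃ x : A, x ≠ 0 ∧ (∑' n, f n) * x = 0 := by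
    rcases hab with h | h
    · exact ⟨b, hb, h⟩
    · refine ⟨star b, fun h' => hb (star_eq_zero.1 h'), ?_⟩
      have hs : star (∑' n, f n) = ∑' n, f n := (IsSelfAdjoint.of_nonneg ha0)
      have := congrArg star h
      rwa [star_mul, star_zero, hs] at this
  refine ⟨x, hx, fun n => ?_⟩
  have h1 : f n ≤ ∑' n, f n := hsum.le_tsum n (fun j _ => hf0 j)
  have h2 := star_left_conjugate_le_conjugate h1 x
  rw [mul_assoc (star x) (∑' n, f n), hax, mul_zero] at h2
  have h3 : 0 ≤ star x * f n * x := star_left_conjugate_nonneg (hf0 n) x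
  have h4 : star x * f n * x = 0 := le_antisymm h2 h3
  have h5 : star x * f n * x = w n • (star (c n * x) * (c n * x)) := by
    rw [hf]
    simp only
    rw [mul_smul_comm, smul_mul_assoc, star_mul]
    simp only [mul_assoc]
  rw [h5] at h4
  have h6 := (smul_eq_zero.1 h4).resolve_left (hwpos n).ne'
  exact CStarRing.star_mul_self_eq_zero_iff _ |>.1 h6

theorem common_annihilator' (hA : IsZStar A) {S : Set A} (hS : S.Countable) :
    ∃ x : A, x ≠ 0 ∧ ∀ s ∈ S, s * x = 0 := by
  rcases S.eq_empty_or_nonempty with rfl | hne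
  · have := nontrivial_of hA
    obtain ⟨x, hx⟩ := exists_ne (0 : A)
    exact ⟨x, hx, fun s hs => absurd hs (Set.notMem_empty s)⟩
  · obtain ⟨c, rfl⟩ := hS.exists_eq_range hne
    obtain ⟨x, hx, h⟩ := common_annihilator hA c
    exact ⟨x, hx, by rintro _ ⟨n, rfl⟩; exact h n⟩

/-- a positive element which is not a zero divisor kills nothing on the right -/
theorem not_zd {a : A} (h : ¬ IsZeroDivisor a) {x : A} (hx : a * x = 0) : x = 0 := by
  by_contra hne
  exact h ⟨x, hne, Or.inl hx⟩

end Pool.Agent.X190.ZStar
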